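import Pool.Agent.Lib.MP_b07157_agSH.Defs
import Pool.Agent.Lib.MP_b07157_agL3.Emba

/-!
# Shear-symmetric forms: the polynomial `t^(v M) f((X + B) / t^v, 1, t)`
-/

noncomputable section

namespace MPb07157.SH

open TL

namespace A2

/-- The homomorphism `ℂ[t] → L0`. -/
def ph : Polynomial ℂ →+* L0 :=
  ((Polynomial.aeval tau : Polynomial ℂ →ₐ[ℂ] L0) : Polynomial ℂ →+* L0)

theorem ph_apply (p : Polynomial ℂ) : ph p = Polynomial.aeval tau p := rfl

theorem ph_inj : Function.Injective ph := transcendental_iff_injective.1 Embaux.transcendental_tau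

theorem tau_pow (k : ℕ) : (tau : L0) ^ k = HahnSeries.single (k : ℚ) 1 := by
  show (HahnSeries.single (1 : ℚ) (1 : ℂ)) ^ k = _
  rw [HahnSeries.single_pow, one_pow, nsmul_eq_mul, mul_one]

theorem ph_CX (z : ℂ) (k : ℕ) : ph (Polynomial.C z * Polynomial.X ^ k) =
    HahnSeries.single (k : ℚ) z := by
  rw [ph_apply, map_mul, Polynomial.aeval_C, map_pow, Polynomial.aeval_X, algebraMap_L0, tau_pow,
    HahnSeries.C_apply, HahnSeries.single_mul_single, zero_add, mul_one]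

theorem ph_coeff (p : Polynomial ℂ) (q : ℚ) (h : (ph p).coeff q ≠ 0) : ∃ k : ℕ, (k : ℚ) = q := by
  by_contra hcon
  apply h
  rw [ph_apply, Embaux.aeval_tau, HahnSeries.ofPowerSeries_apply]
  apply HahnSeries.embDomain_of_notMem_range
  rintro ⟨k, hk⟩
  exact hcon ⟨k, hk⟩

theorem ph_single {p : Polynomial ℂ} {q : ℚ} {z : ℂ} (hz : z ≠ 0)
    (h : ph p = HahnSeries.single q z) :
    ∃ k : ℕ, (k : ℚ) = q ∧ p = Polynomial.C z * Polynomial.X ^ k := by
  obtain ⟨k, hk⟩ := ph_coeff p q (by rw [h, HahnSeries.coeff_single_same]; exact hz)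
  refine ⟨k, hk, ph_inj ?_⟩
  rw [h, ph_CX, hk]

theorem PL_sum {L : Type} [Field L] [Algebra ℂ L] (f : MvPolynomial (Fin 3) ℂ) (t : L) :
    PL f t = ∑ s ∈ f.support, Polynomial.C (algebraMap ℂ L (MvPolynomial.coeff s f) * t ^ s 2) *
      Polynomial.X ^ s 0 := by
  unfold PL
  rw [MvPolynomial.aeval_def, MvPolynomial.eval₂_eq']
  refine Finset.sum_congr rfl fun s _ => ?_
  rw [Fin.prod_univ_three, Polynomial.algebraMap_apply]
  simp only [Matrix.cons_val_zero, Matrix.cons_val_one, Matrix.cons_val, one_pow, mul_one]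
  rw [← Polynomial.C_pow, Polynomial.C_mul]
  ring

theorem aeval_CX {L : Type} [Field L] (x : L) (k : ℕ) (E : Polynomial L) :
    Polynomial.aeval E (Polynomial.C x * Polynomial.X ^ k) = Polynomial.C x * E ^ k := by
  rw [map_mul, Polynomial.aeval_C, map_pow, Polynomial.aeval_X]
  rfl

theorem aux0 {L : Type} [Field L] {t : L} (ht : t ≠ 0) (x b : L) {v M k : ℕ} (j : ℕ)
    (hk : k ≤ M) :
    Polynomial.C (x * t ^ (j + v * (M - k))) * (Polynomial.X + Polynomial.C b) ^ k =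
      Polynomial.C (t ^ (v * M)) * (Polynomial.C (x * t ^ j) *
        (Polynomial.C (t ^ v)⁻¹ * (Polynomial.X + Polynomial.C b)) ^ k) := by
  rw [mul_pow, ← mul_assoc, ← mul_assoc, ← Polynomial.C_pow, ← Polynomial.C_mul,
    ← Polynomial.C_mul]
  congr 2
  have h1 : v * M = v * (M - k) + v * k := by
    rw [← Nat.mul_add, Nat.sub_add_cancel hk]
  rw [h1, pow_add, pow_add, pow_mul t v k, inv_pow]
  have h3 : (t ^ v) ^ k ≠ 0 := pow_ne_zero _ (pow_ne_zero _ ht)
  field_simp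

theorem aux1 {L : Type} [Field L] [Algebra ℂ L] {f : MvPolynomial (Fin 3) ℂ} {t : L}
    (ht : t ≠ 0) {v M : ℕ} (hM : ∀ s ∈ f.support, s 0 ≤ M) (b : L) :
    ∑ s ∈ f.support, Polynomial.C (algebraMap ℂ L (MvPolynomial.coeff s f) *
      t ^ (s 2 + v * (M - s 0))) * (Polynomial.X + Polynomial.C b) ^ s 0 =
      Polynomial.C (t ^ (v * M)) *
      Polynomial.aeval (Polynomial.C (t ^ v)⁻¹ * (Polynomial.X + Polynomial.C b)) (PL f t) := by
  rw [PL_sum, map_sum, Finset.mul_sum]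
  refine Finset.sum_congr rfl fun s hs => ?_
  rw [aeval_CX]
  exact aux0 ht _ _ _ (hM s hs)

theorem aux2 {L ι : Type} [Field L] [Fintype ι] {t : L} (ht : t ≠ 0) (v : ℕ) (A0 b : L)
    {c ρ : ι → L} (m : ι → ℕ) (hc : ∀ i, t ^ v * c i = b + ρ i) :
    Polynomial.C (t ^ (v * ∑ i, m i)) *
      Polynomial.aeval (Polynomial.C (t ^ v)⁻¹ * (Polynomial.X + Polynomial.C b))
        (Polynomial.C A0 * ∏ i, (Polynomial.X - Polynomial.C (c i)) ^ m i) =
      Polynomial.C A0 * ∏ i, (Polynomial.X - Polynomial.C (ρ i)) ^ m i := by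
  have e3 : ∀ x : L, (algebraMap L (Polynomial L)) x = Polynomial.C x := fun _ => rfl
  rw [map_mul, Polynomial.aeval_C, map_prod, mul_left_comm]
  rw [pow_mul, ← Finset.prod_pow_eq_pow_sum, map_prod, ← Finset.prod_mul_distrib, e3]
  congr 1
  refine Finset.prod_congr rfl fun i _ => ?_
  rw [map_pow Polynomial.C (t ^ v), map_pow (Polynomial.aeval _), ← mul_pow]
  congr 1
  rw [map_sub, Polynomial.aeval_X, Polynomial.aeval_C, e3, mul_sub, ← mul_assoc,
    ← Polynomial.C_mul, ← Polynomial.C_mul, mul_inv_cancel₀ (pow_ne_zero _ ht), Polynomial.C_1,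
    one_mul, hc, Polynomial.C_add]
  ring

theorem aux3 {L ι : Type} [Field L] [Algebra ℂ L] [Fintype ι] {σ : L} (hσ0 : σ ≠ 0)
    (γ : ι → ℂ) (m : ι → ℕ) {j : ℕ} (hj : j ≤ ∑ i, m i) :
    (∏ i, (Polynomial.X - Polynomial.C (algebraMap ℂ L (γ i) * σ)) ^ m i).coeff j =
      algebraMap ℂ L ((gg γ m).coeff j) * σ ^ (∑ i, m i - j) := by
  have h1 : ∏ i, (Polynomial.X - Polynomial.C (algebraMap ℂ L (γ i) * σ)) ^ m i =
      Polynomial.C (σ ^ ∑ i, m i) *
        ((gg γ m).map (algebraMap ℂ L)).comp (Polynomial.C σ⁻¹ * Polynomial.X) := by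
    unfold gg
    rw [← Finset.prod_pow_eq_pow_sum, map_prod, Polynomial.map_prod, Polynomial.prod_comp,
      ← Finset.prod_mul_distrib]
    refine Finset.prod_congr rfl fun i _ => ?_
    rw [Polynomial.map_pow, Polynomial.pow_comp, Polynomial.map_sub, Polynomial.map_X,
      Polynomial.map_C, Polynomial.sub_comp, Polynomial.X_comp, Polynomial.C_comp,
      map_pow Polynomial.C, ← mul_pow]
    congr 1
    rw [mul_sub, ← mul_assoc, ← Polynomial.C_mul, ← Polynomial.C_mul, mul_inv_cancel₀ hσ0,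
      Polynomial.C_1, one_mul, mul_comm σ]
  rw [h1, Polynomial.coeff_C_mul, Polynomial.comp_C_mul_X_coeff, Polynomial.coeff_map]
  have h2 : σ ^ (∑ i, m i) = σ ^ (∑ i, m i - j) * σ ^ j := by
    rw [← pow_add, Nat.sub_add_cancel hj]
  have h4 : σ ^ j ≠ 0 := pow_ne_zero _ hσ0
  rw [h2, inv_pow]
  field_simp

theorem map_PB {ι : Type} [Fintype ι] [DecidableEq ι]
    {f : MvPolynomial (Fin 3) ℂ} {c : ι → L0} {m : ι → ℕ}
    {a : ℕ} {c0 : ℂ} {lam : ℚ} (hF : Fac f tau c m (HahnSeries.single (a : ℚ) c0))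
    (hM : ∀ s ∈ f.support, s 0 ≤ ∑ i, m i)
    {u v : ℕ} {B : Polynomial ℂ} {γ : ι → ℂ} (hC : Cen c lam u v B γ) :
    (PB f v (∑ i, m i) B).map ph = Polynomial.C (HahnSeries.single (a : ℚ) c0) *
      ∏ i, (Polynomial.X - Polynomial.C (HahnSeries.single (lam + v) (γ i))) ^ m i := by
  have hτ : (tau : L0) ≠ 0 := Embaux.tau_ne
  have h1 := aux1 hτ (v := v) hM (ph B)
  have h2 := aux2 hτ v (HahnSeries.single (a : ℚ) c0 : L0) (ph B) (c := c)
    (ρ := fun i => HahnSeries.single (lam + v) (γ i)) m hC.eq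
  rw [hF.eq] at h1
  rw [h2] at h1
  rw [← h1]
  unfold PB
  rw [Polynomial.map_sum]
  refine Finset.sum_congr rfl fun s _ => ?_
  rw [Polynomial.map_mul, Polynomial.map_C, Polynomial.map_pow, Polynomial.map_add,
    Polynomial.map_X, Polynomial.map_C, ph_CX]
  congr 2
  rw [tau_pow, algebraMap_L0, HahnSeries.C_apply, HahnSeries.single_mul_single, zero_add, mul_one]

theorem coeff_prod {ι : Type} [Fintype ι] [DecidableEq ι] (q : ℚ) (γ : ι → ℂ) (m : ι → ℕ)
    {j : ℕ} (hj : j ≤ ∑ i, m i) :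
    (∏ i, (Polynomial.X - Polynomial.C (HahnSeries.single q (γ i) : L0)) ^ m i).coeff j =
      HahnSeries.single ((((∑ i, m i : ℕ) : ℚ) - j) * q) ((gg γ m).coeff j) := by
  have hσ0 : (HahnSeries.single q 1 : L0) ≠ 0 := HahnSeries.single_ne_zero one_ne_zero
  have h := aux3 hσ0 γ m hj
  have e1 : ∀ i, (algebraMap ℂ L0 (γ i) * HahnSeries.single q 1 : L0) =
      HahnSeries.single q (γ i) := fun i => by
    rw [algebraMap_L0, HahnSeries.C_apply, HahnSeries.single_mul_single, zero_add, mul_one]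
  have e2 : ((HahnSeries.single q 1 : L0)) ^ (∑ i, m i - j) =
      HahnSeries.single ((((∑ i, m i : ℕ) : ℚ) - j) * q) 1 := by
    rw [HahnSeries.single_pow, one_pow, nsmul_eq_mul, Nat.cast_sub hj]
  simp only [e1] at h
  rw [h, e2, algebraMap_L0, HahnSeries.C_apply, HahnSeries.single_mul_single, zero_add, mul_one]

theorem gg_monic {ι : Type} [Fintype ι] (γ : ι → ℂ) (m : ι → ℕ) : (gg γ m).Monic :=
  Polynomial.monic_prod_of_monic _ _ fun i _ => (Polynomial.monic_X_sub_C (γ i)).pow (m i)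

theorem gg_natDegree {ι : Type} [Fintype ι] (γ : ι → ℂ) (m : ι → ℕ) :
    (gg γ m).natDegree = ∑ i, m i := by
  unfold gg
  rw [Polynomial.natDegree_prod_of_monic _ _ fun i _ =>
    (Polynomial.monic_X_sub_C (γ i)).pow (m i)]
  refine Finset.sum_congr rfl fun i _ => ?_
  rw [Polynomial.natDegree_pow, Polynomial.natDegree_X_sub_C, mul_one]

end A2

open A2

theorem exists_ex {ι : Type} [Fintype ι] [DecidableEq ι]
    {f : MvPolynomial (Fin 3) ℂ} {d : ℕ} (_hf : f.IsHomogeneous d) {c : ι → L0} {m : ι → ℕ}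
    {a : ℕ} {c0 : ℂ} {lam : ℚ} (hF : Fac f tau c m (HahnSeries.single (a : ℚ) c0))
    (hM : ∀ s ∈ f.support, s 0 ≤ ∑ i, m i)
    {u v : ℕ} {B : Polynomial ℂ} {γ : ι → ℂ} (hC : Cen c lam u v B γ) :
    ∃ s : ℕ → ℕ, Ex (PB f v (∑ i, m i) B) c0 a (∑ i, m i) v lam (gg γ m) s := by
  classical
  have hc0 : c0 ≠ 0 := by
    rintro rfl
    exact hF.ne (HahnSeries.single_eq_zero)
  have key : ∀ j ≤ ∑ i, m i, ph ((PB f v (∑ i, m i) B).coeff j) =
      HahnSeries.single ((a : ℚ) + (((∑ i, m i : ℕ) : ℚ) - j) * (lam + v))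
        (c0 * (gg γ m).coeff j) := by
    intro j hj
    rw [← Polynomial.coeff_map, map_PB hF hM hC, Polynomial.coeff_C_mul, coeff_prod _ _ _ hj,
      HahnSeries.single_mul_single]
  have key2 : ∀ j, ∑ i, m i < j → (PB f v (∑ i, m i) B).coeff j = 0 := by
    intro j hj
    apply ph_inj
    rw [← Polynomial.coeff_map, map_PB hF hM hC, map_zero, Polynomial.coeff_C_mul]
    rw [Polynomial.coeff_eq_zero_of_natDegree_lt, mul_zero]
    refine lt_of_le_of_lt (le_of_eq ?_) hj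
    rw [Polynomial.natDegree_prod_of_monic _ _ fun i _ =>
      (Polynomial.monic_X_sub_C _).pow (m i)]
    refine Finset.sum_congr rfl fun i _ => ?_
    rw [Polynomial.natDegree_pow, Polynomial.natDegree_X_sub_C, mul_one]
  have hle : ∀ j ∈ (gg γ m).support, j ≤ ∑ i, m i := fun j hj => by
    rw [← gg_natDegree γ m]
    exact Polynomial.le_natDegree_of_mem_supp _ hj
  have hex : ∀ j : ℕ, ∃ k : ℕ, j ∈ (gg γ m).support →
      (k : ℚ) = (a : ℚ) + (((∑ i, m i : ℕ) : ℚ) - j) * (lam + v) ∧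
      (PB f v (∑ i, m i) B).coeff j =
        Polynomial.C (c0 * (gg γ m).coeff j) * Polynomial.X ^ k := by
    intro j
    by_cases hj : j ∈ (gg γ m).support
    · obtain ⟨k, hk1, hk2⟩ := ph_single
        (mul_ne_zero hc0 (Polynomial.mem_support_iff.1 hj)) (key j (hle j hj))
      exact ⟨k, fun _ => ⟨hk1, hk2⟩⟩
    · exact ⟨0, fun h => absurd h hj⟩
  choose s hs using hex
  refine ⟨s, gg_monic γ m, gg_natDegree γ m, fun j hj => (hs j hj).1, ?_⟩
  refine Polynomial.ext fun j => ?_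
  rw [Polynomial.finsetSum_coeff]
  simp only [Polynomial.coeff_C_mul_X_pow]
  by_cases hj : j ∈ (gg γ m).support
  · rw [Finset.sum_eq_single j (fun b _ hb => if_neg fun h => hb h.symm)
      (fun h => absurd hj h), if_pos rfl, (hs j hj).2]
  · rw [Finset.sum_eq_zero fun b hb => if_neg fun h => hj (by rw [h]; exact hb)]
    by_cases hj2 : j ≤ ∑ i, m i
    · apply ph_inj
      rw [key j hj2, Polynomial.notMem_support_iff.1 hj, mul_zero, map_zero ph]
      exact HahnSeries.single_eq_zero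
    · exact key2 j (not_le.1 hj2)

end MPb07157.SH
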