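import Pool.Agent.Lib.MP_b07157_agSH.Defs

/-!
# Shear-symmetric forms: the exponents are not negative
-/

noncomputable section

namespace MPb07157.SH

open MvPolynomial

namespace A3

theorem sum_eq {f : MvPolynomial (Fin 3) ℂ} {d : ℕ} (hf : f.IsHomogeneous d) {s : Fin 3 →₀ ℕ}
    (hs : s ∈ f.support) : s 0 + s 1 + s 2 = d := by
  have h1 := hf (mem_support_iff.1 hs)
  rw [Finsupp.weight_apply, Finsupp.sum_fintype _ _ (fun i => by simp), Fin.sum_univ_three] at h1
  simpa using h1

/-- The value of `P` at `-B`. -/
theorem eval_PB (f : MvPolynomial (Fin 3) ℂ) (v M : ℕ) (B : Polynomial ℂ) :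
    (PB f v M B).eval (-B) = ∑ s ∈ f.support.filter (fun s => s 0 = 0),
      Polynomial.C (coeff s f) * Polynomial.X ^ (s 2 + v * M) := by
  unfold PB
  rw [Polynomial.eval_finsetSum, Finset.sum_filter]
  refine Finset.sum_congr rfl fun s _ => ?_
  rw [Polynomial.eval_mul, Polynomial.eval_C, Polynomial.eval_pow, Polynomial.eval_add,
    Polynomial.eval_X, Polynomial.eval_C, neg_add_cancel]
  split_ifs with h
  · rw [h, pow_zero, mul_one, Nat.sub_zero]
  · rw [zero_pow h, mul_zero]

theorem eval_Ex {P : Polynomial (Polynomial ℂ)} {c0 : ℂ} {a M v : ℕ} {lam : ℚ}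
    {g : Polynomial ℂ} {s : ℕ → ℕ} (hE : Ex P c0 a M v lam g s) (B : Polynomial ℂ) :
    P.eval (-B) = ∑ j ∈ g.support, Polynomial.C (c0 * g.coeff j) *
      (Polynomial.X ^ s j * (-B) ^ j) := by
  rw [hE.eq, Polynomial.eval_finsetSum]
  refine Finset.sum_congr rfl fun j _ => ?_
  rw [Polynomial.eval_mul, Polynomial.eval_C, Polynomial.eval_pow, Polynomial.eval_X, mul_assoc]

end A3

open A3

theorem nn_of_ex {ι : Type} [Fintype ι] {c : ι → TL.L0} {γ : ι → ℂ}
    {f : MvPolynomial (Fin 3) ℂ} {d : ℕ} (hf : f.IsHomogeneous d) {M : ℕ}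
    (hM : ∀ s ∈ f.support, s 0 ≤ M) {u v : ℕ} {B : Polynomial ℂ} {lam : ℚ}
    (hC : Cen c lam u v B γ) {c0 : ℂ} (hc0 : c0 ≠ 0) {a : ℕ} {g : Polynomial ℂ} {s : ℕ → ℕ}
    (hE : Ex (PB f v M B) c0 a M v lam g s) : Nn d M u v g s := by
  have hg : g.support.Nonempty := Polynomial.nonempty_support_iff.2 hE.mon.ne_zero
  have hgc : ∀ j ∈ g.support, c0 * g.coeff j ≠ 0 := fun j hj =>
    mul_ne_zero hc0 (Polynomial.mem_support_iff.1 hj)
  refine ⟨?_, ?_⟩
  · -- the exponents of `y`
    rcases hC.low with hv | hB0
    · intro j _
      rw [hv, zero_mul]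
      exact Nat.zero_le _
    by_cases hv : v = 0
    · intro j _
      rw [hv, zero_mul]
      exact Nat.zero_le _
    have hlam : lam + v ≠ 0 := by
      intro h
      have hv' : (v : ℚ) ≠ 0 := by exact_mod_cast hv
      refine hB0 (hC.norm (fun h0 => hv' (by rw [h0, zero_add] at h; exact h)) 0 ?_)
      rw [h, Nat.cast_zero]
    obtain ⟨j0, hj0, hmin⟩ := g.support.exists_min_image s hg
    have hne : ∀ j ∈ g.support, j ≠ j0 → s j0 < s j := by
      intro j hj hjj
      refine lt_of_le_of_ne (hmin j hj) fun h => hjj ?_
      have e1 := hE.exp j hj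
      have e2 := hE.exp j0 hj0
      rw [← h, e2] at e1
      have e3 : ((j : ℚ) - j0) * (lam + v) = 0 := by linear_combination e1
      have e4 := (mul_eq_zero.1 e3).resolve_right hlam
      exact_mod_cast sub_eq_zero.1 e4
    suffices h : v * M ≤ s j0 from fun j hj => h.trans (hmin j hj)
    by_contra hcon
    have h1 := eval_PB f v M B
    rw [eval_Ex hE] at h1
    have h2 := congrArg (fun p : Polynomial ℂ => p.coeff (s j0)) h1
    simp only [Polynomial.finsetSum_coeff] at h2
    rw [Finset.sum_eq_single j0, Finset.sum_eq_zero] at h2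
    · rw [Polynomial.coeff_C_mul, Polynomial.coeff_X_pow_mul', if_pos le_rfl, Nat.sub_self,
        Polynomial.coeff_zero_eq_eval_zero, Polynomial.eval_pow, Polynomial.eval_neg,
        ← Polynomial.coeff_zero_eq_eval_zero] at h2
      exact mul_ne_zero (hgc j0 hj0) (pow_ne_zero _ (neg_ne_zero.2 hB0)) h2
    · intro t _
      rw [Polynomial.coeff_C_mul, Polynomial.coeff_X_pow, if_neg (by omega), mul_zero]
    · intro j hj hjj
      rw [Polynomial.coeff_C_mul, Polynomial.coeff_X_pow_mul',
        if_neg (by have := hne j hj hjj; omega), mul_zero]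
    · intro h
      exact (h hj0).elim
  · -- the exponents of `x`
    by_cases hu : u = 0
    · intro j hj
      by_contra hcon
      have h1 := congrArg (fun P : Polynomial (Polynomial ℂ) => (P.coeff j).coeff (s j)) hE.eq
      simp only [Polynomial.finsetSum_coeff] at h1
      rw [Finset.sum_eq_single j] at h1
      · rw [Polynomial.coeff_C_mul, Polynomial.coeff_X_pow, if_pos rfl, mul_one,
          Polynomial.coeff_C_mul, Polynomial.coeff_X_pow, if_pos rfl, mul_one] at h1
        apply hgc j hj
        rw [← h1]
        unfold PB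
        rw [Polynomial.finsetSum_coeff, Polynomial.finsetSum_coeff]
        refine Finset.sum_eq_zero fun t ht => ?_
        rw [Polynomial.coeff_C_mul, Polynomial.coeff_X_add_C_pow]
        by_cases hjt : j ≤ t 0
        · refine Polynomial.coeff_eq_zero_of_natDegree_lt ?_
          refine lt_of_le_of_lt Polynomial.natDegree_mul_le ?_
          have e1 : (Polynomial.C (coeff t f) * Polynomial.X ^ (t 2 + v * (M - t 0)) :
              Polynomial ℂ).natDegree ≤ t 2 + v * (M - t 0) :=
            Polynomial.natDegree_C_mul_X_pow_le _ _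
          have e2 : (B ^ (t 0 - j) * ((t 0).choose j : Polynomial ℂ)).natDegree ≤
              (t 0 - j) * (v + 1) := by
            refine Polynomial.natDegree_mul_le.trans ?_
            rw [Polynomial.natDegree_natCast, add_zero]
            refine Polynomial.natDegree_pow_le.trans ?_
            refine Nat.mul_le_mul_left _ ?_
            have := hC.deg
            rw [hu, zero_add] at this
            exact this
          have e3 := sum_eq hf ht
          have e4 := hM t ht
          refine lt_of_le_of_lt (Nat.add_le_add e1 e2) ?_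
          obtain ⟨k, hk⟩ := Nat.exists_eq_add_of_le hjt
          obtain ⟨l, hl⟩ := Nat.exists_eq_add_of_le e4
          have e5 : M - t 0 = l := by omega
          have e5' : t 0 - j = k := by omega
          rw [e5, e5']
          rw [hu, hl, hk] at hcon
          nlinarith
        · rw [Nat.choose_eq_zero_of_lt (by omega), Nat.cast_zero, mul_zero, mul_zero,
            Polynomial.coeff_zero]
      · intro j' _ hjj
        rw [Polynomial.coeff_C_mul, Polynomial.coeff_X_pow, if_neg (Ne.symm hjj), mul_zero,
          Polynomial.coeff_zero]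
      · intro h
        exact (h hj).elim
    · have hBn := hC.high.resolve_left hu
      set n := u + v + 1 with hn
      have hlam : (n : ℚ) - (lam + v) ≠ 0 := by
        intro h
        have h1 : (n : ℚ) = lam + v := by linarith
        refine hBn (hC.norm (fun h0 => ?_) n h1)
        rw [h0, zero_add, hn] at h1
        have h2 : u + v + 1 = v := by exact_mod_cast h1
        omega
      obtain ⟨j0, hj0, hmax⟩ := g.support.exists_max_image (fun j => s j + n * j) hg
      have hne : ∀ j ∈ g.support, j ≠ j0 → s j + n * j < s j0 + n * j0 := by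
        intro j hj hjj
        refine lt_of_le_of_ne (hmax j hj) fun h => hjj ?_
        have e1 := hE.exp j hj
        have e2 := hE.exp j0 hj0
        have h' : (s j : ℚ) + n * j = s j0 + n * j0 := by exact_mod_cast h
        rw [e1, e2] at h'
        have e3 : ((j : ℚ) - j0) * (n - (lam + v)) = 0 := by linear_combination h'
        have e4 := (mul_eq_zero.1 e3).resolve_right hlam
        exact_mod_cast sub_eq_zero.1 e4
      suffices h : s j0 + n * j0 ≤ d + v * M from fun j hj => (hmax j hj).trans h
      by_contra hcon
      have h1 := eval_PB f v M B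
      rw [eval_Ex hE] at h1
      have h2 := congrArg (fun p : Polynomial ℂ => p.coeff (s j0 + n * j0)) h1
      simp only [Polynomial.finsetSum_coeff] at h2
      rw [Finset.sum_eq_single j0, Finset.sum_eq_zero] at h2
      · rw [Polynomial.coeff_C_mul, Polynomial.coeff_X_pow_mul', if_pos (by omega),
          Nat.add_sub_cancel_left, mul_comm n j0, Polynomial.coeff_pow_of_natDegree_le
            (by rw [Polynomial.natDegree_neg]; exact hC.deg), Polynomial.coeff_neg] at h2
        exact mul_ne_zero (hgc j0 hj0) (pow_ne_zero _ (neg_ne_zero.2 hBn)) h2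
      · intro t ht
        have e1 := sum_eq hf (Finset.mem_filter.1 ht).1
        rw [Polynomial.coeff_C_mul, Polynomial.coeff_X_pow, if_neg (by omega), mul_zero]
      · intro j hj hjj
        have e1 := hne j hj hjj
        rw [Polynomial.coeff_C_mul, Polynomial.coeff_X_pow_mul']
        split_ifs with h3
        · have e2 : ((-B) ^ j).natDegree ≤ j * n := by
            refine Polynomial.natDegree_pow_le.trans ?_
            rw [Polynomial.natDegree_neg]
            exact Nat.mul_le_mul_left j hC.deg
          have e3 : ((-B) ^ j).coeff (s j0 + n * j0 - s j) = 0 := by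
            apply Polynomial.coeff_eq_zero_of_natDegree_lt
            rw [mul_comm] at e2
            omega
          rw [e3, mul_zero]
        · rw [mul_zero]
      · intro h
        exact (h hj0).elim

end MPb07157.SH
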