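import Pool.Agent.Lib.MP_b07157_agSH.Defs

/-!
# Shear-symmetric forms: `f` is a polynomial in `x`, `y`, `W`
-/

noncomputable section

namespace MPb07157.SH

open MvPolynomial

namespace A4

/-- The restriction to `x = 1`, `y = t`. -/
def rs : MvPolynomial (Fin 3) ℂ →ₐ[ℂ] Polynomial (Polynomial ℂ) :=
  aeval ![Polynomial.X, 1, Polynomial.C Polynomial.X]

theorem rs_X0 : rs (X 0) = Polynomial.X := by
  unfold rs
  rw [aeval_X]
  rfl

theorem rs_X1 : rs (X 1) = 1 := by
  unfold rs
  rw [aeval_X]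
  rfl

theorem rs_X2 : rs (X 2) = Polynomial.C Polynomial.X := by
  unfold rs
  rw [aeval_X]
  rfl

theorem rs_C (c : ℂ) : rs (C c) = Polynomial.C (Polynomial.C c) := by
  rw [← algebraMap_eq, AlgHom.commutes]
  rfl

theorem rs_monomial (s : Fin 3 →₀ ℕ) (c : ℂ) :
    rs (monomial s c) = Polynomial.C (Polynomial.C c * Polynomial.X ^ s 2) *
      Polynomial.X ^ s 0 := by
  rw [monomial_eq, Finsupp.prod_fintype _ _ (fun _ => pow_zero _), Fin.prod_univ_three, map_mul,
    map_mul, map_mul, map_pow, map_pow, map_pow, rs_C, rs_X0, rs_X1, rs_X2, one_pow, mul_one,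
    Polynomial.C_mul, Polynomial.C_pow]
  ring

theorem rs_eq (f : MvPolynomial (Fin 3) ℂ) :
    rs f = ∑ s ∈ f.support, Polynomial.C (Polynomial.C (coeff s f) * Polynomial.X ^ s 2) *
      Polynomial.X ^ s 0 := by
  conv_lhs => rw [← support_sum_monomial_coeff f, map_sum]
  refine Finset.sum_congr rfl fun s _ => ?_
  rw [rs_monomial]

theorem sum_eq {f : MvPolynomial (Fin 3) ℂ} {d : ℕ} (hf : f.IsHomogeneous d) {s : Fin 3 →₀ ℕ}
    (hs : s ∈ f.support) : s 0 + s 1 + s 2 = d := by
  have h1 := hf (mem_support_iff.1 hs)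
  rw [Finsupp.weight_apply, Finsupp.sum_fintype _ _ (fun i => by simp), Fin.sum_univ_three] at h1
  simpa using h1

/-- The restriction is injective on forms. -/
theorem eq_zero_of_rs {f : MvPolynomial (Fin 3) ℂ} {d : ℕ} (hf : f.IsHomogeneous d)
    (h : rs f = 0) : f = 0 := by
  classical
  by_contra hne
  obtain ⟨s, hs⟩ := support_nonempty.2 hne
  have h1 := congrArg (fun p : Polynomial (Polynomial ℂ) => (p.coeff (s 0)).coeff (s 2)) h
  simp only [Polynomial.coeff_zero] at h1
  rw [rs_eq, Polynomial.finsetSum_coeff, Polynomial.finsetSum_coeff, Finset.sum_eq_single s] at h1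
  · rw [Polynomial.coeff_C_mul, Polynomial.coeff_X_pow, if_pos rfl, mul_one,
      Polynomial.coeff_C_mul, Polynomial.coeff_X_pow, if_pos rfl, mul_one] at h1
    exact mem_support_iff.1 hs h1
  · intro s' hs' hne'
    rw [Polynomial.coeff_C_mul, Polynomial.coeff_X_pow]
    split_ifs with h0
    · rw [mul_one, Polynomial.coeff_C_mul, Polynomial.coeff_X_pow, if_neg, mul_zero]
      intro h2
      apply hne'
      have e1 := sum_eq hf hs
      have e2 := sum_eq hf hs'
      ext i
      fin_cases i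
      · exact h0.symm
      · show s' 1 = s 1
        omega
      · exact h2.symm
    · rw [mul_zero, Polynomial.coeff_zero]
  · intro h2
    exact (h2 hs).elim

theorem Bh_isHomogeneous (b : Polynomial ℂ) (N : ℕ) : (SHR.Bh b N).IsHomogeneous N := by
  unfold SHR.Bh
  refine IsHomogeneous.sum _ _ _ fun i hi => ?_
  have hi' := Finset.mem_range.1 hi
  have h1 := ((isHomogeneous_C (Fin 3) (b.coeff i)).mul
    ((isHomogeneous_X ℂ (1 : Fin 3)).pow (N - i))).mul ((isHomogeneous_X ℂ (2 : Fin 3)).pow i)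
  convert h1 using 1
  omega

theorem wS_isHomogeneous (u v : ℕ) (b : Polynomial ℂ) :
    (SHR.wS u v b).IsHomogeneous (u + v + 1) := by
  unfold SHR.wS
  refine IsHomogeneous.sub ?_ (Bh_isHomogeneous b _)
  have h1 := (((isHomogeneous_X ℂ (1 : Fin 3)).pow u).mul
    ((isHomogeneous_X ℂ (2 : Fin 3)).pow v)).mul (isHomogeneous_X ℂ (0 : Fin 3))
  rwa [one_mul, one_mul] at h1

theorem rs_Bh {b : Polynomial ℂ} {N : ℕ} (h : b.natDegree ≤ N) :
    rs (SHR.Bh b N) = Polynomial.C b := by
  unfold SHR.Bh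
  conv_rhs => rw [b.as_sum_range' (N + 1) (by omega)]
  rw [map_sum, map_sum]
  refine Finset.sum_congr rfl fun i _ => ?_
  rw [map_mul, map_mul, map_pow, map_pow, rs_C, rs_X1, rs_X2, one_pow, mul_one,
    ← Polynomial.C_mul_X_pow_eq_monomial, Polynomial.C_mul, Polynomial.C_pow]

theorem rs_wS {u v : ℕ} {b : Polynomial ℂ} (h : b.natDegree ≤ u + v + 1) :
    rs (SHR.wS u v b) = Polynomial.C (Polynomial.X ^ v) * Polynomial.X - Polynomial.C b := by
  unfold SHR.wS
  rw [map_sub, map_mul, map_mul, map_pow, map_pow, rs_X0, rs_X1, rs_X2, rs_Bh h, one_pow, one_mul,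
    Polynomial.C_pow]

end A4

open A4

theorem eq_Ps {f : MvPolynomial (Fin 3) ℂ} {d : ℕ} (hf : f.IsHomogeneous d) {M : ℕ}
    (hM : ∀ s ∈ f.support, s 0 ≤ M) {u v : ℕ} {B : Polynomial ℂ}
    (hB : B.natDegree ≤ u + v + 1) {lam : ℚ} {c0 : ℂ} {a : ℕ} {g : Polynomial ℂ} {s : ℕ → ℕ}
    (hE : Ex (PB f v M B) c0 a M v lam g s) (hN : Nn d M u v g s) :
    f = aeval ![SHR.wS u v B, X 1, X 2] (Ps c0 d M u v g s) := by
  have hP : aeval ![SHR.wS u v B, X 1, X 2] (Ps c0 d M u v g s) =
      ∑ j ∈ g.support, C (c0 * g.coeff j) * SHR.wS u v B ^ j *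
        X 1 ^ (d + v * M - s j - (u + v + 1) * j) * X 2 ^ (s j - v * M) := by
    unfold Ps
    rw [map_sum]
    refine Finset.sum_congr rfl fun j _ => ?_
    rw [map_mul, map_mul, map_mul, map_pow, map_pow, map_pow, aeval_X, aeval_X, aeval_X, aeval_C]
    rfl
  have hhom : (aeval ![SHR.wS u v B, X 1, X 2] (Ps c0 d M u v g s) :
      MvPolynomial (Fin 3) ℂ).IsHomogeneous d := by
    rw [hP]
    refine IsHomogeneous.sum _ _ _ fun j hj => ?_
    have h1 := (((isHomogeneous_C (Fin 3) (c0 * g.coeff j)).mul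
      ((wS_isHomogeneous u v B).pow j)).mul
      ((isHomogeneous_X ℂ (1 : Fin 3)).pow (d + v * M - s j - (u + v + 1) * j))).mul
      ((isHomogeneous_X ℂ (2 : Fin 3)).pow (s j - v * M))
    convert h1 using 1
    have e1 := hN.y j hj
    have e2 := hN.x j hj
    omega
  rw [← sub_eq_zero]
  refine eq_zero_of_rs (hf.sub hhom) ?_
  rw [map_sub, sub_eq_zero]
  have hX : (Polynomial.C (Polynomial.X ^ (v * M)) : Polynomial (Polynomial ℂ)) ≠ 0 := by
    rw [Ne, Polynomial.C_eq_zero]
    exact pow_ne_zero _ Polynomial.X_ne_zero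
  apply mul_left_cancel₀ hX
  have h1 : Polynomial.C (Polynomial.X ^ (v * M)) * rs f =
      (PB f v M B).comp (Polynomial.C (Polynomial.X ^ v) * Polynomial.X - Polynomial.C B) := by
    unfold PB
    rw [rs_eq, Finset.mul_sum, Polynomial.sum_comp]
    refine Finset.sum_congr rfl fun t ht => ?_
    rw [Polynomial.mul_comp, Polynomial.C_comp, Polynomial.pow_comp, Polynomial.add_comp,
      Polynomial.X_comp, Polynomial.C_comp, sub_add_cancel, mul_pow, ← Polynomial.C_pow,
      ← mul_assoc, ← mul_assoc, ← Polynomial.C_mul, ← Polynomial.C_mul]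
    congr 2
    have e1 := hM t ht
    obtain ⟨k, rfl⟩ := Nat.exists_eq_add_of_le e1
    rw [Nat.add_sub_cancel_left]
    ring
  have h2 : Polynomial.C (Polynomial.X ^ (v * M)) *
      rs (aeval ![SHR.wS u v B, X 1, X 2] (Ps c0 d M u v g s)) =
      (PB f v M B).comp (Polynomial.C (Polynomial.X ^ v) * Polynomial.X - Polynomial.C B) := by
    rw [hE.eq, hP, map_sum, Finset.mul_sum, Polynomial.sum_comp]
    refine Finset.sum_congr rfl fun j hj => ?_
    have e0 : rs (C (c0 * g.coeff j) * SHR.wS u v B ^ j *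
        X 1 ^ (d + v * M - s j - (u + v + 1) * j) * X 2 ^ (s j - v * M)) =
        Polynomial.C (Polynomial.C (c0 * g.coeff j)) *
          (Polynomial.C (Polynomial.X ^ v) * Polynomial.X - Polynomial.C B) ^ j *
          Polynomial.C Polynomial.X ^ (s j - v * M) := by
      rw [map_mul, map_mul, map_mul, map_pow, map_pow, map_pow, rs_C, rs_X1, rs_X2, rs_wS hB,
        one_pow, mul_one]
    rw [e0, Polynomial.mul_comp, Polynomial.C_comp, Polynomial.X_pow_comp]
    have e1 := hN.y j hj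
    obtain ⟨k, hk⟩ := Nat.exists_eq_add_of_le e1
    rw [hk, Nat.add_sub_cancel_left, pow_add]
    simp only [Polynomial.C_mul, Polynomial.C_pow]
    ring
  rw [h1, h2]

end MPb07157.SH
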