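import Pool.Agent.Lib.MP_b07157_agSH.Defs
import Pool.Agent.Lib.MP_b07157_agQ.Line

/-!
# Shear-symmetric forms: the factorization
-/

noncomputable section

namespace MPb07157.SH

open MvPolynomial

/-- The decomposition `g = X^(m0) p(X^e)` and the exponents. -/
theorem exists_shape {a M v : ℕ} {lam : ℚ} {c0 : ℂ} {g : Polynomial ℂ} {s : ℕ → ℕ}
    {P : Polynomial (Polynomial ℂ)} (hE : Ex P c0 a M v lam g s) :
    ∃ (e m0 K : ℕ) (L : ℤ) (p : Polynomial ℂ), 0 < e ∧ (L : ℚ) = e * (lam + v) ∧
      M = m0 + e * K ∧ p.natDegree = K ∧ p.leadingCoeff = 1 ∧ p.coeff 0 ≠ 0 ∧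
      m0 ∈ g.support ∧ M ∈ g.support ∧
      (∀ l, p.coeff l = if l ≤ K then g.coeff (m0 + e * l) else 0) ∧
      (∀ j ∈ g.support, ∃ l ≤ K, j = m0 + e * l ∧ (s j : ℤ) = a + ((K : ℤ) - l) * L) := by
  have hg0 : g ≠ 0 := hE.mon.ne_zero
  have hM : M ∈ g.support := by
    rw [Polynomial.mem_support_iff, ← hE.deg]
    exact Polynomial.leadingCoeff_ne_zero.2 hg0
  have hlam : (lam.num : ℚ) = lam * lam.den := by
    rw [Rat.mul_den_eq_num]
  have hL : ((lam.num + lam.den * v : ℤ) : ℚ) = lam.den * (lam + v) := by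
    push_cast
    rw [hlam]
    ring
  have hdvd : ∀ j ∈ g.support, (lam.den : ℤ) ∣ (M : ℤ) - j := by
    intro j hj
    have h1 := hE.exp j hj
    have h2 : ((M : ℤ) - j) * lam.num = lam.den * ((s j : ℤ) - a - ((M : ℤ) - j) * v) := by
      have h3 : (((M : ℤ) - j) * lam.num : ℚ) =
          lam.den * (((s j : ℤ) : ℚ) - a - ((M : ℤ) - j) * v) := by
        push_cast
        rw [h1, hlam]
        ring
      exact_mod_cast h3
    have h4 : IsCoprime (lam.den : ℤ) lam.num := by
      have := lam.reduced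
      exact (Int.isCoprime_iff_nat_coprime.2 (by simpa using this)).symm
    exact h4.dvd_of_dvd_mul_right (Dvd.intro _ h2.symm)
  obtain ⟨m0, hm0⟩ : ∃ m0, m0 = g.natTrailingDegree := ⟨_, rfl⟩
  have hm0g : m0 ∈ g.support := by
    rw [hm0]
    exact Polynomial.natTrailingDegree_mem_support_of_nonzero hg0
  have hmin : ∀ j ∈ g.support, m0 ≤ j := by
    intro j hj
    rw [hm0]
    exact Polynomial.natTrailingDegree_le_of_mem_supp j hj
  have hmax : ∀ j ∈ g.support, j ≤ M := by
    intro j hj
    rw [← hE.deg]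
    exact Polynomial.le_natDegree_of_mem_supp j hj
  have hden : 0 < lam.den := lam.den_pos
  obtain ⟨K, hK⟩ : ∃ K : ℕ, M = m0 + lam.den * K := by
    obtain ⟨t, ht⟩ := hdvd m0 hm0g
    have h1 := hmax m0 hm0g
    have h2 : (0 : ℤ) ≤ t := by
      by_contra h3
      push Not at h3
      have h4 : (0 : ℤ) < lam.den := by exact_mod_cast hden
      have : (lam.den : ℤ) * t < 0 := by nlinarith
      omega
    obtain ⟨k, hk⟩ := Int.eq_ofNat_of_zero_le h2
    refine ⟨k, ?_⟩
    rw [hk] at ht
    have : (M : ℤ) = m0 + lam.den * k := by linarith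
    exact_mod_cast this
  obtain ⟨p, hp⟩ : ∃ p : Polynomial ℂ, p = ∑ l ∈ Finset.range (K + 1),
    Polynomial.monomial l (g.coeff (m0 + lam.den * l)) := ⟨_, rfl⟩
  have hpc : ∀ l, p.coeff l = if l ≤ K then g.coeff (m0 + lam.den * l) else 0 := by
    intro l
    rw [hp, Polynomial.finsetSum_coeff]
    simp only [Polynomial.coeff_monomial]
    rw [Finset.sum_ite_eq']
    simp only [Finset.mem_range, Nat.lt_succ_iff]
  have hpK : p.coeff K = 1 := by
    rw [hpc, if_pos le_rfl, ← hK, ← hE.deg]
    exact hE.mon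
  have hdeg : p.natDegree = K := by
    apply le_antisymm
    · rw [hp]
      refine Polynomial.natDegree_sum_le_of_forall_le _ _ fun k hk => ?_
      refine (Polynomial.natDegree_monomial_le _).trans ?_
      have := Finset.mem_range.1 hk
      omega
    · apply Polynomial.le_natDegree_of_ne_zero
      rw [hpK]
      exact one_ne_zero
  refine ⟨lam.den, m0, K, lam.num + lam.den * v, p, hden, hL, hK, hdeg, ?_, ?_, hm0g, hM, hpc, ?_⟩
  · rw [Polynomial.leadingCoeff, hdeg, hpK]
  · rw [hpc, if_pos (Nat.zero_le _), mul_zero, add_zero]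
    exact Polynomial.mem_support_iff.1 hm0g
  · intro j hj
    obtain ⟨t, ht⟩ := hdvd j hj
    have h1 := hmax j hj
    have h0 := hmin j hj
    have h4 : (0 : ℤ) < lam.den := by exact_mod_cast hden
    have hK' : (M : ℤ) = m0 + lam.den * K := by exact_mod_cast hK
    have h2 : (0 : ℤ) ≤ t := by
      by_contra h3
      push Not at h3
      have : (lam.den : ℤ) * t < 0 := by nlinarith
      omega
    have h3 : t ≤ K := by
      by_contra h3
      push Not at h3
      have : (lam.den : ℤ) * K < lam.den * t := by nlinarith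
      omega
    obtain ⟨k, hk⟩ := Int.eq_ofNat_of_zero_le h2
    have hkK : k ≤ K := by omega
    refine ⟨K - k, by omega, ?_, ?_⟩
    · have h5 : (j : ℤ) = m0 + lam.den * ((K - k : ℕ) : ℤ) := by
        have h6 : ((K - k : ℕ) : ℤ) = (K : ℤ) - k := by omega
        rw [h6]
        rw [hk] at ht
        linear_combination hK' - ht
      exact_mod_cast h5
    · have h6 : ((K - k : ℕ) : ℤ) = (K : ℤ) - k := by omega
      rw [h6]
      have h7 := hE.exp j hj
      have h8 : ((M : ℚ) - j) = lam.den * k := by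
        rw [hk] at ht
        have : ((M : ℤ) : ℚ) - ((j : ℤ) : ℚ) = lam.den * k := by exact_mod_cast ht
        exact_mod_cast this
      rw [h8] at h7
      have h9 : ((s j : ℤ) : ℚ) = (((a : ℤ) + ((K : ℤ) - ((K : ℤ) - k)) *
          (lam.num + lam.den * v) : ℤ) : ℚ) := by
        push_cast
        rw [h7, hlam]
        ring
      exact_mod_cast h9

/-- The product over the roots. -/
theorem prod_roots {N : ℕ} (p : Polynomial ℂ) (hp : p.leadingCoeff = 1)
    (U V : MvPolynomial (Fin N) ℂ) :
    ∏ z ∈ p.roots.toFinset, (U - C z * V) ^ p.rootMultiplicity z =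
      ∑ l ∈ Finset.range (p.natDegree + 1), C (p.coeff l) * U ^ l * V ^ (p.natDegree - l) := by
  have h1 := congrArg (aeval ![U, V]) (Line.homogenize_eq_prod p)
  rw [hp, map_mul, map_prod, aeval_C, map_one, one_mul] at h1
  have h2 : ∏ z ∈ p.roots.toFinset, (U - C z * V) ^ p.rootMultiplicity z =
      ∏ z ∈ p.roots.toFinset, aeval ![U, V]
        ((X 0 - C z * X 1 : MvPolynomial (Fin 2) ℂ) ^ p.rootMultiplicity z) := by
    refine Finset.prod_congr rfl fun z _ => ?_
    rw [map_pow, map_sub, map_mul, aeval_X, aeval_X, aeval_C, algebraMap_eq]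
    simp only [Matrix.cons_val_zero, Matrix.cons_val_one]
  rw [h2, ← h1]
  unfold Polynomial.homogenize
  rw [map_sum, Finset.Nat.sum_antidiagonal_eq_sum_range_succ_mk]
  refine Finset.sum_congr rfl fun k _ => ?_
  rw [aeval_monomial, Finsupp.prod_fintype _ _ (fun _ => pow_zero _), Fin.prod_univ_two]
  simp only [Matrix.cons_val_zero, Matrix.cons_val_one]
  have h2 : (Finsupp.single (0 : Fin 2) k).update 1 (p.natDegree - k) 0 = k := by simp
  have h3 : (Finsupp.single (0 : Fin 2) k).update 1 (p.natDegree - k) 1 = p.natDegree - k := by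
    simp
  rw [h2, h3, MvPolynomial.algebraMap_eq]
  ring

theorem exists_Dat {ι : Type} [Fintype ι] {c : ι → TL.L0} {γ : ι → ℂ}
    {f : MvPolynomial (Fin 3) ℂ} {d M u v a : ℕ} {B : Polynomial ℂ} {lam : ℚ} {c0 : ℂ}
    {g : Polynomial ℂ} {s : ℕ → ℕ} {P : Polynomial (Polynomial ℂ)}
    (h : f = aeval ![SHR.wS u v B, X 1, X 2] (Ps c0 d M u v g s))
    (hE : Ex P c0 a M v lam g s) (hN : Nn d M u v g s) (hC : Cen c lam u v B γ)
    (hc0 : c0 ≠ 0) :
    ∃ D : SHR.Dat, D.u = u ∧ D.v = v ∧ f = D.F B ∧ D.m0 + D.e * ∑ z ∈ D.T, D.m z = M ∧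
      ∀ i, i ≠ v → B.coeff i ≠ 0 → D.k2y + D.e * i ≠ D.k3y := by
  classical
  obtain ⟨e, m0, K, L, p, he, hL, hM, hdeg, hlc, hp0, hm0g, hMg, hpc, hex⟩ := exists_shape hE
  have hpne : p ≠ 0 := by
    intro h1
    rw [h1, Polynomial.coeff_zero] at hp0
    exact hp0 rfl
  -- the exponents
  obtain ⟨k2x, hk2x⟩ : ∃ k : ℕ, k = (L - e * (u + v + 1)).toNat := ⟨_, rfl⟩
  obtain ⟨k3x, hk3x⟩ : ∃ k : ℕ, k = (e * (u + v + 1) - L).toNat := ⟨_, rfl⟩
  obtain ⟨k2y, hk2y⟩ : ∃ k : ℕ, k = (-L).toNat := ⟨_, rfl⟩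
  obtain ⟨k3y, hk3y⟩ : ∃ k : ℕ, k = L.toNat := ⟨_, rfl⟩
  have hx : (k2x : ℤ) - k3x = L - e * (u + v + 1) := by omega
  have hy : (k2y : ℤ) - k3y = -L := by omega
  have hdegD : k2x + k2y + e * (u + v + 1) = k3x + k3y := by
    have h1 : (k2x : ℤ) + k2y + e * (u + v + 1) = k3x + k3y := by linarith
    exact_mod_cast h1
  have hMz : (M : ℤ) = m0 + e * K := by exact_mod_cast hM
  -- the exponents of the first and the last monomial
  have hsM : (s M : ℤ) = a := by
    obtain ⟨l, hl, h1, h2⟩ := hex M hMg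
    have h3 : l = K := by
      rw [hM] at h1
      have h4 : e * K = e * l := by omega
      exact (Nat.eq_of_mul_eq_mul_left he h4).symm
    rw [h2, h3, sub_self, zero_mul, add_zero]
  have hs0 : (s m0 : ℤ) = a + K * L := by
    obtain ⟨l, hl, h1, h2⟩ := hex m0 hm0g
    have h3 : l = 0 := by
      have h4 : e * l = 0 := by omega
      rcases Nat.mul_eq_zero.1 h4 with h5 | h5
      · omega
      · exact h5
    rw [h2, h3, Nat.cast_zero, sub_zero]
  have hyM : (v : ℤ) * M ≤ s M := by exact_mod_cast hN.y M hMg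
  have hy0 : (v : ℤ) * M ≤ s m0 := by exact_mod_cast hN.y m0 hm0g
  have hxM : (s M : ℤ) + (u + v + 1) * M ≤ d + v * M := by exact_mod_cast hN.x M hMg
  have hx0 : (s m0 : ℤ) + (u + v + 1) * m0 ≤ d + v * M := by exact_mod_cast hN.x m0 hm0g
  obtain ⟨a2, ha2⟩ : ∃ a2 : ℕ, (a2 : ℤ) = a - v * M - K * k2y := by
    refine ⟨(a - v * M - K * k2y : ℤ).toNat, Int.toNat_of_nonneg ?_⟩
    rcases le_or_gt 0 L with h1 | h1
    · have h2 : (k2y : ℤ) = 0 := by omega
      rw [h2, mul_zero]
      linarith
    · have h2 : (k2y : ℤ) = -L := by omega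
      rw [h2]
      linarith
  obtain ⟨a1, ha1⟩ : ∃ a1 : ℕ, (a1 : ℤ) = d + v * M - a - K * L - (u + v + 1) * m0 - K * k3x := by
    refine ⟨(d + v * M - a - K * L - (u + v + 1) * m0 - K * k3x : ℤ).toNat,
      Int.toNat_of_nonneg ?_⟩
    rcases le_or_gt ((e : ℤ) * (u + v + 1)) L with h1 | h1
    · have h2 : (k3x : ℤ) = 0 := by omega
      rw [h2, mul_zero]
      linarith
    · have h2 : (k3x : ℤ) = e * (u + v + 1) - L := by omega
      rw [h2]
      rw [hsM] at hxM
      have h3 : ((u : ℤ) + v + 1) * M = (u + v + 1) * m0 + K * (e * (u + v + 1)) := by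
        rw [hMz]
        ring
      linarith
  let D : SHR.Dat :=
    { c := c0
      a1 := a1
      a2 := a2
      m0 := m0
      u := u
      v := v
      e := e
      k2x := k2x
      k2y := k2y
      k3x := k3x
      k3y := k3y
      T := p.roots.toFinset
      m := fun z => p.rootMultiplicity z
      hc := hc0
      he := he
      hT := by
        intro h1
        have h2 := Polynomial.isRoot_of_mem_roots (Multiset.mem_toFinset.1 h1)
        rw [Polynomial.IsRoot, ← Polynomial.coeff_zero_eq_eval_zero] at h2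
        exact hp0 h2
      hm := by
        intro z hz
        rw [Polynomial.rootMultiplicity_pos hpne]
        exact Polynomial.isRoot_of_mem_roots (Multiset.mem_toFinset.1 hz)
      hdeg := hdegD }
  refine ⟨D, rfl, rfl, ?_, ?_, ?_⟩
  · -- the form
    have hF : D.F B = C c0 * (X 1 ^ a1 * X 2 ^ a2) * SHR.wS u v B ^ m0 *
        ∏ z ∈ p.roots.toFinset, (X 1 ^ k2x * X 2 ^ k2y * SHR.wS u v B ^ e -
          C z * (X 1 ^ k3x * X 2 ^ k3y)) ^ p.rootMultiplicity z := rfl
    rw [hF, prod_roots p hlc, hdeg, h]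
    generalize SHR.wS u v B = w
    have h1 : aeval ![w, X 1, X 2] (Ps c0 d M u v g s) =
        ∑ j ∈ g.support, C (c0 * g.coeff j) * w ^ j *
          X 1 ^ (d + v * M - s j - (u + v + 1) * j) * X 2 ^ (s j - v * M) := by
      unfold Ps
      rw [map_sum]
      refine Finset.sum_congr rfl fun j _ => ?_
      rw [map_mul, map_mul, map_mul, map_pow, map_pow, map_pow, aeval_X, aeval_X, aeval_X,
        aeval_C, algebraMap_eq]
      rfl
    rw [h1]
    -- reindex
    have h2 : ∑ j ∈ g.support, C (c0 * g.coeff j) * w ^ j *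
          X 1 ^ (d + v * M - s j - (u + v + 1) * j) * X 2 ^ (s j - v * M) =
        ∑ l ∈ (Finset.range (K + 1)).filter (fun l => g.coeff (m0 + e * l) ≠ 0),
          C (c0 * g.coeff (m0 + e * l)) * w ^ (m0 + e * l) *
          X 1 ^ (d + v * M - s (m0 + e * l) - (u + v + 1) * (m0 + e * l)) *
          X 2 ^ (s (m0 + e * l) - v * M) := by
      symm
      refine Finset.sum_bij (fun l _ => m0 + e * l) ?_ ?_ ?_ ?_
      · intro l hl
        rw [Finset.mem_filter] at hl
        exact Polynomial.mem_support_iff.2 hl.2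
      · intro l _ l' _ hll
        have h3 : e * l = e * l' := by
          have : m0 + e * l = m0 + e * l' := hll
          omega
        exact Nat.eq_of_mul_eq_mul_left he h3
      · intro j hj
        obtain ⟨l, hl, h3, _⟩ := hex j hj
        refine ⟨l, ?_, h3.symm⟩
        rw [Finset.mem_filter, Finset.mem_range]
        refine ⟨by omega, ?_⟩
        rw [← h3]
        exact Polynomial.mem_support_iff.1 hj
      · intro l _
        rfl
    rw [h2, Finset.sum_filter, Finset.mul_sum]
    refine Finset.sum_congr rfl fun l hl => ?_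
    have hlK : l ≤ K := by
      have := Finset.mem_range.1 hl
      omega
    rw [hpc l, if_pos hlK]
    by_cases hgl : g.coeff (m0 + e * l) = 0
    · rw [if_neg (not_not.2 hgl), hgl, C_0, zero_mul, zero_mul, mul_zero]
    · rw [if_pos hgl]
      have hj : m0 + e * l ∈ g.support := Polynomial.mem_support_iff.2 hgl
      obtain ⟨l', hl', h3, h4⟩ := hex _ hj
      have hll : l' = l := by
        have h5 : e * l' = e * l := by omega
        exact Nat.eq_of_mul_eq_mul_left he h5
      rw [hll] at h4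
      have hyj : (v : ℤ) * M ≤ s (m0 + e * l) := by exact_mod_cast hN.y _ hj
      have hxj : (s (m0 + e * l) : ℤ) + (u + v + 1) * ((m0 + e * l : ℕ) : ℤ) ≤ d + v * M := by
        exact_mod_cast hN.x _ hj
      have hKl : ((K - l : ℕ) : ℤ) = (K : ℤ) - l := by omega
      have hex1 : d + v * M - s (m0 + e * l) - (u + v + 1) * (m0 + e * l) =
          a1 + k2x * l + k3x * (K - l) := by
        have h5 : ((d + v * M - s (m0 + e * l) - (u + v + 1) * (m0 + e * l) : ℕ) : ℤ) =
            d + v * M - s (m0 + e * l) - (u + v + 1) * ((m0 + e * l : ℕ) : ℤ) := by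
          have hle := hN.x _ hj
          rw [Nat.sub_sub, Nat.cast_sub hle]
          push_cast
          ring
        have h6 : ((d + v * M - s (m0 + e * l) - (u + v + 1) * (m0 + e * l) : ℕ) : ℤ) =
            ((a1 + k2x * l + k3x * (K - l) : ℕ) : ℤ) := by
          rw [h5, h4]
          push_cast
          rw [hKl, ha1]
          linear_combination (-(l : ℤ)) * hx
        exact_mod_cast h6
      have hex2 : s (m0 + e * l) - v * M = a2 + k2y * l + k3y * (K - l) := by
        have h5 : ((s (m0 + e * l) - v * M : ℕ) : ℤ) = s (m0 + e * l) - v * M := by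
          rw [Nat.cast_sub (hN.y _ hj)]
          push_cast
          ring
        have h6 : ((s (m0 + e * l) - v * M : ℕ) : ℤ) =
            ((a2 + k2y * l + k3y * (K - l) : ℕ) : ℤ) := by
          rw [h5, h4]
          push_cast
          rw [hKl, ha2]
          linear_combination ((K : ℤ) - l) * hy
        exact_mod_cast h6
      rw [hex1, hex2, C_mul, mul_pow, mul_pow, mul_pow, ← pow_mul, ← pow_mul, ← pow_mul,
        ← pow_mul, ← pow_mul]
      ring
  · -- the degree
    show m0 + e * ∑ z ∈ p.roots.toFinset, p.rootMultiplicity z = M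
    have hs : p.roots.card = p.natDegree :=
      (IsAlgClosed.splits p).natDegree_eq_card_roots.symm
    have h2 : ∑ z ∈ p.roots.toFinset, p.rootMultiplicity z = p.natDegree := by
      rw [← hs]
      conv_rhs => rw [← Multiset.toFinset_sum_count_eq]
      refine Finset.sum_congr rfl fun z _ => ?_
      rw [Polynomial.count_roots]
    rw [h2, hdeg, hM]
  · -- no extremal exponents
    intro i hiv hi h1
    have h2 : k2y + e * i = k3y := h1
    have h3 : (e : ℤ) * i = L := by
      have : (k2y : ℤ) + e * i = k3y := by exact_mod_cast h2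
      linarith
    have h4 : (i : ℚ) = lam + v := by
      have h5 : (e : ℚ) * i = e * (lam + v) := by
        rw [← hL, ← h3]
        push_cast
        ring
      have h6 : (e : ℚ) ≠ 0 := by
        have : e ≠ 0 := he.ne'
        exact_mod_cast this
      exact mul_left_cancel₀ h6 h5
    by_cases hlam : lam = 0
    · rw [hlam, zero_add] at h4
      exact hiv (by exact_mod_cast h4)
    · exact hi (hC.norm hlam i h4)

end MPb07157.SH
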