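import Pool.Agent.Lib.MP_b07157_agSH.Ind

/-!
# The case of one binomial
-/

noncomputable section

namespace MPb07157

open MvPolynomial

namespace SH

open Line

variable {N : ℕ} {ι : Type} [DecidableEq ι]

omit [DecidableEq ι] in
/-- The core of the proof of non-degeneracy. -/
theorem core {d : ℕ} {b : ℕ → ℂ} {r : ι → ℂ} {D : Finset ι} {β1 β2 e γ1 γ2 : ℕ}
    (hB : BCond d b r D β1 β2 e γ1 γ2) {i : ι} (hi : i ∈ D) (he : e ≠ 0) {px py pw pu pv : ℂ}
    (hpx : px ≠ 0) (hpy : py ≠ 0) (hpw : pw ≠ 0) (hpu : pu ≠ 0) (hpv : pv ≠ 0) {c2 d1 : ℂ}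
    (hc2 : c2 = pv * (px ^ β1 * py ^ β2 * pw ^ e))
    (hr : px ^ β1 * py ^ β2 * pw ^ e = r i * (px ^ γ1 * py ^ γ2)) (hd1 : d1 = pu * pw)
    (hw : d1 = e * c2) {s0 s1 s2 : ℂ} (hu : d1 + s0 = 0) (hx : ((γ1 : ℂ) - β1) * c2 + s1 = 0)
    (hy : ((γ2 : ℂ) - β2) * c2 + s2 = 0)
    (hK : (s0 = pu * bv d b px py ∧ s1 = pu * bs d b px py ∧ s2 = pu * bt d b px py) ∨
      ∃ k₀ ≤ d, b k₀ ≠ 0 ∧ ((∀ l ≤ d, b l ≠ 0 → l ≤ k₀) ∨ (∀ l ≤ d, b l ≠ 0 → k₀ ≤ l)) ∧
        s0 = pu * (b k₀ * (px ^ k₀ * py ^ (d - k₀))) ∧ s1 = k₀ * s0 ∧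
        s2 = ((d - k₀ : ℕ) : ℂ) * s0) : False := by
  have hc20 : c2 ≠ 0 := by
    rw [hc2]
    exact mul_ne_zero hpv (mul_ne_zero (mul_ne_zero (pow_ne_zero _ hpx) (pow_ne_zero _ hpy))
      (pow_ne_zero _ hpw))
  have hMγ0 : px ^ γ1 * py ^ γ2 ≠ 0 := mul_ne_zero (pow_ne_zero _ hpx) (pow_ne_zero _ hpy)
  rcases hK with ⟨a1, a2, a3⟩ | ⟨k₀, hkd, hbk, hext, a1, a2, a3⟩
  · have hpw' : pw = -bv d b px py := by
      apply mul_left_cancel₀ hpu
      rw [a1] at hu
      linear_combination hu - hd1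
    obtain ⟨e', he'⟩ : ∃ e', e = e' + 1 := Nat.exists_eq_succ_of_ne_zero he
    have hpu' : pu = (e' + 1) * (pv * (px ^ β1 * py ^ β2 * pw ^ e')) := by
      apply mul_right_cancel₀ hpw
      rw [← hd1, hw, hc2, he']
      push_cast
      ring
    have hB2 := hB.h2 i hi px py hpx hpy
    rw [← hpw', he', Nat.add_sub_cancel, ← he'] at hB2
    rw [a2] at hx
    rw [a3] at hy
    refine hB2 hr ?_ ?_
    · rw [← hr]
      apply mul_left_cancel₀ hpv
      rw [hc2] at hx
      have hx' : ((γ1 : ℂ) - β1) * (pv * (px ^ β1 * py ^ β2 * pw ^ e)) +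
          ((e' + 1) * (pv * (px ^ β1 * py ^ β2 * pw ^ e'))) * bs d b px py = 0 := by
        rw [← hpu']; exact hx
      rw [he'] at hx' ⊢
      push_cast
      linear_combination -hx'
    · rw [← hr]
      apply mul_left_cancel₀ hpv
      rw [hc2] at hy
      have hy' : ((γ2 : ℂ) - β2) * (pv * (px ^ β1 * py ^ β2 * pw ^ e)) +
          ((e' + 1) * (pv * (px ^ β1 * py ^ β2 * pw ^ e'))) * bt d b px py = 0 := by
        rw [← hpu']; exact hy
      rw [he'] at hy' ⊢
      push_cast
      linear_combination -hy'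
  · have hs0 : s0 = -(e * c2) := by
      rw [← hw]
      linear_combination hu
    have hgx : γ1 = β1 + e * k₀ := by
      have h1 : ((γ1 : ℂ) - (β1 + e * k₀)) * c2 = 0 := by
        rw [a2, hs0] at hx
        linear_combination hx
      rw [mul_eq_zero, sub_eq_zero] at h1
      exact_mod_cast h1.resolve_right hc20
    have hgy : γ2 = β2 + e * (d - k₀) := by
      have h1 : ((γ2 : ℂ) - (β2 + e * ((d - k₀ : ℕ) : ℂ))) * c2 = 0 := by
        rw [a3, hs0] at hy
        linear_combination hy
      rw [mul_eq_zero, sub_eq_zero] at h1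
      exact_mod_cast h1.resolve_right hc20
    refine hB.h3 i hi k₀ hkd hbk hext hgx hgy ?_
    have hpw' : pw = -b k₀ * (px ^ k₀ * py ^ (d - k₀)) := by
      apply mul_left_cancel₀ hpu
      rw [a1] at hu
      linear_combination hu - hd1
    apply mul_right_cancel₀ hMγ0
    rw [← hr, hpw', hgx, hgy, mul_pow, mul_pow, ← pow_mul, ← pow_mul, pow_add, pow_add,
      mul_comm k₀, mul_comm (d - k₀)]
    ring

omit [DecidableEq ι] in
theorem nondeg_small_inForm {x y z w u : Fin N} {μ : Fin N →₀ ℕ} {d : ℕ} {b : ℕ → ℂ}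
    {α β γ : Fin N →₀ ℕ} {r : ι → ℂ} {D : Finset ι} {g v : ι → Fin N}
    (hV : Vars x y z w u μ α β γ (∅ : Finset ι) g v)
    (hB : BCond d b r D (β x) (β y) (β w) (γ x) (γ y)) {i : ι} (hi : i ∈ D)
    {S : Finset (Fin N →₀ ℕ)}
    (hS : S ⊆ (bin β γ (r i) + EX x y w u μ d b).support) (hS0 : S.Nonempty)
    (hK : KC x y u d b S) :
    IsNondeg (inForm (bin β γ (r i) + EX x y w u μ d b) S) := by
  classical
  intro p hp h0
  by_contra hcon
  push Not at hcon
  have e0 : E0 S p (bin β γ (r i) + EX x y w u μ d b) = 0 := h0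
  have e1 : ∀ j, E1 S p j (bin β γ (r i) + EX x y w u μ d b) = 0 := by
    intro j
    show p j * eval p (pderiv j (inForm (bin β γ (r i) + EX x y w u μ d b) S)) = 0
    rw [hcon j, mul_zero]
  unfold bin at e0 e1
  rw [map_add, map_sub, E0_monomial, E0_monomial, E0_EX, one_mul] at e0
  simp only [map_add, map_sub, E1_monomial, E1_EX, one_mul] at e1
  set c2 := chi S p β with hc2
  set c3 := r i * chi S p γ with hc3
  set d1 := chi S p (Finsupp.single u 1 + Finsupp.single w 1) with hd1
  set d2 := chi S p (Finsupp.single u 1 + μ) with hd2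
  set ek : ℕ → ℂ := fun k => b k * chi S p (Finsupp.single u 1 + bx x y d k) with hek
  have e1' : ∀ j, ((β j : ℂ) * c2 - (γ j : ℂ) * c3) +
      (((Finsupp.single u 1 + Finsupp.single w 1 : Fin N →₀ ℕ) j : ℂ) * d1 -
        ((Finsupp.single u 1 + μ : Fin N →₀ ℕ) j : ℂ) * d2 +
        ∑ k ∈ Finset.range (d + 1), ((Finsupp.single u 1 + bx x y d k : Fin N →₀ ℕ) j : ℂ) *
          ek k) = 0 := by
    intro j
    rw [← e1 j]
    congr 2
    simp only [hc3]
    ring
  have e0' : (c2 - c3) + (d1 - d2 + ∑ k ∈ Finset.range (d + 1), ek k) = 0 := e0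
  have hu : d1 - d2 + ∑ k ∈ Finset.range (d + 1), ek k = 0 := by
    have h := e1' u
    rw [hV.bu, hV.gu, Finsupp.add_apply, Finsupp.add_apply, Finsupp.single_eq_same,
      Finsupp.single_apply, if_neg hV.wu, hV.muu] at h
    have h1 : ∑ k ∈ Finset.range (d + 1),
        ((Finsupp.single u 1 + bx x y d k : Fin N →₀ ℕ) u : ℂ) * ek k =
        ∑ k ∈ Finset.range (d + 1), ek k := by
      refine Finset.sum_congr rfl fun k _ => ?_
      rw [Finsupp.add_apply, Finsupp.single_eq_same, bx_of_ne hV.xu hV.yu]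
      simp
    rw [h1] at h
    push_cast at h
    linear_combination h
  have h23 : c3 = c2 := by linear_combination hu - e0'
  have hd20 : d2 = 0 := by
    have h := e1' z
    rw [hV.bz, hV.gz, Finsupp.add_apply, Finsupp.add_apply, Finsupp.single_apply,
      if_neg hV.zu.symm, Finsupp.single_apply, if_neg hV.zw.symm, Finset.sum_eq_zero] at h
    · simp only [add_zero, Nat.cast_zero, zero_mul, zero_add, zero_sub, sub_zero, neg_eq_zero,
        mul_eq_zero, Nat.cast_eq_zero] at h
      exact h.resolve_left hV.muz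
    · intro k _
      rw [Finsupp.add_apply, Finsupp.single_apply, if_neg hV.zu.symm, bx_of_ne hV.xz hV.yz]
      simp
  have hw : d1 = - (β w * c2) := by
    have h := e1' w
    rw [hd20, mul_zero, sub_zero] at h
    have h1 : ∑ k ∈ Finset.range (d + 1),
        ((Finsupp.single u 1 + bx x y d k : Fin N →₀ ℕ) w : ℂ) * ek k = 0 := by
      refine Finset.sum_eq_zero fun k _ => ?_
      rw [Finsupp.add_apply, Finsupp.single_apply, if_neg hV.wu.symm, bx_of_ne hV.xw hV.yw]
      simp
    rw [h1, hV.gw, Finsupp.add_apply, Finsupp.single_eq_same, Finsupp.single_apply,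
      if_neg hV.wu.symm] at h
    push_cast at h
    linear_combination h
  have hxy : ∀ j, u ≠ j → w ≠ j → ((γ j : ℂ) - β j) * (-c2) +
        ∑ k ∈ Finset.range (d + 1), (bx x y d k j : ℂ) * ek k = 0 := by
    intro j h1 h2
    have h := e1' j
    rw [hd20, mul_zero, sub_zero, h23] at h
    have h5 : ∑ k ∈ Finset.range (d + 1),
        ((Finsupp.single u 1 + bx x y d k : Fin N →₀ ℕ) j : ℂ) * ek k =
        ∑ k ∈ Finset.range (d + 1), (bx x y d k j : ℂ) * ek k := by
      refine Finset.sum_congr rfl fun k _ => ?_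
      rw [Finsupp.add_apply, Finsupp.single_apply, if_neg h1, zero_add]
    rw [h5, Finsupp.add_apply, Finsupp.single_apply, Finsupp.single_apply, if_neg h1,
      if_neg h2] at h
    push_cast at h
    linear_combination h
  have hx := hxy x hV.xu.symm hV.xw.symm
  have hy := hxy y hV.yu.symm hV.yw.symm
  simp only [bx_x hV.xy] at hx
  simp only [bx_y hV.xy] at hy
  rw [hd20, sub_zero] at hu
  have hchi : ∀ q ∈ S, chi S p q = ∏ j, p j ^ q j := by
    intro q hq
    unfold chi
    rw [if_pos hq]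
  have hchi0 : ∀ q ∈ S, chi S p q ≠ 0 := by
    intro q hq
    rw [hchi q hq]
    exact Finset.prod_ne_zero_iff.2 fun j _ => pow_ne_zero _ (hp j)
  have hmem : ∀ q, chi S p q ≠ 0 → q ∈ S := by
    intro q hq
    by_contra h'
    unfold chi at hq
    rw [if_neg h'] at hq
    exact hq rfl
  have hsing : ∀ (j : Fin N) (q : Fin N →₀ ℕ),
      ∏ i, p i ^ (Finsupp.single j 1 + q : Fin N →₀ ℕ) i = p j * ∏ i, p i ^ q i := by
    intro j q
    simp only [Finsupp.add_apply, pow_add, Finset.prod_mul_distrib]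
    congr 1
    rw [Finset.prod_eq_single j]
    · rw [Finsupp.single_eq_same, pow_one]
    · intro i _ hij
      rw [Finsupp.single_apply, if_neg hij.symm, pow_zero]
    · intro h
      exact absurd (Finset.mem_univ j) h
  have hekS : ∀ k, Finsupp.single u 1 + bx x y d k ∈ S →
      ek k = p u * (b k * (p x ^ k * p y ^ (d - k))) := by
    intro k hk
    simp only [hek]
    rw [hchi _ hk, hsing, prod_bx hV.xy]
    ring
  have hekn : ∀ k, (b k ≠ 0 → Finsupp.single u 1 + bx x y d k ∉ S) → ek k = 0 := by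
    intro k hk
    simp only [hek]
    by_cases h : b k = 0
    · rw [h, zero_mul]
    · have h1 := hk h
      unfold chi
      rw [if_neg h1, mul_zero]
  have hallv : (∀ k ≤ d, b k ≠ 0 → Finsupp.single u 1 + bx x y d k ∈ S) →
      ∑ k ∈ Finset.range (d + 1), ek k = p u * bv d b (p x) (p y) ∧
      ∑ k ∈ Finset.range (d + 1), (k : ℂ) * ek k = p u * bs d b (p x) (p y) ∧
      ∑ k ∈ Finset.range (d + 1), ((d - k : ℕ) : ℂ) * ek k = p u * bt d b (p x) (p y) := by
    intro h
    have h1 : ∀ k ∈ Finset.range (d + 1), ek k = p u * (b k * (p x ^ k * p y ^ (d - k))) := by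
      intro k hk
      by_cases hb : b k = 0
      · simp only [hek]
        rw [hb]
        ring
      · exact hekS k (h k (Nat.lt_succ_iff.1 (Finset.mem_range.1 hk)) hb)
    unfold bv bs bt
    rw [Finset.mul_sum, Finset.mul_sum, Finset.mul_sum]
    refine ⟨Finset.sum_congr rfl fun k hk => ?_, Finset.sum_congr rfl fun k hk => ?_,
      Finset.sum_congr rfl fun k hk => ?_⟩
    · rw [h1 k hk]
    · rw [h1 k hk]; ring
    · rw [h1 k hk]; ring
  have hMβ : ∏ j, p j ^ β j = p x ^ β x * p y ^ β y * p w ^ β w := by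
    have h1 : ∏ j, p j ^ β j = ∏ j ∈ ({x, y, w} : Finset (Fin N)), p j ^ β j := by
      symm
      apply Finset.prod_subset (Finset.subset_univ _)
      intro j _ hj
      simp only [Finset.mem_insert, Finset.mem_singleton, not_or] at hj
      rw [hV.bo j hj.1 hj.2.1 hj.2.2, pow_zero]
    rw [h1, Finset.prod_insert, Finset.prod_insert, Finset.prod_singleton]
    · ring
    · simp only [Finset.mem_singleton]
      exact hV.yw
    · simp only [Finset.mem_insert, Finset.mem_singleton, not_or]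
      exact ⟨hV.xy, hV.xw⟩
  have hMγ : ∏ j, p j ^ γ j = p x ^ γ x * p y ^ γ y := by
    have h1 : ∏ j, p j ^ γ j = ∏ j ∈ ({x, y} : Finset (Fin N)), p j ^ γ j := by
      symm
      apply Finset.prod_subset (Finset.subset_univ _)
      intro j _ hj
      simp only [Finset.mem_insert, Finset.mem_singleton, not_or] at hj
      rw [hV.go j hj.1 hj.2, pow_zero]
    rw [h1, Finset.prod_insert, Finset.prod_singleton]
    simp only [Finset.mem_singleton]
    exact hV.xy
  by_cases hc : c2 = 0
  · rw [hc, mul_zero, neg_zero] at hw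
    rw [hc, neg_zero, mul_zero, zero_add] at hx hy
    rw [hw, zero_add] at hu
    have hek0 : ∀ k ∈ Finset.range (d + 1), ek k = 0 := by
      rcases hK with hK | ⟨k₀, hk₀, hK⟩
      · exfalso
        obtain ⟨a1, a2, a3⟩ := hallv hK
        rw [a1] at hu
        rw [a2] at hx
        rw [a3] at hy
        exact hB.h1 (p x) (p y) (hp x) (hp y) ((mul_eq_zero.1 hu).resolve_left (hp u))
          ((mul_eq_zero.1 hx).resolve_left (hp u)) ((mul_eq_zero.1 hy).resolve_left (hp u))
      · have hz0 : ∀ k ∈ Finset.range (d + 1), k ≠ k₀ → ek k = 0 := by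
          intro k hk hkk
          apply hekn
          intro hb hS'
          exact hkk (hK k (Nat.lt_succ_iff.1 (Finset.mem_range.1 hk)) hb hS')
        intro k hk
        by_cases hkk : k = k₀
        · rw [hkk] at hk ⊢
          rw [← hu, Finset.sum_eq_single k₀]
          · intro l hl hlk
            exact hz0 l hl hlk
          · intro h'
            exact absurd hk h'
        · exact hz0 k hk hkk
    obtain ⟨q, hq⟩ := hS0
    have hqs := mem_support_iff.1 (hS hq)
    apply hqs
    unfold bin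
    rw [EX_eq, coeff_add, coeff_add, coeff_sub, coeff_sub, coeff_sum]
    have t1 : coeff q (monomial (Finsupp.single u 1 + Finsupp.single w 1) (1 : ℂ)) = 0 := by
      rw [coeff_monomial, if_neg]
      rintro rfl
      exact hchi0 _ hq hw
    have t2 : coeff q (monomial (Finsupp.single u 1 + μ) (1 : ℂ)) = 0 := by
      rw [coeff_monomial, if_neg]
      rintro rfl
      exact hchi0 _ hq hd20
    have t3 : ∑ k ∈ Finset.range (d + 1),
        coeff q (monomial (Finsupp.single u 1 + bx x y d k) (b k)) = 0 := by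
      refine Finset.sum_eq_zero fun k hk => ?_
      rw [coeff_monomial]
      by_cases h : Finsupp.single u 1 + bx x y d k = q
      · rw [if_pos h]
        have h1 := hek0 k hk
        simp only [hek] at h1
        rw [h] at h1
        exact (mul_eq_zero.1 h1).resolve_right (hchi0 _ hq)
      · rw [if_neg h]
    have t4 : coeff q (monomial β (1 : ℂ)) = 0 := by
      rw [coeff_monomial, if_neg]
      rintro rfl
      exact hchi0 _ hq hc
    have t5 : coeff q (monomial γ (r i)) = 0 := by
      rw [coeff_monomial]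
      by_cases h : γ = q
      · rw [if_pos h]
        rw [hc] at h23
        simp only [hc3] at h23
        rw [h] at h23
        exact (mul_eq_zero.1 h23).resolve_right (hchi0 _ hq)
      · rw [if_neg h]
    rw [t1, t2, t3, t4, t5]
    ring
  · have hβS : β ∈ S := hmem _ hc
    have hγS : γ ∈ S := by
      apply hmem
      have h3 : c3 ≠ 0 := by rw [h23]; exact hc
      exact right_ne_zero_of_mul h3
    have hc2v : c2 = p x ^ β x * p y ^ β y * p w ^ β w := by rw [hc2, hchi _ hβS, hMβ]
    have hc3v : c3 = r i * (p x ^ γ x * p y ^ γ y) := by rw [hc3, hchi _ hγS, hMγ]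
    have hd1' : d1 ≠ 0 := by
      rw [hw, neg_ne_zero]
      exact mul_ne_zero (by exact_mod_cast hV.bw) hc
    have hd1v : d1 = p u * p w := by
      have h1 := hmem _ hd1'
      rw [hd1, hchi _ h1, hsing]
      congr 1
      rw [Finset.prod_eq_single w]
      · rw [Finsupp.single_eq_same, pow_one]
      · intro j _ hj
        rw [Finsupp.single_apply, if_neg hj.symm, pow_zero]
      · intro h
        exact absurd (Finset.mem_univ w) h
    refine core hB hi hV.bw (hp x) (hp y) (hp w) (hp u) (pv := -1) (by norm_num) (c2 := -c2)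
      (d1 := d1) (by rw [hc2v]; ring) (by rw [← hc2v, ← hc3v, h23]) hd1v (by rw [hw]; ring) hu hx
      hy ?_
    rcases hK with hK | ⟨k₀, hk₀, hK⟩
    · exact Or.inl (hallv hK)
    · right
      have hz0 : ∀ k ∈ Finset.range (d + 1), k ≠ k₀ → ek k = 0 := by
        intro k hk hkk
        apply hekn
        intro hb hS'
        exact hkk (hK k (Nat.lt_succ_iff.1 (Finset.mem_range.1 hk)) hb hS')
      have hk0r : k₀ ∈ Finset.range (d + 1) := by
        by_contra h'
        rw [Finset.sum_eq_zero fun k hk => hz0 k hk (by rintro rfl; exact h' hk), add_zero] at hu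
        exact hd1' hu
      have hsum : ∀ q : ℕ → ℂ, ∑ k ∈ Finset.range (d + 1), q k * ek k = q k₀ * ek k₀ := by
        intro q
        rw [Finset.sum_eq_single k₀]
        · intro k hk hkk
          rw [hz0 k hk hkk, mul_zero]
        · intro h'
          exact absurd hk0r h'
      have hs0 : ∑ k ∈ Finset.range (d + 1), ek k = ek k₀ := by
        have := hsum (fun _ => 1)
        simpa only [one_mul] using this
      have hek0 : ek k₀ ≠ 0 := by
        intro h'
        rw [hs0, h', add_zero] at hu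
        exact hd1' hu
      have hbk : b k₀ ≠ 0 := left_ne_zero_of_mul hek0
      have hbS : Finsupp.single u 1 + bx x y d k₀ ∈ S := hmem _ (right_ne_zero_of_mul hek0)
      refine ⟨k₀, Nat.lt_succ_iff.1 (Finset.mem_range.1 hk0r), hbk, hk₀, ?_, ?_, ?_⟩
      · rw [hs0, hekS k₀ hbS]
      · rw [hs0, hsum (fun k => (k : ℂ))]
      · rw [hs0, hsum (fun k => ((d - k : ℕ) : ℂ))]

omit [DecidableEq ι] in
theorem coeff_small_bx {x y z w u : Fin N} {μ : Fin N →₀ ℕ} {d : ℕ} {b : ℕ → ℂ}
    {α β γ : Fin N →₀ ℕ} {g v : ι → Fin N}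
    (hV : Vars x y z w u μ α β γ (∅ : Finset ι) g v) (r : ℂ) {k : ℕ} (hk : k ≤ d) :
    coeff (Finsupp.single u 1 + bx x y d k) (bin β γ r + EX x y w u μ d b) = b k := by
  classical
  have key : ∀ (q : Fin N →₀ ℕ) (c : ℂ) (j : Fin N),
      q j ≠ (Finsupp.single u 1 + bx x y d k : Fin N →₀ ℕ) j →
      coeff (Finsupp.single u 1 + bx x y d k) (monomial q c) = 0 := by
    intro q c j hj
    rw [coeff_monomial, if_neg]
    rintro rfl
    exact hj rfl
  have hu : (Finsupp.single u 1 + bx x y d k : Fin N →₀ ℕ) u = 1 := by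
    rw [Finsupp.add_apply, Finsupp.single_eq_same, bx_of_ne hV.xu hV.yu]
  have hw : (Finsupp.single u 1 + bx x y d k : Fin N →₀ ℕ) w = 0 := by
    rw [Finsupp.add_apply, Finsupp.single_apply, if_neg hV.wu.symm, bx_of_ne hV.xw hV.yw]
  have hz : (Finsupp.single u 1 + bx x y d k : Fin N →₀ ℕ) z = 0 := by
    rw [Finsupp.add_apply, Finsupp.single_apply, if_neg hV.zu.symm, bx_of_ne hV.xz hV.yz]
  have hx : ∀ l, (Finsupp.single u 1 + bx x y d l : Fin N →₀ ℕ) x = l := by
    intro l
    rw [Finsupp.add_apply, Finsupp.single_apply, if_neg hV.xu.symm, bx_x hV.xy, zero_add]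
  unfold bin
  rw [EX_eq, coeff_add, coeff_add, coeff_sub, coeff_sub, coeff_sum]
  have t1 : coeff (Finsupp.single u 1 + bx x y d k)
      (monomial (Finsupp.single u 1 + Finsupp.single w 1) (1 : ℂ)) = 0 := by
    apply key _ _ w
    rw [hw, Finsupp.add_apply, Finsupp.single_eq_same]
    omega
  have t2 : coeff (Finsupp.single u 1 + bx x y d k)
      (monomial (Finsupp.single u 1 + μ) (1 : ℂ)) = 0 := by
    apply key _ _ z
    rw [hz, Finsupp.add_apply]
    have := hV.muz
    omega
  have t3 : ∑ l ∈ Finset.range (d + 1), coeff (Finsupp.single u 1 + bx x y d k)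
      (monomial (Finsupp.single u 1 + bx x y d l) (b l)) = b k := by
    rw [Finset.sum_eq_single k]
    · rw [coeff_monomial, if_pos rfl]
    · intro l _ hlk
      apply key _ _ x
      rw [hx, hx]
      exact hlk
    · intro h
      exact absurd (Finset.mem_range.2 (Nat.lt_succ_of_le hk)) h
  have t4 : coeff (Finsupp.single u 1 + bx x y d k) (monomial β (1 : ℂ)) = 0 := by
    apply key _ _ u
    rw [hu, hV.bu]
    exact zero_ne_one
  have t5 : coeff (Finsupp.single u 1 + bx x y d k) (monomial γ r) = 0 := by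
    apply key _ _ u
    rw [hu, hV.gu]
    exact zero_ne_one
  rw [t1, t2, t3, t4, t5]
  ring

omit [DecidableEq ι] in
theorem stableLoc_small {x y z w u : Fin N} {μ : Fin N →₀ ℕ} {d : ℕ} {b : ℕ → ℂ}
    {α β γ : Fin N →₀ ℕ} {r : ι → ℂ} {D : Finset ι} {g v : ι → Fin N}
    (hV : Vars x y z w u μ α β γ (∅ : Finset ι) g v)
    (hB : BCond d b r D (β x) (β y) (β w) (γ x) (γ y)) {i : ι} (hi : i ∈ D) :
    StableLoc N (bin β γ (r i) + EX x y w u μ d b) := by
  classical
  obtain ⟨k, hk, hbk⟩ := hB.ne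
  have hF0 : bin β γ (r i) + EX x y w u μ d b ≠ 0 := by
    intro h
    apply hbk
    rw [← coeff_small_bx (b := b) hV (r i) hk, h, coeff_zero]
  have hKC : KC x y u d b (bin β γ (r i) + EX x y w u μ d b).support := by
    left
    intro l hl hbl
    rw [mem_support_iff, coeff_small_bx hV (r i) hl]
    exact hbl
  have hne : ∀ (A : Finset (Fin N →₀ ℕ)) (ω : Fin N → ℤ), A.Nonempty →
      (MPb07157F.fc A ω).Nonempty := by
    intro A ω hA
    obtain ⟨v, hv, hmin⟩ := A.exists_min_image (fun v => MPb07157F.zd ω v) hA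
    refine ⟨v, ?_⟩
    unfold MPb07157F.fc
    rw [Finset.mem_filter]
    exact ⟨hv, hmin⟩
  refine StableLoc.nondeg _ fun om _ => ?_
  rw [initialPart_eq_fc]
  exact nondeg_small_inForm hV hB hi (Finset.filter_subset _ _)
    (hne _ _ (support_nonempty.2 hF0)) (hKC.face hV.xy ⟨k, hk, hbk⟩ _)

end SH

end MPb07157
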