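import Pool.Agent.Lib.MP_b07157_agSH.Dat
import Pool.Agent.Lib.MP_b07157_agSH.Small
import Pool.Agent.Lib.MP_b07157_agS.SGraph
import Pool.Agent.Lib.MP_b07157_agS.CubA

/-!
# The embedding of a shear-symmetric form
-/

noncomputable section

namespace MPb07157

open MvPolynomial

variable {n : ℕ}

/-! ### Re-embeddings, local version -/

theorem constantCoeff_aeval_zero {σ τ : Type} {f : σ → MvPolynomial τ ℂ}
    (hf : ∀ i, constantCoeff (f i) = 0) (q : MvPolynomial σ ℂ) :
    constantCoeff (aeval f q) = constantCoeff q := by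
  have h : (constantCoeff : MvPolynomial τ ℂ →+* ℂ).comp
      ((aeval f : MvPolynomial σ ℂ →ₐ[ℂ] MvPolynomial τ ℂ) : MvPolynomial σ ℂ →+* MvPolynomial τ ℂ) =
      (constantCoeff : MvPolynomial σ ℂ →+* ℂ) := by
    apply MvPolynomial.ringHom_ext
    · intro r
      rw [RingHom.comp_apply, constantCoeff_C]
      show constantCoeff (aeval f (C r)) = r
      rw [aeval_C]
      exact constantCoeff_C _ _
    · intro i
      rw [RingHom.comp_apply, constantCoeff_X]
      show constantCoeff (aeval f (X i)) = 0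
      rw [aeval_X, hf]
  exact congrArg (fun φ => φ q) h

theorem Graph.constantCoeff_el {σ : Type} [DecidableEq σ] (i : σ) {p : MvPolynomial σ ℂ}
    (h0 : constantCoeff p = 0) (j : σ) : constantCoeff (Graph.el i p j) = 0 := by
  unfold Graph.el
  by_cases hj : j = i
  · subst hj
    rw [Function.update_self, map_add, constantCoeff_X, h0, add_zero]
  · rw [Function.update_of_ne hj, constantCoeff_X]

/-- The polynomial `Φ(0, …, 0, t)`. -/
def restLast (Φ : MvPolynomial (Fin (n + 1)) ℂ) : Polynomial ℂ :=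
  aeval (Fin.snoc (α := fun _ => Polynomial ℂ) (fun _ : Fin n => 0) Polynomial.X) Φ

theorem coeff_zero_restLast (A : MvPolynomial (Fin (n + 1)) ℂ) :
    (restLast A).coeff 0 = constantCoeff A := by
  have h : (Polynomial.constantCoeff : Polynomial ℂ →+* ℂ).comp
      ((aeval (Fin.snoc (α := fun _ => Polynomial ℂ) (fun _ : Fin n => 0) Polynomial.X) :
        MvPolynomial (Fin (n + 1)) ℂ →ₐ[ℂ] Polynomial ℂ) :
        MvPolynomial (Fin (n + 1)) ℂ →+* Polynomial ℂ) =
      (constantCoeff : MvPolynomial (Fin (n + 1)) ℂ →+* ℂ) := by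
    apply MvPolynomial.ringHom_ext
    · intro r
      rw [RingHom.comp_apply, constantCoeff_C]
      show Polynomial.constantCoeff (aeval _ (C r)) = r
      rw [aeval_C]
      exact Polynomial.coeff_C_zero
    · intro i
      rw [RingHom.comp_apply, constantCoeff_X]
      show Polynomial.constantCoeff (aeval _ (X i)) = 0
      rw [aeval_X]
      refine Fin.lastCases ?_ (fun i => ?_) i
      · rw [Fin.snoc_last]
        exact Polynomial.coeff_X_zero
      · rw [Fin.snoc_castSucc, map_zero]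
  exact congrArg (fun φ => φ A) h

theorem restLast_rename (g : MvPolynomial (Fin n) ℂ) :
    restLast (rename Fin.castSucc g) = Polynomial.C (constantCoeff g) := by
  unfold restLast
  rw [aeval_rename]
  have h : (aeval ((Fin.snoc (α := fun _ => Polynomial ℂ) (fun _ : Fin n => 0) Polynomial.X) ∘
      Fin.castSucc) : MvPolynomial (Fin n) ℂ →ₐ[ℂ] Polynomial ℂ) = aeval (fun _ => 0) := by
    apply MvPolynomial.algHom_ext
    intro i
    rw [aeval_X, aeval_X, Function.comp_apply, Fin.snoc_castSucc]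
  rw [h]
  have h1 : (aeval (fun _ => 0) : MvPolynomial (Fin n) ℂ →ₐ[ℂ] Polynomial ℂ) g =
      algebraMap ℂ (Polynomial ℂ) (constantCoeff g) := by
    have := MvPolynomial.aeval_zero' (S₁ := Polynomial ℂ) g
    exact this
  rw [h1]
  rfl

/-- The change of coordinates of a re-embedding fixes the origin. -/
theorem exists_equiv_graph (Φ : MvPolynomial (Fin (n + 1)) ℂ) (g : MvPolynomial (Fin n) ℂ)
    (hg0 : constantCoeff g = 0) (hΦ : (restLast Φ).coeff 1 = 0) :
    ∃ e : MvPolynomial (Fin (n + 2)) ℂ ≃ₐ[ℂ] MvPolynomial (Fin (n + 2)) ℂ,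
      (∀ i, constantCoeff (e (X i)) = 0) ∧ (∀ i, constantCoeff (e.symm (X i)) = 0) ∧
      e (graphPoly Φ g) = stab (substLast Φ g) := by
  obtain ⟨A, hA⟩ := exists_graph_quot Φ g
  have hA0 : constantCoeff A = 0 := by
    have h1 := congrArg (fun q => (restLast q).coeff 1) hA
    have hsub : ∀ p q : MvPolynomial (Fin (n + 1)) ℂ,
        restLast (p - q) = restLast p - restLast q := fun p q => by
      unfold restLast; rw [map_sub]
    have hmul : ∀ p q : MvPolynomial (Fin (n + 1)) ℂ,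
        restLast (p * q) = restLast p * restLast q := fun p q => by
      unfold restLast; rw [map_mul]
    have hX : restLast (X (Fin.last n) : MvPolynomial (Fin (n + 1)) ℂ) = Polynomial.X := by
      unfold restLast
      rw [aeval_X, Fin.snoc_last]
    simp only [hsub, hmul, hX, restLast_rename, hg0, map_zero, sub_zero, Polynomial.coeff_sub,
      hΦ] at h1
    rw [← zero_add 1, Polynomial.coeff_X_mul, coeff_zero_restLast, zero_add,
      Polynomial.coeff_C_of_ne_zero one_ne_zero, sub_zero] at h1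
    exact h1.symm
  have hz : (Fin.natAdd n (0 : Fin 2)) = (Fin.last n).castSucc := by
    ext
    simp
  have hg : (Fin.natAdd n (0 : Fin 2)) ∉
      (rename (Fin.castAdd 2) (-g) : MvPolynomial (Fin (n + 2)) ℂ).vars :=
    notMem_vars_rename _ _ fun i h => by
      have := congrArg Fin.val h
      simp at this
      omega
  have hA' : (Fin.natAdd n (1 : Fin 2)) ∉
      (rename Fin.castSucc A : MvPolynomial (Fin (n + 2)) ℂ).vars :=
    notMem_vars_rename _ _ fun i h => by
      have := congrArg Fin.val h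
      simp at this
      omega
  have c1 : constantCoeff (rename (Fin.castAdd 2) (-g) : MvPolynomial (Fin (n + 2)) ℂ) = 0 := by
    rw [constantCoeff_rename, map_neg, hg0, neg_zero]
  have c2 : constantCoeff (rename Fin.castSucc A : MvPolynomial (Fin (n + 2)) ℂ) = 0 := by
    rw [constantCoeff_rename, hA0]
  have c1' : constantCoeff (-(rename (Fin.castAdd 2) (-g) : MvPolynomial (Fin (n + 2)) ℂ)) = 0 := by
    rw [map_neg, c1, neg_zero]
  have c2' : constantCoeff (-(rename Fin.castSucc A : MvPolynomial (Fin (n + 2)) ℂ)) = 0 := by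
    rw [map_neg, c2, neg_zero]
  set e1 := Graph.elem _ _ hg with he1
  set e2 := Graph.elem _ _ hA' with he2
  refine ⟨(e1.trans e2).symm, fun i => ?_, fun i => ?_, ?_⟩
  · show constantCoeff (aeval (Graph.el _ _) (aeval (Graph.el _ _) (X i))) = 0
    rw [constantCoeff_aeval_zero (Graph.constantCoeff_el _ c1'),
      constantCoeff_aeval_zero (Graph.constantCoeff_el _ c2'), constantCoeff_X]
  · show constantCoeff (aeval (Graph.el _ _) (aeval (Graph.el _ _) (X i))) = 0
    rw [constantCoeff_aeval_zero (Graph.constantCoeff_el _ c2),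
      constantCoeff_aeval_zero (Graph.constantCoeff_el _ c1), constantCoeff_X]
  · rw [AlgEquiv.symm_apply_eq, AlgEquiv.trans_apply, eq_comm]
    have hF1 : (Fin.natAdd n (0 : Fin 2)) ∉
        (rename (Fin.castAdd 2) (substLast Φ g) : MvPolynomial (Fin (n + 2)) ℂ).vars :=
      notMem_vars_rename _ _ fun i h => by
        have := congrArg Fin.val h
        simp at this
        omega
    have hF2 : (Fin.natAdd n (1 : Fin 2)) ∉
        (rename (Fin.castAdd 2) (substLast Φ g) : MvPolynomial (Fin (n + 2)) ℂ).vars :=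
      notMem_vars_rename _ _ fun i h => by
        have := congrArg Fin.val h
        simp at this
        omega
    have hg2 : (Fin.natAdd n (1 : Fin 2)) ∉
        (rename (Fin.castAdd 2) g : MvPolynomial (Fin (n + 2)) ℂ).vars :=
      notMem_vars_rename _ _ fun i h => by
        have := congrArg Fin.val h
        simp at this
        omega
    have hz2 : (Fin.natAdd n (1 : Fin 2)) ∉
        (X (Fin.natAdd n (0 : Fin 2)) : MvPolynomial (Fin (n + 2)) ℂ).vars := by
      rw [vars_X, Finset.mem_singleton]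
      intro h
      have := congrArg Fin.val h
      simp at this
    have hw1 : (Fin.natAdd n (0 : Fin 2)) ∉
        (X (Fin.natAdd n (1 : Fin 2)) : MvPolynomial (Fin (n + 2)) ℂ).vars := by
      rw [vars_X, Finset.mem_singleton]
      intro h
      have := congrArg Fin.val h
      simp at this
    have h1 : e1 (stab (substLast Φ g)) = rename (Fin.castAdd 2) (substLast Φ g) +
        (X (Fin.natAdd n 0) - rename (Fin.castAdd 2) g) * X (Fin.natAdd n 1) := by
      unfold stab
      rw [map_add, map_mul, he1, Graph.elem_of_notMem _ _ _ hF1, Graph.elem_X_self,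
        Graph.elem_of_notMem _ _ _ hw1, map_neg, ← sub_eq_add_neg]
    rw [h1, map_add, map_mul, map_sub, he2, Graph.elem_of_notMem _ _ _ hF2,
      Graph.elem_of_notMem _ _ _ hz2, Graph.elem_of_notMem _ _ _ hg2, Graph.elem_X_self]
    have h2 := congrArg (rename Fin.castSucc :
      MvPolynomial (Fin (n + 1)) ℂ → MvPolynomial (Fin (n + 1 + 1)) ℂ) hA
    rw [map_sub, map_mul, map_sub, rename_rename, rename_rename, rename_X] at h2
    have h3 : (Fin.castSucc ∘ Fin.castSucc : Fin n → Fin (n + 1 + 1)) = Fin.castAdd 2 := by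
      funext i
      ext
      simp
    rw [h3, ← hz] at h2
    unfold graphPoly
    linear_combination -h2

theorem StableLoc.graph {Φ : MvPolynomial (Fin (n + 1)) ℂ} {g : MvPolynomial (Fin n) ℂ}
    (h : StableLoc (n + 2) (graphPoly Φ g)) (hg0 : constantCoeff g = 0)
    (hΦ : (restLast Φ).coeff 1 = 0) : StableLoc n (substLast Φ g) := by
  obtain ⟨e, h1, h2, h3⟩ := exists_equiv_graph Φ g hg0 hΦ
  refine StableLoc.stab _ (StableLoc.equiv _ _ 1 one_pos ?_ h)
  rw [← h3]
  exact Cub.formEquivPow_of_polyEquiv e h1 h2 _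

/-- A constant factor is a unit. -/
theorem StableLoc.const_mul {f g : MvPolynomial (Fin n) ℂ} {c : ℂ} (hc : c ≠ 0) {k : ℕ}
    (hk : 0 < k) (hfg : f = C c * g ^ k) (h : StableLoc n g) : StableLoc n f := by
  refine StableLoc.equiv _ _ k hk ⟨AlgEquiv.refl, Units.map
    (MvPowerSeries.C (σ := Fin n) (R := ℂ) : ℂ →* _) (Units.mk0 c hc), ?_⟩ h
  rw [hfg, MvPolynomial.coe_mul, MvPolynomial.coe_pow, MvPolynomial.coe_C]
  rfl

namespace SH

open SHR

/-- The exponents of the embedding. -/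
def eMu (u v : ℕ) : Fin 5 →₀ ℕ :=
  Finsupp.single 1 u + Finsupp.single 2 v + Finsupp.single 0 1

/-- The exponent of `x^a y^b w^c`. -/
def eA (a b c : ℕ) : Fin 5 →₀ ℕ := Finsupp.single 1 a + Finsupp.single 2 b + Finsupp.single 3 c

theorem eA_one (a b c : ℕ) : eA a b c 1 = a := by simp [eA]

theorem eA_two (a b c : ℕ) : eA a b c 2 = b := by simp [eA]

theorem eA_three (a b c : ℕ) : eA a b c 3 = c := by simp [eA]

theorem eA_zero (a b c : ℕ) : eA a b c 0 = 0 := by simp [eA]

theorem eA_four (a b c : ℕ) : eA a b c 4 = 0 := by simp [eA]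

theorem monomial_eA (a b c : ℕ) :
    (monomial (eA a b c) 1 : MvPolynomial (Fin 5) ℂ) = X 1 ^ a * X 2 ^ b * X 3 ^ c := by
  unfold eA
  simp only [X_pow_eq_monomial, monomial_mul, mul_one]

theorem monomial_eMu (u v : ℕ) :
    (monomial (eMu u v) 1 : MvPolynomial (Fin 5) ℂ) = X 1 ^ u * X 2 ^ v * X 0 := by
  unfold eMu
  rw [X_pow_eq_monomial, X_pow_eq_monomial, monomial_mul, X, monomial_mul, mul_one, mul_one]

theorem vars_emb (u v a1 a2 m0 b1 b2 e c1 c2 : ℕ) (he : 0 < e) (g w : ℂ → Fin 5) :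
    Vars (1 : Fin 5) 2 0 3 4 (eMu u v) (eA a1 a2 m0) (eA b1 b2 e) (eA c1 c2 0) (∅ : Finset ℂ)
      g w := by
  constructor
  case good => constructor <;> simp
  case muz => simp [eMu]
  case muw => simp [eMu]
  case muu => simp [eMu]
  case az => exact eA_zero _ _ _
  case au => exact eA_four _ _ _
  case bz => exact eA_zero _ _ _
  case bu => exact eA_four _ _ _
  case bw => rw [eA_three]; exact he.ne'
  case gz => exact eA_zero _ _ _
  case gu => exact eA_four _ _ _
  case gw => exact eA_three _ _ _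
  case bo =>
    intro j h1 h2 h3
    fin_cases j
    · exact eA_zero _ _ _
    · exact absurd rfl h1
    · exact absurd rfl h2
    · exact absurd rfl h3
    · exact eA_four _ _ _
  case go =>
    intro j h1 h2
    fin_cases j
    · exact eA_zero _ _ _
    · exact absurd rfl h1
    · exact absurd rfl h2
    · exact eA_three _ _ _
    · exact eA_four _ _ _
  all_goals first
    | decide
    | (intro i hi; exact absurd hi (Finset.notMem_empty i))

theorem BB_eq (B : Polynomial ℂ) (d : ℕ) :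
    BB (1 : Fin 5) 2 d (fun k => B.coeff (d - k)) =
      rename (Fin.castAdd 2) (Bh B d : MvPolynomial (Fin 3) ℂ) := by
  have h1 : (Fin.castAdd 2 (1 : Fin 3) : Fin 5) = 1 := rfl
  have h2 : (Fin.castAdd 2 (2 : Fin 3) : Fin 5) = 2 := rfl
  unfold BB Bh
  rw [← Finset.sum_flip, map_sum]
  refine Finset.sum_congr rfl fun i hi => ?_
  have hi' : i ≤ d := Nat.lt_succ_iff.1 (Finset.mem_range.1 hi)
  rw [map_mul, map_mul, map_pow, map_pow, rename_C, rename_X, rename_X, h1, h2]
  unfold bx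
  beta_reduce
  rw [Nat.sub_sub_self hi', X_pow_eq_monomial, X_pow_eq_monomial, C_mul_monomial, monomial_mul,
    mul_one, mul_one]

theorem rename_wS (u v : ℕ) (B : Polynomial ℂ) :
    rename (Fin.castAdd 2) (wS u v B : MvPolynomial (Fin 3) ℂ) = monomial (eMu u v) 1 -
      BB (1 : Fin 5) 2 (u + v + 1) (fun k => B.coeff (u + v + 1 - k)) := by
  have h0 : (Fin.castAdd 2 (0 : Fin 3) : Fin 5) = 0 := rfl
  have h1 : (Fin.castAdd 2 (1 : Fin 3) : Fin 5) = 1 := rfl
  have h2 : (Fin.castAdd 2 (2 : Fin 3) : Fin 5) = 2 := rfl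
  unfold wS
  rw [BB_eq, map_sub, map_mul, map_mul, map_pow, map_pow, rename_X, rename_X, rename_X, h0, h1, h2,
    monomial_eMu]

theorem constantCoeff_wS (u v : ℕ) (B : Polynomial ℂ) :
    constantCoeff (wS u v B : MvPolynomial (Fin 3) ℂ) = 0 := by
  unfold wS Bh
  rw [map_sub, map_mul, constantCoeff_X, mul_zero, map_sum, Finset.sum_eq_zero, sub_zero]
  intro i hi
  rw [map_mul, map_mul, map_pow, map_pow, constantCoeff_X, constantCoeff_X]
  rcases Nat.eq_zero_or_pos i with h | h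
  · subst h
    rw [Nat.sub_zero, zero_pow (Nat.succ_ne_zero _), mul_zero, zero_mul]
  · rw [zero_pow h.ne', mul_zero]

/-- The binomial in four variables. -/
def bi4 (b1 b2 e c1 c2 : ℕ) (z : ℂ) : MvPolynomial (Fin 4) ℂ :=
  X 1 ^ b1 * X 2 ^ b2 * X 3 ^ e - C z * (X 1 ^ c1 * X 2 ^ c2)

theorem rename_bi4 (b1 b2 e c1 c2 : ℕ) (z : ℂ) :
    rename Fin.castSucc (bi4 b1 b2 e c1 c2 z) =
      (Line.bin (eA b1 b2 e) (eA c1 c2 0) z : MvPolynomial (Fin 5) ℂ) := by
  have h1 : (Fin.castSucc (1 : Fin 4) : Fin 5) = 1 := rfl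
  have h2 : (Fin.castSucc (2 : Fin 4) : Fin 5) = 2 := rfl
  have h3 : (Fin.castSucc (3 : Fin 4) : Fin 5) = 3 := rfl
  have h4 : (monomial (eA c1 c2 0) z : MvPolynomial (Fin 5) ℂ) = C z * (X 1 ^ c1 * X 2 ^ c2) := by
    rw [← mul_one z, ← C_mul_monomial, monomial_eA, pow_zero, mul_one, mul_one]
  unfold bi4 Line.bin
  rw [h4, monomial_eA]
  simp only [map_sub, map_mul, map_pow, rename_X, rename_C, h1, h2, h3]

theorem substLast_bi4 (b1 b2 e c1 c2 : ℕ) (z : ℂ) (g : MvPolynomial (Fin 3) ℂ) :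
    substLast (bi4 b1 b2 e c1 c2 z) g = X 1 ^ b1 * X 2 ^ b2 * g ^ e - C z * (X 1 ^ c1 * X 2 ^ c2) := by
  have h1 : (Fin.snoc (α := fun _ => MvPolynomial (Fin 3) ℂ) X g : Fin 4 → _) 1 = X 1 := rfl
  have h2 : (Fin.snoc (α := fun _ => MvPolynomial (Fin 3) ℂ) X g : Fin 4 → _) 2 = X 2 := rfl
  have h3 : (Fin.snoc (α := fun _ => MvPolynomial (Fin 3) ℂ) X g : Fin 4 → _) 3 = g := rfl
  unfold bi4 substLast
  simp only [map_sub, map_mul, map_pow, aeval_X, aeval_C, h1, h2, h3]
  rfl

theorem restLast_bi4 (b1 b2 e c1 c2 : ℕ) (hc : c1 + c2 ≠ 0) (z : ℂ) :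
    restLast (bi4 b1 b2 e c1 c2 z) = Polynomial.C (0 ^ (b1 + b2)) * Polynomial.X ^ e := by
  have h1 : (Fin.snoc (α := fun _ => Polynomial ℂ) (fun _ : Fin 3 => 0) Polynomial.X : Fin 4 → _) 1
    = 0 := rfl
  have h2 : (Fin.snoc (α := fun _ => Polynomial ℂ) (fun _ : Fin 3 => 0) Polynomial.X : Fin 4 → _) 2
    = 0 := rfl
  have h3 : (Fin.snoc (α := fun _ => Polynomial ℂ) (fun _ : Fin 3 => 0) Polynomial.X : Fin 4 → _) 3
    = Polynomial.X := rfl
  unfold bi4 restLast
  simp only [map_sub, map_mul, map_pow, aeval_X, aeval_C, h1, h2, h3]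
  rw [← pow_add, ← pow_add, zero_pow hc, mul_zero, sub_zero, Polynomial.C_0]

theorem graphPoly_wS (Φ : MvPolynomial (Fin 4) ℂ) (u v : ℕ) (B : Polynomial ℂ) :
    graphPoly Φ (wS u v B) = rename Fin.castSucc Φ +
      EX (1 : Fin 5) 2 3 4 (eMu u v) (u + v + 1) (fun k => B.coeff (u + v + 1 - k)) := by
  have h0 : (Fin.natAdd 3 (0 : Fin 2) : Fin 5) = 3 := rfl
  have h1 : (Fin.natAdd 3 (1 : Fin 2) : Fin 5) = 4 := rfl
  unfold graphPoly EX
  rw [rename_wS, h0, h1]
  ring

/-- The polynomial in four variables. -/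
def Phi (D : Dat) : MvPolynomial (Fin 4) ℂ :=
  X 1 ^ D.a1 * X 2 ^ D.a2 * X 3 ^ D.m0 *
    ∏ z ∈ D.T, bi4 D.k2x D.k2y D.e D.k3x D.k3y z ^ D.m z

theorem k3_ne (D : Dat) : D.k3x + D.k3y ≠ 0 := by
  have h1 := D.hdeg
  have h2 : 0 < D.e * (D.u + D.v + 1) := Nat.mul_pos D.he (Nat.succ_pos _)
  omega

theorem F_eq (D : Dat) (B : Polynomial ℂ) :
    D.F B = C D.c * substLast (Phi D) (wS D.u D.v B) ^ 1 := by
  have h1 : (Fin.snoc (α := fun _ => MvPolynomial (Fin 3) ℂ) X (wS D.u D.v B) : Fin 4 → _) 1 =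
    X 1 := rfl
  have h2 : (Fin.snoc (α := fun _ => MvPolynomial (Fin 3) ℂ) X (wS D.u D.v B) : Fin 4 → _) 2 =
    X 2 := rfl
  have h3 : (Fin.snoc (α := fun _ => MvPolynomial (Fin 3) ℂ) X (wS D.u D.v B) : Fin 4 → _) 3 =
    wS D.u D.v B := rfl
  have hs : substLast (Phi D) (wS D.u D.v B) =
      X 1 ^ D.a1 * X 2 ^ D.a2 * wS D.u D.v B ^ D.m0 * ∏ z ∈ D.T, D.g B z ^ D.m z := by
    unfold Phi substLast
    rw [map_mul, map_mul, map_mul, map_pow, map_pow, map_pow, aeval_X, aeval_X, aeval_X, h1, h2,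
      h3, map_prod]
    congr 1
    refine Finset.prod_congr rfl fun z _ => ?_
    rw [map_pow]
    congr 1
    exact substLast_bi4 _ _ _ _ _ _ _
  rw [pow_one, hs]
  unfold Dat.F
  ring

theorem restLast_Phi (D : Dat) (h2 : 2 ≤ D.m0 + D.e * ∑ z ∈ D.T, D.m z) :
    (restLast (Phi D)).coeff 1 = 0 := by
  have h3 : (Fin.snoc (α := fun _ => Polynomial ℂ) (fun _ : Fin 3 => 0) Polynomial.X : Fin 4 → _) 3
    = Polynomial.X := rfl
  obtain ⟨c, hc⟩ : ∃ c : ℂ, restLast (Phi D) =
      Polynomial.C c * Polynomial.X ^ (D.m0 + D.e * ∑ z ∈ D.T, D.m z) := by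
    refine ⟨0 ^ D.a1 * 0 ^ D.a2 * ∏ z ∈ D.T, (0 ^ (D.k2x + D.k2y)) ^ D.m z, ?_⟩
    have h1 : (Fin.snoc (α := fun _ => Polynomial ℂ) (fun _ : Fin 3 => 0) Polynomial.X :
      Fin 4 → _) 1 = 0 := rfl
    have h2 : (Fin.snoc (α := fun _ => Polynomial ℂ) (fun _ : Fin 3 => 0) Polynomial.X :
      Fin 4 → _) 2 = 0 := rfl
    unfold Phi restLast
    rw [map_mul, map_mul, map_mul, map_pow, map_pow, map_pow, aeval_X, aeval_X, aeval_X, h1, h2,
      h3, map_prod]
    have h4 : ∀ z ∈ D.T, aeval (Fin.snoc (α := fun _ => Polynomial ℂ) (fun _ : Fin 3 => 0)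
        Polynomial.X) (bi4 D.k2x D.k2y D.e D.k3x D.k3y z ^ D.m z) =
        Polynomial.C ((0 ^ (D.k2x + D.k2y)) ^ D.m z) * (Polynomial.X ^ D.e) ^ D.m z := by
      intro z _
      rw [map_pow]
      have h5 := restLast_bi4 D.k2x D.k2y D.e D.k3x D.k3y (k3_ne D) z
      unfold restLast at h5
      rw [h5, mul_pow, ← Polynomial.C_pow]
    have h6 : ∏ z ∈ D.T, (Polynomial.X ^ D.e : Polynomial ℂ) ^ D.m z =
        Polynomial.X ^ (D.e * ∑ z ∈ D.T, D.m z) := by
      rw [Finset.prod_pow_eq_pow_sum, ← pow_mul]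
    rw [Finset.prod_congr rfl h4, Finset.prod_mul_distrib, ← map_prod, h6, pow_add]
    simp only [map_mul, map_pow, Polynomial.C_0]
    ring
  rw [hc, Polynomial.coeff_C_mul_X_pow, if_neg (by omega)]

/-- The general case. -/
theorem stable_gen (D : Dat) {B : Polynomial ℂ}
    (h2 : 2 ≤ D.m0 + D.e * ∑ z ∈ D.T, D.m z)
    (hb : BCond (D.u + D.v + 1) (fun k => B.coeff (D.u + D.v + 1 - k)) (fun z : ℂ => z) D.T
      D.k2x D.k2y D.e D.k3x D.k3y)
    (h : D.a1 + D.a2 + D.m0 ≠ 0 ∨ 2 ≤ D.T.card) : StableLoc 3 (D.F B) := by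
  classical
  set m' : ℂ → ℕ := fun z => if z ∈ D.T then D.m z else 1 with hm'
  have hm'0 : ∀ z, 0 < m' z := by
    intro z
    rw [hm']
    beta_reduce
    split_ifs with hz
    · exact D.hm z hz
    · exact one_pos
  have hV := vars_emb D.u D.v D.a1 D.a2 D.m0 D.k2x D.k2y D.e D.k3x D.k3y D.he (fun _ => 0)
    (fun _ => 0)
  have hb' : BCond (D.u + D.v + 1) (fun k => B.coeff (D.u + D.v + 1 - k)) (fun z : ℂ => z)
      (D.T ∪ ∅) (eA D.k2x D.k2y D.e 1) (eA D.k2x D.k2y D.e 2) (eA D.k2x D.k2y D.e 3)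
      (eA D.k3x D.k3y 0 1) (eA D.k3x D.k3y 0 2) := by
    rw [eA_one, eA_two, eA_three, eA_one, eA_two, Finset.union_empty]
    exact hb
  have hγ : eA D.k3x D.k3y 0 ≠ 0 := by
    intro h0
    have e1 := congrArg (fun f : Fin 5 →₀ ℕ => f 1 + f 2) h0
    simp only [eA_one, eA_two, Finsupp.coe_zero, Pi.zero_apply, add_zero] at e1
    exact k3_ne D e1
  have hα : eA D.a1 D.a2 D.m0 ≠ 0 ∨ (∅ : Finset ℂ).Nonempty ∨ 2 ≤ D.T.card := by
    rcases h with h | h
    · left
      intro h0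
      have e1 := congrArg (fun f : Fin 5 →₀ ℕ => f 1 + f 2 + f 3) h0
      simp only [eA_one, eA_two, eA_three, Finsupp.coe_zero, Pi.zero_apply, add_zero] at e1
      exact h e1
    · exact Or.inr (Or.inr h)
  have h1 := (stable_SF (r := fun z : ℂ => z) hm'0 D.T.card 5 1 2 0 3 4 (eMu D.u D.v)
    (eA D.a1 D.a2 D.m0) (eA D.k2x D.k2y D.e) (eA D.k3x D.k3y 0) D.T ∅ _ _ rfl hV
    (Finset.disjoint_empty_right _) (fun i _ j _ hij => hij) hb' hγ hα).1
  have h3 : SF (1 : Fin 5) 2 3 4 (eMu D.u D.v) (D.u + D.v + 1)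
      (fun k => B.coeff (D.u + D.v + 1 - k)) (eA D.a1 D.a2 D.m0) (eA D.k2x D.k2y D.e)
      (eA D.k3x D.k3y 0) (fun z : ℂ => z) m' D.T ∅ (fun _ => 0) (fun _ => 0) =
      graphPoly (Phi D) (wS D.u D.v B) := by
    have e1 : (Fin.castSucc (1 : Fin 4) : Fin 5) = 1 := rfl
    have e2 : (Fin.castSucc (2 : Fin 4) : Fin 5) = 2 := rfl
    have e3 : (Fin.castSucc (3 : Fin 4) : Fin 5) = 3 := rfl
    rw [graphPoly_wS]
    unfold SF Line.FF Phi
    rw [Finset.prod_empty, Finset.sum_empty, mul_one, add_zero, monomial_eA, map_mul, map_mul,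
      map_mul, map_pow, map_pow, map_pow, rename_X, rename_X, rename_X, e1, e2, e3, map_prod]
    congr 2
    refine Finset.prod_congr rfl fun z hz => ?_
    rw [map_pow, rename_bi4, hm']
    beta_reduce
    rw [if_pos hz]
  rw [h3] at h1
  exact StableLoc.const_mul D.hc one_pos (F_eq D B)
    (StableLoc.graph h1 (constantCoeff_wS _ _ _) (restLast_Phi D h2))

/-- The case of one factor. -/
theorem stable_one (D : Dat) {B : Polynomial ℂ} {z : ℂ} (hz : z ∈ D.T)
    (hb : BCond (D.u + D.v + 1) (fun k => B.coeff (D.u + D.v + 1 - k)) (fun z : ℂ => z) D.T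
      D.k2x D.k2y D.e D.k3x D.k3y)
    (h : D.k2x + D.k2y ≠ 0 ∨ 2 ≤ D.e) : StableLoc 3 (D.g B z) := by
  have hV := vars_emb D.u D.v D.a1 D.a2 D.m0 D.k2x D.k2y D.e D.k3x D.k3y D.he (fun _ => 0)
    (fun _ => 0)
  have h1 : StableLoc 5 (Line.bin (eA D.k2x D.k2y D.e) (eA D.k3x D.k3y 0) z +
      EX (1 : Fin 5) 2 3 4 (eMu D.u D.v) (D.u + D.v + 1)
        (fun k => B.coeff (D.u + D.v + 1 - k))) := by
    refine stableLoc_small (r := fun z : ℂ => z) (D := D.T) hV ?_ hz
    rw [eA_one, eA_two, eA_three, eA_one, eA_two]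
    exact hb
  rw [← rename_bi4, ← graphPoly_wS] at h1
  have h2 := StableLoc.graph h1 (constantCoeff_wS _ _ _) (by
    rw [restLast_bi4 _ _ _ _ _ (k3_ne D), Polynomial.coeff_C_mul_X_pow]
    split_ifs with he
    · rcases h with h | h
      · exact zero_pow h
      · omega
    · rfl)
  rw [substLast_bi4] at h2
  exact h2

/-- **The embedding.** -/
theorem stable_Dat (D : SHR.Dat) {B : Polynomial ℂ} (_hB : B.natDegree ≤ D.u + D.v + 1)
    (h2 : 2 ≤ D.m0 + D.e * ∑ z ∈ D.T, D.m z)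
    (hb : BCond (D.u + D.v + 1) (fun k => B.coeff (D.u + D.v + 1 - k)) (fun z : ℂ => z) D.T
      D.k2x D.k2y D.e D.k3x D.k3y) : StableLoc 3 (D.F B) := by
  classical
  by_cases hg : D.a1 + D.a2 + D.m0 ≠ 0 ∨ 2 ≤ D.T.card
  · exact stable_gen D h2 hb hg
  push Not at hg
  obtain ⟨ha, hT⟩ := hg
  have ha1 : D.a1 = 0 := by omega
  have ha2 : D.a2 = 0 := by omega
  have hm0 : D.m0 = 0 := by omega
  have hT1 : D.T.card = 1 := by
    rcases Nat.eq_zero_or_pos D.T.card with h | h
    · rw [Finset.card_eq_zero] at h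
      rw [h, Finset.sum_empty, mul_zero, hm0] at h2
      omega
    · omega
  obtain ⟨z, hz⟩ := Finset.card_eq_one.1 hT1
  have hzT : z ∈ D.T := by rw [hz]; exact Finset.mem_singleton_self z
  have hF : D.F B = C D.c * D.g B z ^ D.m z := by
    unfold Dat.F
    rw [hz, Finset.prod_singleton, ha1, ha2, hm0]
    simp only [pow_zero, mul_one]
  by_cases hk : D.k2x + D.k2y ≠ 0 ∨ 2 ≤ D.e
  · exact StableLoc.const_mul D.hc (D.hm z hzT) hF (stable_one D hzT hb hk)
  push Not at hk
  obtain ⟨hk, he⟩ := hk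
  have hk1 : D.k2x = 0 := by omega
  have hk2 : D.k2y = 0 := by omega
  have he1 : D.e = 1 := by
    have := D.he
    omega
  have hdeg := D.hdeg
  rw [hk1, hk2, he1, one_mul, zero_add, zero_add] at hdeg
  rw [hz, Finset.sum_singleton, hm0, he1, zero_add, one_mul] at h2
  -- the new data
  have hz0 : z ≠ 0 := fun h0 => D.hT (by rw [← h0]; exact hzT)
  set B' : Polynomial ℂ := B + Polynomial.C z * Polynomial.X ^ D.k3y with hB'
  have hcB' : ∀ k, k ≤ D.u + D.v + 1 → B'.coeff (D.u + D.v + 1 - k) =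
      B.coeff (D.u + D.v + 1 - k) + if k = D.k3x then z else 0 := by
    intro k hk
    rw [hB', Polynomial.coeff_add, Polynomial.coeff_C_mul_X_pow]
    congr 1
    by_cases h : k = D.k3x
    · rw [if_pos h, if_pos (by omega)]
    · rw [if_neg h, if_neg (by omega)]
  have hsum : ∀ (f : ℕ → ℂ) (s t : ℂ), ∑ k ∈ Finset.range (D.u + D.v + 1 + 1), f k *
      (B'.coeff (D.u + D.v + 1 - k) * (s ^ k * t ^ (D.u + D.v + 1 - k))) =
      ∑ k ∈ Finset.range (D.u + D.v + 1 + 1), f k *
      (B.coeff (D.u + D.v + 1 - k) * (s ^ k * t ^ (D.u + D.v + 1 - k))) +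
      f D.k3x * (z * (s ^ D.k3x * t ^ D.k3y)) := by
    intro f s t
    have hr : D.k3x ∈ Finset.range (D.u + D.v + 1 + 1) := Finset.mem_range.2 (by omega)
    have h3 : D.u + D.v + 1 - D.k3x = D.k3y := by omega
    have h4 : f D.k3x * (z * (s ^ D.k3x * t ^ D.k3y)) =
        ∑ k ∈ Finset.range (D.u + D.v + 1 + 1), f k *
          ((if k = D.k3x then z else 0) * (s ^ k * t ^ (D.u + D.v + 1 - k))) := by
      rw [Finset.sum_eq_single D.k3x]
      · rw [if_pos rfl, h3]
      · intro k _ hk'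
        rw [if_neg hk', zero_mul, mul_zero]
      · intro h; exact absurd hr h
    rw [h4, ← Finset.sum_add_distrib]
    refine Finset.sum_congr rfl fun k hk' => ?_
    rw [hcB' k (Nat.lt_succ_iff.1 (Finset.mem_range.1 hk'))]
    ring
  have hbv : ∀ s t : ℂ, bv (D.u + D.v + 1) (fun k => B'.coeff (D.u + D.v + 1 - k)) s t =
      bv (D.u + D.v + 1) (fun k => B.coeff (D.u + D.v + 1 - k)) s t +
        z * (s ^ D.k3x * t ^ D.k3y) := by
    intro s t
    have := hsum (fun _ => 1) s t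
    simp only [one_mul] at this
    exact this
  have hbs : ∀ s t : ℂ, bs (D.u + D.v + 1) (fun k => B'.coeff (D.u + D.v + 1 - k)) s t =
      bs (D.u + D.v + 1) (fun k => B.coeff (D.u + D.v + 1 - k)) s t +
        D.k3x * (z * (s ^ D.k3x * t ^ D.k3y)) := fun s t => hsum (fun k => (k : ℂ)) s t
  have hbt : ∀ s t : ℂ, bt (D.u + D.v + 1) (fun k => B'.coeff (D.u + D.v + 1 - k)) s t =
      bt (D.u + D.v + 1) (fun k => B.coeff (D.u + D.v + 1 - k)) s t +
        D.k3y * (z * (s ^ D.k3x * t ^ D.k3y)) := by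
    intro s t
    have := hsum (fun k => ((D.u + D.v + 1 - k : ℕ) : ℂ)) s t
    beta_reduce at this
    rw [show D.u + D.v + 1 - D.k3x = D.k3y by omega] at this
    exact this
  let D' : Dat := { D with
    a1 := 0
    a2 := 0
    m0 := D.m z
    e := 1
    k2x := 0
    k2y := 0
    T := ∅
    he := one_pos
    hT := Finset.notMem_empty _
    hm := fun γ hγ => absurd hγ (Finset.notMem_empty γ)
    hdeg := by rw [one_mul, zero_add, zero_add]; exact hdeg }
  have hD' : D'.F B' = D.F B := by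
    rw [hF]
    show C D.c * (X 1 ^ 0 * X 2 ^ 0) * wS D.u D.v B' ^ D.m z *
      ∏ γ ∈ (∅ : Finset ℂ), D'.g B' γ ^ D.m γ = _
    rw [Finset.prod_empty, pow_zero, pow_zero, mul_one, mul_one, mul_one]
    congr 2
    unfold Dat.g
    rw [hk1, hk2, he1, pow_zero, pow_zero, pow_one, one_mul, one_mul]
    unfold wS
    have hBh : Bh B' (D.u + D.v + 1) = Bh B (D.u + D.v + 1) +
        C z * (X 1 ^ D.k3x * X 2 ^ D.k3y) := by
      have hr : D.k3y ∈ Finset.range (D.u + D.v + 1 + 1) := Finset.mem_range.2 (by omega)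
      have h3 : D.u + D.v + 1 - D.k3y = D.k3x := by omega
      have h4 : (C z * (X 1 ^ D.k3x * X 2 ^ D.k3y) : MvPolynomial (Fin 3) ℂ) =
          ∑ i ∈ Finset.range (D.u + D.v + 1 + 1),
            C (if i = D.k3y then z else 0) * X 1 ^ (D.u + D.v + 1 - i) * X 2 ^ i := by
        rw [Finset.sum_eq_single D.k3y]
        · rw [if_pos rfl, h3, mul_assoc]
        · intro k _ hk'
          rw [if_neg hk', C_0, zero_mul, zero_mul]
        · intro h; exact absurd hr h
      unfold Bh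
      rw [h4, ← Finset.sum_add_distrib]
      refine Finset.sum_congr rfl fun i _ => ?_
      rw [hB', Polynomial.coeff_add, Polynomial.coeff_C_mul_X_pow, C_add]
      ring
    rw [hBh]
    ring
  rw [← hD']
  refine stable_gen D' (B := B') ?_ ⟨?_, ?_, ?_, ?_⟩ (Or.inl ?_)
  · show 2 ≤ D.m z + 1 * ∑ γ ∈ (∅ : Finset ℂ), D.m γ
    rw [Finset.sum_empty, mul_zero, add_zero]
    exact h2
  · show ∃ k ≤ D.u + D.v + 1, B'.coeff (D.u + D.v + 1 - k) ≠ 0
    by_contra hcon
    push Not at hcon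
    have h3 : ∀ k ≤ D.u + D.v + 1, B.coeff (D.u + D.v + 1 - k) =
        -if k = D.k3x then z else 0 := by
      intro k hk'
      have := hcon k hk'
      rw [hcB' k hk'] at this
      linear_combination this
    have h4 := h3 D.k3x (by omega)
    rw [if_pos rfl] at h4
    have h5 := hb.h3 z hzT D.k3x (by omega) (by
      rw [h4]
      exact neg_ne_zero.2 hz0) (Or.inl fun l hl hbl => by
        rw [h3 l hl] at hbl
        by_cases hlk : l = D.k3x
        · exact hlk.le
        · rw [if_neg hlk, neg_zero] at hbl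
          exact absurd rfl hbl) (by rw [hk1, he1]; omega) (by rw [hk2, he1]; omega)
    apply h5
    rw [h4, he1, pow_one, neg_neg]
  · intro s t hs ht e1 e2 e3
    change bv (D.u + D.v + 1) (fun k => B'.coeff (D.u + D.v + 1 - k)) s t = 0 at e1
    change bs (D.u + D.v + 1) (fun k => B'.coeff (D.u + D.v + 1 - k)) s t = 0 at e2
    change bt (D.u + D.v + 1) (fun k => B'.coeff (D.u + D.v + 1 - k)) s t = 0 at e3
    rw [hbv] at e1
    rw [hbs] at e2
    rw [hbt] at e3
    refine hb.h2 z hzT s t hs ht ?_ ?_ ?_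
    · rw [hk1, hk2, he1, pow_zero, pow_zero, pow_one]
      linear_combination -e1
    · rw [hk1, hk2, he1]
      simp only [pow_zero, Nat.sub_self, Nat.cast_zero, Nat.cast_one]
      linear_combination -e2
    · rw [hk1, hk2, he1]
      simp only [pow_zero, Nat.sub_self, Nat.cast_zero, Nat.cast_one]
      linear_combination -e3
  · intro i hi
    exact absurd hi (Finset.notMem_empty i)
  · intro i hi
    exact absurd hi (Finset.notMem_empty i)
  · show 0 + 0 + D.m z ≠ 0
    omega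

end SH

end MPb07157
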