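import Pool.Agent.Lib.MP_b07157_agSH.ND

/-!
# The shear lemma: generic translation of the centre
-/

noncomputable section

namespace MPb07157

namespace SH

namespace Gn

open Polynomial

/-- The polynomial `∑_{k ≤ d} b_k T^(d-k)`. -/
def P0 (d : ℕ) (b : ℕ → ℂ) : ℂ[X] := ∑ k ∈ Finset.range (d + 1), C (b k) * X ^ (d - k)

theorem coeff_P0 (d : ℕ) (b : ℕ → ℂ) {j : ℕ} (hj : j ≤ d) : (P0 d b).coeff j = b (d - j) := by
  rw [P0, finsetSum_coeff, Finset.sum_eq_single (d - j)]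
  · rw [coeff_C_mul, coeff_X_pow, if_pos (by omega), mul_one]
  · intro k hk hne
    rw [Finset.mem_range] at hk
    rw [coeff_C_mul, coeff_X_pow, if_neg (by omega), mul_zero]
  · intro h
    exact absurd (Finset.mem_range.2 (by omega)) h

theorem coeff_P0' (d : ℕ) (b : ℕ → ℂ) {j : ℕ} (hj : d < j) : (P0 d b).coeff j = 0 := by
  rw [P0, finsetSum_coeff]
  refine Finset.sum_eq_zero fun k _ => ?_
  rw [coeff_C_mul, coeff_X_pow, if_neg (by omega), mul_zero]

theorem bv_eq (d : ℕ) (b : ℕ → ℂ) {s t : ℂ} (hs : s ≠ 0) :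
    bv d b s t = s ^ d * (P0 d b).eval (t / s) := by
  rw [bv, P0, eval_finsetSum, Finset.mul_sum]
  refine Finset.sum_congr rfl fun k hk => ?_
  rw [Finset.mem_range] at hk
  rw [eval_mul, eval_C, eval_pow, eval_X, div_pow]
  have h1 : s ^ d = s ^ k * s ^ (d - k) := by rw [← pow_add]; congr 1; omega
  have h2 : s ^ (d - k) ≠ 0 := pow_ne_zero _ hs
  rw [h1]
  field_simp

theorem bt_eq (d : ℕ) (b : ℕ → ℂ) {s t : ℂ} (hs : s ≠ 0) :
    bt d b s t = s ^ d * ((t / s) * (derivative (P0 d b)).eval (t / s)) := by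
  rw [bt, P0, derivative_sum, eval_finsetSum, Finset.mul_sum, Finset.mul_sum]
  refine Finset.sum_congr rfl fun k hk => ?_
  rw [Finset.mem_range] at hk
  rw [derivative_C_mul, derivative_X_pow, eval_mul, eval_C, eval_mul, eval_C, eval_pow, eval_X]
  have h1 : s ^ d = s ^ k * s ^ (d - k) := by rw [← pow_add]; congr 1; omega
  rcases Nat.eq_zero_or_pos (d - k) with h0 | h0
  · rw [h0]; simp
  · have h3 : (t / s) * (t / s) ^ (d - k - 1) = (t / s) ^ (d - k) := by
      rw [← pow_succ']; congr 1; omega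
    have h4 : s ^ k * s ^ (d - k) * ((t / s) ^ (d - k)) = s ^ k * t ^ (d - k) := by
      have h2 : s ^ (d - k) ≠ 0 := pow_ne_zero _ hs
      rw [div_pow]
      field_simp
    rw [h1]
    linear_combination (-(((d - k : ℕ) : ℂ) * b k)) * h4 +
      (-(s ^ k * s ^ (d - k) * b k * ((d - k : ℕ) : ℂ))) * h3

theorem bs_add_bt (d : ℕ) (b : ℕ → ℂ) (s t : ℂ) : bs d b s t + bt d b s t = d * bv d b s t := by
  rw [bs, bt, bv, ← Finset.sum_add_distrib, Finset.mul_sum]
  refine Finset.sum_congr rfl fun k hk => ?_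
  rw [Finset.mem_range] at hk
  have h : ((d - k : ℕ) : ℂ) = d - k := by push_cast [Nat.cast_sub (show k ≤ d by omega)]; ring
  rw [h]
  ring

theorem P0_update (d : ℕ) (b : ℕ → ℂ) {k0 : ℕ} (hk0 : k0 ≤ d) (α : ℂ) :
    P0 d (Function.update b k0 (b k0 - α)) = P0 d b - C α * X ^ (d - k0) := by
  ext j
  rw [coeff_sub, coeff_C_mul, coeff_X_pow]
  rcases Nat.lt_or_ge d j with h | h
  · rw [coeff_P0' d _ h, coeff_P0' d _ h, if_neg (by omega)]
    ring
  · rw [coeff_P0 d _ h, coeff_P0 d _ h]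
    by_cases h1 : d - j = k0
    · rw [h1, Function.update_self, if_pos (by omega)]
      ring
    · rw [Function.update_of_ne h1, if_neg (by omega)]
      ring

/-- `T P' - v P`. -/
def Q1 (d : ℕ) (b : ℕ → ℂ) (v : ℕ) : ℂ[X] :=
  X * derivative (P0 d b) - C (v : ℂ) * P0 d b

theorem coeff_Q1 (d : ℕ) (b : ℕ → ℂ) (v j : ℕ) :
    (Q1 d b v).coeff j = ((j : ℂ) - v) * (P0 d b).coeff j := by
  rw [Q1, coeff_sub, coeff_C_mul]
  rcases j with _ | j
  · rw [mul_coeff_zero, coeff_X_zero, zero_mul]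
    push_cast
    ring
  · rw [coeff_X_mul, coeff_derivative]
    push_cast
    ring

/-- If `T P' = v P` then `P = c T^v`. -/
theorem P0_of_Q1 {d : ℕ} {b : ℕ → ℂ} {v : ℕ} (h : Q1 d b v = 0) :
    P0 d b = C ((P0 d b).coeff v) * X ^ v := by
  ext j
  rw [coeff_C_mul, coeff_X_pow]
  by_cases hj : j = v
  · rw [if_pos hj, hj, mul_one]
  · rw [if_neg hj, mul_zero]
    have h1 := coeff_Q1 d b v j
    rw [h, coeff_zero] at h1
    have h2 : ((j : ℂ) - v) ≠ 0 := by
      rw [sub_ne_zero]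
      exact_mod_cast hj
    exact (mul_eq_zero.1 h1.symm).resolve_left h2

/-- The condition (h1) holds for all but finitely many `α`. -/
theorem fin1 (d : ℕ) (b : ℕ → ℂ) (v : ℕ) : {α : ℂ | ∃ τ : ℂ, τ ≠ 0 ∧
    (P0 d b).eval τ = α * τ ^ v ∧ (Q1 d b v).eval τ = 0}.Finite := by
  by_cases hQ : Q1 d b v = 0
  · refine (Set.finite_singleton ((P0 d b).coeff v)).subset ?_
    rintro α ⟨τ, hτ, h1, -⟩
    rw [P0_of_Q1 hQ, eval_mul, eval_C, eval_pow, eval_X] at h1
    exact (mul_right_cancel₀ (pow_ne_zero _ hτ) h1).symm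
  · refine ((Q1 d b v).roots.toFinset.finite_toSet.image
      (fun τ => (P0 d b).eval τ / τ ^ v)).subset ?_
    rintro α ⟨τ, hτ, h1, h2⟩
    refine ⟨τ, ?_, ?_⟩
    · rw [Finset.mem_coe, Multiset.mem_toFinset, mem_roots hQ]
      exact h2
    · simp only
      rw [h1, mul_div_assoc, div_self (pow_ne_zero _ hτ), mul_one]

/-- `(-(c - α))^e = r` has finitely many solutions. -/
theorem finp {e : ℕ} (he : 0 < e) (c r : ℂ) {w : ℂ} (hw : w ≠ 0) :
    {α : ℂ | (-(c - α * w)) ^ e = r}.Finite := by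
  have hp : (C w * X - C c : ℂ[X]) ^ e - C r ≠ 0 := by
    intro h
    have h1 : ((C w * X - C c : ℂ[X]) ^ e).natDegree = (C r : ℂ[X]).natDegree := by
      rw [sub_eq_zero] at h
      rw [h]
    rw [natDegree_pow, natDegree_C, natDegree_sub_C, natDegree_C_mul hw, natDegree_X] at h1
    omega
  refine (((C w * X - C c : ℂ[X]) ^ e - C r).roots.toFinset.finite_toSet).subset ?_
  intro α hα
  rw [Finset.mem_coe, Multiset.mem_toFinset, mem_roots hp, IsRoot.def, eval_sub, eval_pow, eval_sub,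
    eval_mul, eval_C, eval_C, eval_C, eval_X, sub_eq_zero, ← hα]
  congr 1
  ring

/-- The condition (h2) holds for all but finitely many `α`. -/
theorem fin2 {d : ℕ} {b : ℕ → ℂ} {v β2 γ2 e : ℕ} {r : ℂ} (he : 0 < e) (hr : r ≠ 0)
    (hb : ∀ j ≤ d, j ≠ v → (P0 d b).coeff j ≠ 0 → γ2 ≠ β2 + e * j) :
    {α : ℂ | ∃ τ : ℂ, τ ≠ 0 ∧ τ ^ β2 * (-((P0 d b).eval τ - α * τ ^ v)) ^ e = r * τ ^ γ2 ∧
      (e : ℂ) * (Q1 d b v).eval τ =
        (((γ2 : ℂ) - β2) - e * v) * ((P0 d b).eval τ - α * τ ^ v)}.Finite := by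
  have heC : (e : ℂ) ≠ 0 := by exact_mod_cast he.ne'
  by_cases hn : ((γ2 : ℂ) - β2) - e * v = 0
  · by_cases hQ : Q1 d b v = 0
    · refine (finp he ((P0 d b).coeff v) r one_ne_zero).subset ?_
      rintro α ⟨τ, hτ, h1, -⟩
      rw [Set.mem_ofPred_eq, mul_one]
      have hγ : γ2 = β2 + e * v := by
        have h2 : (γ2 : ℂ) = ((β2 + e * v : ℕ) : ℂ) := by
          push_cast
          linear_combination hn
        exact_mod_cast h2
      rw [P0_of_Q1 hQ, eval_mul, eval_C, eval_pow, eval_X, hγ] at h1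
      have h3 : -((P0 d b).coeff v * τ ^ v - α * τ ^ v) =
          (-((P0 d b).coeff v - α)) * τ ^ v := by ring
      rw [h3, mul_pow, ← pow_mul, pow_add, mul_comm v e] at h1
      have h4 : τ ^ β2 * τ ^ (e * v) ≠ 0 := mul_ne_zero (pow_ne_zero _ hτ) (pow_ne_zero _ hτ)
      refine mul_right_cancel₀ h4 ?_
      linear_combination h1
    · refine ((Q1 d b v).roots.toFinset.finite_toSet.biUnion (t := fun τ =>
        if τ = 0 then ∅ else {α : ℂ | (-((P0 d b).eval τ - α * τ ^ v)) ^ e =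
          r * τ ^ γ2 / τ ^ β2}) fun τ _ => ?_).subset ?_
      · by_cases hτ : τ = 0
        · rw [if_pos hτ]
          exact Set.finite_empty
        · rw [if_neg hτ]
          exact finp he _ _ (pow_ne_zero _ hτ)
      · rintro α ⟨τ, hτ, h1, h2⟩
        rw [hn, zero_mul] at h2
        rw [Set.mem_iUnion₂]
        refine ⟨τ, ?_, ?_⟩
        · rw [Finset.mem_coe, Multiset.mem_toFinset, mem_roots hQ]
          exact (mul_eq_zero.1 h2).resolve_left heC
        · rw [if_neg hτ, Set.mem_ofPred_eq, eq_div_iff (pow_ne_zero _ hτ), ← h1]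
          ring
  · set n : ℂ := ((γ2 : ℂ) - β2) - e * v with hndef
    set Z : ℂ[X] := X ^ β2 * (-(C ((e : ℂ) / n) * Q1 d b v)) ^ e - C r * X ^ γ2 with hZdef
    have hZ : Z ≠ 0 := by
      intro hZ
      rw [hZdef, sub_eq_zero] at hZ
      -- `Q1` is a monomial
      have hdvd : Q1 d b v ∣ X ^ γ2 := by
        have h1 : Q1 d b v ∣ C r * X ^ γ2 := by
          rw [← hZ]
          refine dvd_mul_of_dvd_right ?_ _
          refine dvd_pow ?_ he.ne'
          rw [dvd_neg]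
          exact dvd_mul_left _ _
        exact (IsUnit.dvd_mul_left (isUnit_C.2 hr.isUnit)).1 h1
      obtain ⟨j, hj, u, hu⟩ := (dvd_prime_pow prime_X _).1 hdvd
      obtain ⟨q, hq, hqu⟩ := isUnit_iff.1 (u⁻¹).isUnit
      have hQ : Q1 d b v = C q * X ^ j := by
        rw [← hu, hqu, mul_comm, mul_assoc, Units.mul_inv, mul_one]
      have hq0 : q ≠ 0 := hq.ne_zero
      have hcoef : ((j : ℂ) - v) * (P0 d b).coeff j = q := by
        rw [← coeff_Q1, hQ, coeff_C_mul, coeff_X_pow, if_pos rfl, mul_one]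
      have hjv : j ≠ v := by
        rintro rfl
        rw [sub_self, zero_mul] at hcoef
        exact hq0 hcoef.symm
      have hpj : (P0 d b).coeff j ≠ 0 := by
        intro h
        rw [h, mul_zero] at hcoef
        exact hq0 hcoef.symm
      have hjd : j ≤ d := by
        by_contra h
        exact hpj (coeff_P0' d b (by omega))
      refine hb j hjd hjv hpj ?_
      have hdeg := congrArg natDegree hZ
      rw [hQ, natDegree_C_mul hr, natDegree_X_pow] at hdeg
      have hen : ((e : ℂ) / n) ≠ 0 := div_ne_zero heC hn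
      have h5 : (X : ℂ[X]) ^ β2 * (-(C ((e : ℂ) / n) * (C q * X ^ j))) ^ e =
          C ((-((e : ℂ) / n * q)) ^ e) * X ^ (β2 + e * j) := by
        rw [C_pow, C_neg, C_mul, pow_add, mul_comm e j, pow_mul, ← neg_mul, ← neg_mul,
          ← mul_assoc, mul_pow]
        ring
      rw [h5, natDegree_C_mul (pow_ne_zero _ (neg_ne_zero.2 (mul_ne_zero hen hq0))),
        natDegree_X_pow] at hdeg
      exact hdeg.symm
    refine (Z.roots.toFinset.finite_toSet.image
      (fun τ => ((P0 d b).eval τ - (e : ℂ) / n * (Q1 d b v).eval τ) / τ ^ v)).subset ?_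
    rintro α ⟨τ, hτ, h1, h2⟩
    have h3 : (P0 d b).eval τ - α * τ ^ v = (e : ℂ) / n * (Q1 d b v).eval τ := by
      field_simp
      linear_combination -h2
    refine ⟨τ, ?_, ?_⟩
    · rw [Finset.mem_coe, Multiset.mem_toFinset, mem_roots hZ, IsRoot.def, hZdef, eval_sub,
        eval_mul, eval_mul, eval_pow, eval_pow, eval_pow, eval_neg, eval_mul, eval_C, eval_C,
        eval_X, sub_eq_zero, ← h1, h3]
    · simp only
      rw [div_eq_iff (pow_ne_zero _ hτ)]
      linear_combination h3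

end Gn

open Gn Polynomial

variable {ι : Type}

/-- **Generic translation of the centre.** -/
theorem exists_generic {d : ℕ} {b : ℕ → ℂ} {r : ι → ℂ} {D : Finset ι} {β1 β2 e γ1 γ2 k0 : ℕ}
    (he : 0 < e) (hk0 : k0 ≤ d) (hdeg : β1 + β2 + e * d = γ1 + γ2) (hr : ∀ i ∈ D, r i ≠ 0)
    (hb : ∀ k ≤ d, k ≠ k0 → b k ≠ 0 → γ2 ≠ β2 + e * (d - k)) :
    ∃ S : Set ℂ, S.Finite ∧
      ∀ α, α ∉ S → BCond d (Function.update b k0 (b k0 - α)) r D β1 β2 e γ1 γ2 := by
  classical
  have hP : ∀ j ≤ d, j ≠ d - k0 → (P0 d b).coeff j ≠ 0 → γ2 ≠ β2 + e * j := by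
    intro j hj hjk hpj
    rw [coeff_P0 d b hj] at hpj
    have := hb (d - j) (by omega) (by omega) hpj
    rwa [show d - (d - j) = j by omega] at this
  have hF : (⋃ i ∈ D, ({α : ℂ | ∃ τ : ℂ, τ ≠ 0 ∧
      τ ^ β2 * (-((P0 d b).eval τ - α * τ ^ (d - k0))) ^ e = r i * τ ^ γ2 ∧
      (e : ℂ) * (Q1 d b (d - k0)).eval τ = (((γ2 : ℂ) - β2) - e * ((d - k0 : ℕ) : ℂ)) *
        ((P0 d b).eval τ - α * τ ^ (d - k0))} ∪
      {α : ℂ | (-(b k0 - α * 1)) ^ e = r i})).Finite := by
    refine Set.Finite.biUnion D.finite_toSet fun i hi => Set.Finite.union ?_ ?_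
    · exact fin2 he (hr i hi) hP
    · exact finp he _ _ one_ne_zero
  refine ⟨_, ((Set.finite_singleton (b k0)).union (fin1 d b (d - k0))).union hF, ?_⟩
  intro α hα
  rw [Set.mem_union, Set.mem_union, not_or, not_or, Set.mem_singleton_iff] at hα
  obtain ⟨⟨hα1, hα2⟩, hα3⟩ := hα
  rw [Set.mem_iUnion₂] at hα3
  push Not at hα3
  set b' := Function.update b k0 (b k0 - α) with hb'
  have hbk0 : b' k0 = b k0 - α := Function.update_self _ _ _
  have hP' : P0 d b' = P0 d b - C α * X ^ (d - k0) := P0_update d b hk0 α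
  have hev : ∀ τ, (P0 d b').eval τ = (P0 d b).eval τ - α * τ ^ (d - k0) := by
    intro τ
    rw [hP', eval_sub, eval_mul, eval_C, eval_pow, eval_X]
  have hder : ∀ τ, τ * (derivative (P0 d b')).eval τ =
      (Q1 d b (d - k0)).eval τ + ((d - k0 : ℕ) : ℂ) * (P0 d b').eval τ := by
    intro τ
    rw [hev, hP', derivative_sub, derivative_C_mul, derivative_X_pow, Q1]
    simp only [eval_sub, eval_mul, eval_C, eval_pow, eval_X]
    rcases Nat.eq_zero_or_pos (d - k0) with h0 | h0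
    · rw [h0]; simp
    · have h3 : τ * τ ^ (d - k0 - 1) = τ ^ (d - k0) := by
        rw [← pow_succ']; congr 1; omega
      linear_combination (-α * ((d - k0 : ℕ) : ℂ)) * h3
  refine ⟨⟨k0, hk0, ?_⟩, ?_, ?_, ?_⟩
  · rw [hbk0, sub_ne_zero]
    exact fun h => hα1 h.symm
  · -- (h1)
    intro s t hs ht h1 h2 h3
    apply hα2
    rw [bv_eq d b' hs, mul_eq_zero, or_iff_right (pow_ne_zero _ hs)] at h1
    rw [bt_eq d b' hs, mul_eq_zero, or_iff_right (pow_ne_zero _ hs), hder, h1, mul_zero,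
      add_zero] at h3
    refine ⟨t / s, div_ne_zero ht hs, ?_, h3⟩
    rw [hev] at h1
    linear_combination h1
  · -- (h2)
    intro i hi s t hs ht h1 _ h3
    have h4 := hα3 i hi
    apply h4
    left
    have hR : r i * (s ^ γ1 * t ^ γ2) ≠ 0 :=
      mul_ne_zero (hr i hi) (mul_ne_zero (pow_ne_zero _ hs) (pow_ne_zero _ ht))
    have hbv : -bv d b' s t ≠ 0 := by
      intro h
      rw [h, zero_pow he.ne', mul_zero] at h1
      exact hR h1.symm
    obtain ⟨e', rfl⟩ : ∃ e', e = e' + 1 := ⟨e - 1, by omega⟩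
    have hX : s ^ β1 * t ^ β2 * (-bv d b' s t) ^ (e' + 1) ≠ 0 := by
      rw [h1]
      exact hR
    have h5 : ((e' + 1 : ℕ) : ℂ) * bt d b' s t = ((γ2 : ℂ) - β2) * bv d b' s t := by
      rw [← h1] at h3
      rw [Nat.add_sub_cancel] at h3
      refine mul_left_cancel₀ (mul_ne_zero (mul_ne_zero (pow_ne_zero β1 hs) (pow_ne_zero β2 ht))
        (pow_ne_zero e' hbv)) ?_
      rw [pow_succ] at h3
      linear_combination (-1 : ℂ) * h3
    have hsd : s ^ d ≠ 0 := pow_ne_zero _ hs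
    refine ⟨t / s, div_ne_zero ht hs, ?_, ?_⟩
    · rw [← hev]
      rw [bv_eq d b' hs] at h1
      have h6 : s ^ β1 * s ^ β2 * (s ^ d) ^ (e' + 1) = s ^ γ1 * s ^ γ2 := by
        rw [← pow_mul, ← pow_add, ← pow_add, ← pow_add]
        congr 1
        rw [mul_comm d]
        omega
      have h7 : t ^ β2 = s ^ β2 * (t / s) ^ β2 := by
        rw [← mul_pow, mul_div_cancel₀ _ hs]
      have h8 : t ^ γ2 = s ^ γ2 * (t / s) ^ γ2 := by
        rw [← mul_pow, mul_div_cancel₀ _ hs]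
      rw [h7, h8, neg_mul_eq_mul_neg, mul_pow] at h1
      refine mul_left_cancel₀ (mul_ne_zero (pow_ne_zero γ1 hs) (pow_ne_zero γ2 hs)) ?_
      linear_combination h1 - (t / s) ^ β2 * (-eval (t / s) (P0 d b')) ^ (e' + 1) * h6
    · rw [← hev]
      rw [bt_eq d b' hs, bv_eq d b' hs, hder] at h5
      refine mul_left_cancel₀ hsd ?_
      linear_combination h5
  · -- (h3)
    intro i hi k hk hbk _ _ h2 h3
    by_cases hkk : k = k0
    · subst hkk
      have h4 := hα3 i hi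
      apply h4
      right
      rw [Set.mem_ofPred_eq, mul_one, h3, hbk0]
    · rw [hb', Function.update_of_ne hkk] at hbk
      exact hb k hk hkk hbk h2

end SH

end MPb07157
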