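import Pool.Agent.Lib.MP_b07157_agQ.LineC

/-!
# Non-degeneracy of the polynomial of the shear lemma
-/

noncomputable section

namespace MPb07157

open MvPolynomial

namespace SH

open Line

variable {N : ℕ} {ι : Type} [DecidableEq ι]

/-- The exponent of `x^k y^(d-k)`. -/
def bx (x y : Fin N) (d k : ℕ) : Fin N →₀ ℕ := Finsupp.single x k + Finsupp.single y (d - k)

/-- The binary form `∑ b_k x^k y^(d-k)`. -/
def BB (x y : Fin N) (d : ℕ) (b : ℕ → ℂ) : MvPolynomial (Fin N) ℂ :=
  ∑ k ∈ Finset.range (d + 1), monomial (bx x y d k) (b k)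

/-- The polynomial `u (w - x^μ + B(x, y))`. -/
def EX (x y w u : Fin N) (μ : Fin N →₀ ℕ) (d : ℕ) (b : ℕ → ℂ) : MvPolynomial (Fin N) ℂ :=
  X u * (X w - monomial μ 1 + BB x y d b)

/-- The polynomial
`x^α ∏_D g_i^(m_i) ∏_T (x^β - r_i x^γ)^(m_i) + ∑_D v_i (g_i - x^β + r_i x^γ) + u (w - x^μ + B)`. -/
def SF (x y w u : Fin N) (μ : Fin N →₀ ℕ) (d : ℕ) (b : ℕ → ℂ) (α β γ : Fin N →₀ ℕ) (r : ι → ℂ)
    (m : ι → ℕ) (T D : Finset ι) (g v : ι → Fin N) : MvPolynomial (Fin N) ℂ :=
  FF α β γ r m T D g v + EX x y w u μ d b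

/-- The conditions on the variables. -/
structure Vars (x y z w u : Fin N) (μ : Fin N →₀ ℕ) (α β γ : Fin N →₀ ℕ) (D : Finset ι)
    (g v : ι → Fin N) : Prop where
  good : Line.Good α β γ D g v
  mg : ∀ i ∈ D, μ (g i) = 0
  mv : ∀ i ∈ D, μ (v i) = 0
  xg : ∀ i ∈ D, x ≠ g i
  xv : ∀ i ∈ D, x ≠ v i
  yg : ∀ i ∈ D, y ≠ g i
  yv : ∀ i ∈ D, y ≠ v i
  wg : ∀ i ∈ D, w ≠ g i
  wv : ∀ i ∈ D, w ≠ v i
  ug : ∀ i ∈ D, u ≠ g i
  uv : ∀ i ∈ D, u ≠ v i
  zg : ∀ i ∈ D, z ≠ g i
  zv : ∀ i ∈ D, z ≠ v i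
  xy : x ≠ y
  xz : x ≠ z
  xw : x ≠ w
  xu : x ≠ u
  yz : y ≠ z
  yw : y ≠ w
  yu : y ≠ u
  zw : z ≠ w
  zu : z ≠ u
  wu : w ≠ u
  muz : μ z ≠ 0
  muw : μ w = 0
  muu : μ u = 0
  az : α z = 0
  au : α u = 0
  bz : β z = 0
  bu : β u = 0
  bw : β w ≠ 0
  gz : γ z = 0
  gu : γ u = 0
  gw : γ w = 0
  bo : ∀ j, j ≠ x → j ≠ y → j ≠ w → β j = 0
  go : ∀ j, j ≠ x → j ≠ y → γ j = 0

/-- `B(s, t)`. -/
def bv (d : ℕ) (b : ℕ → ℂ) (s t : ℂ) : ℂ := ∑ k ∈ Finset.range (d + 1), b k * (s ^ k * t ^ (d - k))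

/-- `s ∂_s B(s, t)`. -/
def bs (d : ℕ) (b : ℕ → ℂ) (s t : ℂ) : ℂ :=
  ∑ k ∈ Finset.range (d + 1), (k : ℂ) * (b k * (s ^ k * t ^ (d - k)))

/-- `t ∂_t B(s, t)`. -/
def bt (d : ℕ) (b : ℕ → ℂ) (s t : ℂ) : ℂ :=
  ∑ k ∈ Finset.range (d + 1), ((d - k : ℕ) : ℂ) * (b k * (s ^ k * t ^ (d - k)))

/-- The conditions on the binary form: `B` has simple zeros in the torus, so has
`x^β1 y^β2 (-B)^e - r_i x^γ1 y^γ2`, and the extreme terms are in general position. -/
structure BCond (d : ℕ) (b : ℕ → ℂ) (r : ι → ℂ) (D : Finset ι) (β1 β2 e γ1 γ2 : ℕ) : Prop where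
  ne : ∃ k ≤ d, b k ≠ 0
  h1 : ∀ s t : ℂ, s ≠ 0 → t ≠ 0 → bv d b s t = 0 → bs d b s t = 0 → bt d b s t ≠ 0
  h2 : ∀ i ∈ D, ∀ s t : ℂ, s ≠ 0 → t ≠ 0 →
    s ^ β1 * t ^ β2 * (-bv d b s t) ^ e = r i * (s ^ γ1 * t ^ γ2) →
    (β1 : ℂ) * (s ^ β1 * t ^ β2 * (-bv d b s t) ^ e) -
      e * (s ^ β1 * t ^ β2 * (-bv d b s t) ^ (e - 1) * bs d b s t) =
        γ1 * (r i * (s ^ γ1 * t ^ γ2)) →
    (β2 : ℂ) * (s ^ β1 * t ^ β2 * (-bv d b s t) ^ e) -
      e * (s ^ β1 * t ^ β2 * (-bv d b s t) ^ (e - 1) * bt d b s t) ≠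
        γ2 * (r i * (s ^ γ1 * t ^ γ2))
  h3 : ∀ i ∈ D, ∀ k ≤ d, b k ≠ 0 → ((∀ l ≤ d, b l ≠ 0 → l ≤ k) ∨ (∀ l ≤ d, b l ≠ 0 → k ≤ l)) →
    γ1 = β1 + e * k → γ2 = β2 + e * (d - k) → r i ≠ (-b k) ^ e

theorem EX_eq (x y w u : Fin N) (μ : Fin N →₀ ℕ) (d : ℕ) (b : ℕ → ℂ) :
    EX x y w u μ d b = monomial (Finsupp.single u 1 + Finsupp.single w 1) 1 -
      monomial (Finsupp.single u 1 + μ) 1 +
      ∑ k ∈ Finset.range (d + 1), monomial (Finsupp.single u 1 + bx x y d k) (b k) := by
  unfold EX BB X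
  rw [mul_add, mul_sub, monomial_mul, monomial_mul, mul_one, Finset.mul_sum]
  congr 1
  refine Finset.sum_congr rfl fun k _ => ?_
  rw [monomial_mul, one_mul]

theorem E0_EX (S : Finset (Fin N →₀ ℕ)) (p : Fin N → ℂ) (x y w u : Fin N) (μ : Fin N →₀ ℕ) (d : ℕ)
    (b : ℕ → ℂ) :
    E0 S p (EX x y w u μ d b) = chi S p (Finsupp.single u 1 + Finsupp.single w 1) -
      chi S p (Finsupp.single u 1 + μ) +
      ∑ k ∈ Finset.range (d + 1), b k * chi S p (Finsupp.single u 1 + bx x y d k) := by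
  rw [EX_eq, map_add, map_sub, map_sum]
  simp only [E0_monomial, one_mul]

theorem E1_EX (S : Finset (Fin N →₀ ℕ)) (p : Fin N → ℂ) (j : Fin N) (x y w u : Fin N)
    (μ : Fin N →₀ ℕ) (d : ℕ) (b : ℕ → ℂ) :
    E1 S p j (EX x y w u μ d b) =
      ((Finsupp.single u 1 + Finsupp.single w 1 : Fin N →₀ ℕ) j : ℂ) *
        chi S p (Finsupp.single u 1 + Finsupp.single w 1) -
      ((Finsupp.single u 1 + μ : Fin N →₀ ℕ) j : ℂ) * chi S p (Finsupp.single u 1 + μ) +
      ∑ k ∈ Finset.range (d + 1), ((Finsupp.single u 1 + bx x y d k : Fin N →₀ ℕ) j : ℂ) *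
        (b k * chi S p (Finsupp.single u 1 + bx x y d k)) := by
  rw [EX_eq, map_add, map_sub, map_sum]
  simp only [E1_monomial, one_mul]
  congr 1
  refine Finset.sum_congr rfl fun k _ => ?_
  ring

theorem bx_x {x y : Fin N} (hxy : x ≠ y) (d k : ℕ) : bx x y d k x = k := by
  unfold bx
  rw [Finsupp.add_apply, Finsupp.single_eq_same, Finsupp.single_apply, if_neg hxy.symm, add_zero]

theorem bx_y {x y : Fin N} (hxy : x ≠ y) (d k : ℕ) : bx x y d k y = d - k := by
  unfold bx
  rw [Finsupp.add_apply, Finsupp.single_eq_same, Finsupp.single_apply, if_neg hxy, zero_add]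

theorem bx_of_ne {x y j : Fin N} (hx : x ≠ j) (hy : y ≠ j) (d k : ℕ) : bx x y d k j = 0 := by
  unfold bx
  rw [Finsupp.add_apply, Finsupp.single_apply, Finsupp.single_apply, if_neg hx, if_neg hy,
    add_zero]

theorem prod_bx {x y : Fin N} (hxy : x ≠ y) (p : Fin N → ℂ) (d k : ℕ) :
    ∏ j, p j ^ bx x y d k j = p x ^ k * p y ^ (d - k) := by
  classical
  rw [Finset.prod_eq_mul x y hxy]
  · rw [bx_x hxy, bx_y hxy]
  · intro c _ hc
    rw [bx_of_ne hc.1.symm hc.2.symm, pow_zero]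
  · intro h
    exact absurd (Finset.mem_univ x) h
  · intro h
    exact absurd (Finset.mem_univ y) h

omit [DecidableEq ι] in
theorem v0_of_ne (α : Fin N →₀ ℕ) (m : ι → ℕ) (D : Finset ι) {g : ι → Fin N} {j : Fin N}
    (h : ∀ i ∈ D, g i ≠ j) : Line.v0 α m D g j = α j := by
  unfold Line.v0
  rw [Finsupp.add_apply, Finsupp.finsetSum_apply, Finset.sum_eq_zero, add_zero]
  intro i hi
  rw [Finsupp.single_apply, if_neg (h i hi)]

theorem nondeg_inForm {x y z w u : Fin N} {μ : Fin N →₀ ℕ} {d : ℕ} {b : ℕ → ℂ}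
    {α β γ : Fin N →₀ ℕ} {r : ι → ℂ} {m : ι → ℕ} {D : Finset ι} {g v : ι → Fin N}
    (hV : Vars x y z w u μ α β γ D g v) (hr : ∀ i ∈ D, ∀ j ∈ D, r i = r j → i = j)
    (hB : BCond d b r D (β x) (β y) (β w) (γ x) (γ y)) {S : Finset (Fin N →₀ ℕ)}
    (hS : S ⊆ (SF x y w u μ d b α β γ r m ∅ D g v).support) (hS0 : S.Nonempty)
    (hK : (∀ k ≤ d, b k ≠ 0 → Finsupp.single u 1 + bx x y d k ∈ S) ∨
      ∃ k₀, ((∀ l ≤ d, b l ≠ 0 → l ≤ k₀) ∨ (∀ l ≤ d, b l ≠ 0 → k₀ ≤ l)) ∧
        ∀ k ≤ d, b k ≠ 0 → Finsupp.single u 1 + bx x y d k ∈ S → k = k₀) :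
    IsNondeg (inForm (SF x y w u μ d b α β γ r m ∅ D g v) S) := by
  classical
  intro p hp h0
  by_contra hcon
  push Not at hcon
  have hg := hV.good
  have e0 : E0 S p (SF x y w u μ d b α β γ r m ∅ D g v) = 0 := h0
  have e1 : ∀ j, E1 S p j (SF x y w u μ d b α β γ r m ∅ D g v) = 0 := by
    intro j
    show p j * eval p (pderiv j (inForm (SF x y w u μ d b α β γ r m ∅ D g v) S)) = 0
    rw [hcon j, mul_zero]
  unfold SF at e0 e1
  rw [map_add, E0_FF, E0_EX] at e0
  simp only [map_add, E1_FF, E1_EX] at e1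
  -- abbreviations
  set c0 := chi S p (Line.v0 α m D g) with hc0
  set c1 : ι → ℂ := fun i => chi S p (Finsupp.single (v i) 1 + Finsupp.single (g i) 1) with hc1
  set c2 : ι → ℂ := fun i => chi S p (Finsupp.single (v i) 1 + β) with hc2
  set c3 : ι → ℂ := fun i => r i * chi S p (Finsupp.single (v i) 1 + γ) with hc3
  set d1 := chi S p (Finsupp.single u 1 + Finsupp.single w 1) with hd1
  set d2 := chi S p (Finsupp.single u 1 + μ) with hd2
  set ek : ℕ → ℂ := fun k => b k * chi S p (Finsupp.single u 1 + bx x y d k) with hek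
  have e1' : ∀ j, ((Line.v0 α m D g j : ℂ) * c0 +
      ∑ i ∈ D, (((Finsupp.single (v i) 1 + Finsupp.single (g i) 1 : Fin N →₀ ℕ) j : ℂ) * c1 i -
        ((Finsupp.single (v i) 1 + β : Fin N →₀ ℕ) j : ℂ) * c2 i +
        ((Finsupp.single (v i) 1 + γ : Fin N →₀ ℕ) j : ℂ) * c3 i)) +
      (((Finsupp.single u 1 + Finsupp.single w 1 : Fin N →₀ ℕ) j : ℂ) * d1 -
        ((Finsupp.single u 1 + μ : Fin N →₀ ℕ) j : ℂ) * d2 +
        ∑ k ∈ Finset.range (d + 1), ((Finsupp.single u 1 + bx x y d k : Fin N →₀ ℕ) j : ℂ) *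
          ek k) = 0 := by
    intro j
    rw [← e1 j]
    congr 2
    refine Finset.sum_congr rfl fun i _ => ?_
    simp only [hc1, hc2, hc3]
    ring
  have e0' : (c0 + ∑ i ∈ D, (c1 i - c2 i + c3 i)) +
      (d1 - d2 + ∑ k ∈ Finset.range (d + 1), ek k) = 0 := e0
  -- the part of the equations coming from `EX` vanishes for other variables
  have exz : ∀ j, u ≠ j → w ≠ j → x ≠ j → y ≠ j → μ j = 0 →
      (((Finsupp.single u 1 + Finsupp.single w 1 : Fin N →₀ ℕ) j : ℂ) * d1 -
        ((Finsupp.single u 1 + μ : Fin N →₀ ℕ) j : ℂ) * d2 +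
        ∑ k ∈ Finset.range (d + 1), ((Finsupp.single u 1 + bx x y d k : Fin N →₀ ℕ) j : ℂ) *
          ek k) = 0 := by
    intro j h1 h2 h3 h4 h5
    rw [Finset.sum_eq_zero]
    · rw [Finsupp.add_apply, Finsupp.add_apply, Finsupp.single_apply, Finsupp.single_apply,
        if_neg h1, if_neg h2, h5]
      simp
    · intro k _
      rw [Finsupp.add_apply, Finsupp.single_apply, if_neg h1, bx_of_ne h3 h4]
      simp
  -- the equation of `v_i`
  have hv : ∀ i ∈ D, c1 i - c2 i + c3 i = 0 := by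
    intro i hi
    have h := e1' (v i)
    rw [exz (v i) (hV.uv i hi) (hV.wv i hi) (hV.xv i hi) (hV.yv i hi) (hV.mv i hi), add_zero,
      v0_of_ne α m D (fun k hk => hg.zw k hk i hi), hg.aw i hi, Nat.cast_zero, zero_mul, zero_add,
      Finset.sum_eq_single i] at h
    · rw [Finsupp.add_apply, Finsupp.add_apply, Finsupp.add_apply, Finsupp.single_eq_same,
        hg.bw i hi, hg.gw i hi, Finsupp.single_apply, if_neg (hg.zw i hi i hi)] at h
      simpa using h
    · intro k hk hki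
      have hwk : v k ≠ v i := fun h => hki (hg.ww k hk i hi h)
      rw [Finsupp.add_apply, Finsupp.add_apply, Finsupp.add_apply, hg.bw i hi, hg.gw i hi,
        Finsupp.single_apply, if_neg hwk, Finsupp.single_apply, if_neg (hg.zw k hk i hi)]
      simp
    · intro h'
      exact absurd hi h'
  -- the equation of `u`
  have hu : d1 - d2 + ∑ k ∈ Finset.range (d + 1), ek k = 0 := by
    have h := e1' u
    rw [v0_of_ne α m D (fun k hk => (hV.ug k hk).symm), hV.au, Nat.cast_zero, zero_mul, zero_add,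
      Finset.sum_eq_zero, zero_add] at h
    · rw [Finsupp.add_apply, Finsupp.add_apply, Finsupp.single_eq_same, Finsupp.single_apply,
        if_neg hV.wu, hV.muu] at h
      rw [← h]
      congr 1
      · simp
      · refine Finset.sum_congr rfl fun k _ => ?_
        rw [Finsupp.add_apply, Finsupp.single_eq_same, bx_of_ne hV.xu hV.yu]
        simp
    · intro i hi
      rw [Finsupp.add_apply, Finsupp.add_apply, Finsupp.add_apply, hV.bu, hV.gu,
        Finsupp.single_apply, if_neg (hV.uv i hi).symm, Finsupp.single_apply,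
        if_neg (hV.ug i hi).symm]
      simp
  have h00 : c0 = 0 := by
    rw [Finset.sum_eq_zero hv, hu, add_zero, add_zero] at e0'
    exact e0'
  -- the equation of `g_i`
  have hz : ∀ i ∈ D, c1 i = 0 := by
    intro i hi
    have h := e1' (g i)
    rw [exz (g i) (hV.ug i hi) (hV.wg i hi) (hV.xg i hi) (hV.yg i hi) (hV.mg i hi), add_zero,
      h00, mul_zero, zero_add, Finset.sum_eq_single i] at h
    · rw [Finsupp.add_apply, Finsupp.add_apply, Finsupp.add_apply, Finsupp.single_eq_same,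
        hg.bz i hi, hg.gz i hi, Finsupp.single_apply, if_neg (hg.zw i hi i hi).symm] at h
      simpa using h
    · intro k hk hki
      have hzk : g k ≠ g i := fun h => hki (hg.zz k hk i hi h)
      rw [Finsupp.add_apply, Finsupp.add_apply, Finsupp.add_apply, hg.bz i hi, hg.gz i hi,
        Finsupp.single_apply, if_neg (hg.zw i hi k hk).symm, Finsupp.single_apply, if_neg hzk]
      simp
    · intro h'
      exact absurd hi h'
  have h23 : ∀ i ∈ D, c3 i = c2 i := by
    intro i hi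
    have := hv i hi
    rw [hz i hi] at this
    linear_combination this
  -- the equation of `z`
  have hd20 : d2 = 0 := by
    have h := e1' z
    rw [v0_of_ne α m D (fun k hk => (hV.zg k hk).symm), hV.az, Nat.cast_zero, zero_mul, zero_add,
      Finset.sum_eq_zero, zero_add, Finset.sum_eq_zero] at h
    · rw [Finsupp.add_apply, Finsupp.add_apply, Finsupp.single_apply, if_neg hV.zu.symm,
        Finsupp.single_apply, if_neg hV.zw.symm] at h
      simp only [add_zero, Nat.cast_zero, zero_mul, zero_add, zero_sub, neg_eq_zero,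
        mul_eq_zero, Nat.cast_eq_zero] at h
      exact h.resolve_left hV.muz
    · intro k _
      rw [Finsupp.add_apply, Finsupp.single_apply, if_neg hV.zu.symm, bx_of_ne hV.xz hV.yz]
      simp
    · intro i hi
      rw [Finsupp.add_apply, Finsupp.add_apply, Finsupp.add_apply, hV.bz, hV.gz,
        Finsupp.single_apply, if_neg (hV.zv i hi).symm, Finsupp.single_apply,
        if_neg (hV.zg i hi).symm]
      simp
  -- the equation of `w`
  have hw : d1 = β w * ∑ i ∈ D, c2 i := by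
    have h := e1' w
    rw [h00, mul_zero, zero_add, hd20, mul_zero, sub_zero] at h
    have h1 : ∑ k ∈ Finset.range (d + 1),
        ((Finsupp.single u 1 + bx x y d k : Fin N →₀ ℕ) w : ℂ) * ek k = 0 := by
      refine Finset.sum_eq_zero fun k _ => ?_
      rw [Finsupp.add_apply, Finsupp.single_apply, if_neg hV.wu.symm, bx_of_ne hV.xw hV.yw]
      simp
    have h2 : ∑ i ∈ D, (((Finsupp.single (v i) 1 + Finsupp.single (g i) 1 : Fin N →₀ ℕ) w : ℂ) *
          c1 i - ((Finsupp.single (v i) 1 + β : Fin N →₀ ℕ) w : ℂ) * c2 i +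
        ((Finsupp.single (v i) 1 + γ : Fin N →₀ ℕ) w : ℂ) * c3 i) = - (β w * ∑ i ∈ D, c2 i) := by
      rw [Finset.mul_sum, ← Finset.sum_neg_distrib]
      refine Finset.sum_congr rfl fun i hi => ?_
      rw [Finsupp.add_apply, Finsupp.add_apply, Finsupp.add_apply, hV.gw,
        Finsupp.single_apply, if_neg (hV.wv i hi).symm, Finsupp.single_apply,
        if_neg (hV.wg i hi).symm]
      simp
    rw [h1, h2, Finsupp.add_apply, Finsupp.single_eq_same, Finsupp.single_apply,
      if_neg hV.wu.symm] at h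
    push_cast at h
    linear_combination h
  -- the equations of `x` and `y`
  have hxy : ∀ j, u ≠ j → w ≠ j → (∀ i ∈ D, v i ≠ j) → (∀ i ∈ D, g i ≠ j) →
      ((γ j : ℂ) - β j) * ∑ i ∈ D, c2 i +
        ∑ k ∈ Finset.range (d + 1), (bx x y d k j : ℂ) * ek k = 0 := by
    intro j h1 h2 h3 h4
    have h := e1' j
    rw [h00, mul_zero, zero_add, hd20, mul_zero, sub_zero] at h
    have h5 : ∑ k ∈ Finset.range (d + 1),
        ((Finsupp.single u 1 + bx x y d k : Fin N →₀ ℕ) j : ℂ) * ek k =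
        ∑ k ∈ Finset.range (d + 1), (bx x y d k j : ℂ) * ek k := by
      refine Finset.sum_congr rfl fun k _ => ?_
      rw [Finsupp.add_apply, Finsupp.single_apply, if_neg h1, zero_add]
    have h6 : ∑ i ∈ D, (((Finsupp.single (v i) 1 + Finsupp.single (g i) 1 : Fin N →₀ ℕ) j : ℂ) *
          c1 i - ((Finsupp.single (v i) 1 + β : Fin N →₀ ℕ) j : ℂ) * c2 i +
        ((Finsupp.single (v i) 1 + γ : Fin N →₀ ℕ) j : ℂ) * c3 i) =
        ((γ j : ℂ) - β j) * ∑ i ∈ D, c2 i := by
      rw [Finset.mul_sum]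
      refine Finset.sum_congr rfl fun i hi => ?_
      rw [h23 i hi, Finsupp.add_apply, Finsupp.add_apply, Finsupp.add_apply,
        Finsupp.single_apply, if_neg (h3 i hi), Finsupp.single_apply, if_neg (h4 i hi)]
      push_cast
      ring
    rw [h5, h6, Finsupp.add_apply, Finsupp.single_apply, Finsupp.single_apply, if_neg h1,
      if_neg h2] at h
    push_cast at h
    linear_combination h
  have hx := hxy x hV.xu.symm hV.xw.symm (fun i hi => (hV.xv i hi).symm)
    (fun i hi => (hV.xg i hi).symm)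
  have hy := hxy y hV.yu.symm hV.yw.symm (fun i hi => (hV.yv i hi).symm)
    (fun i hi => (hV.yg i hi).symm)
  simp only [bx_x hV.xy] at hx
  simp only [bx_y hV.xy] at hy
  rw [hd20, sub_zero] at hu
  have hchi : ∀ q ∈ S, chi S p q = ∏ j, p j ^ q j := by
    intro q hq
    unfold chi
    rw [if_pos hq]
  have hchi0 : ∀ q ∈ S, chi S p q ≠ 0 := by
    intro q hq
    rw [hchi q hq]
    exact Finset.prod_ne_zero_iff.2 fun j _ => pow_ne_zero _ (hp j)
  have hmem : ∀ q, chi S p q ≠ 0 → q ∈ S := by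
    intro q hq
    by_contra h'
    unfold chi at hq
    rw [if_neg h'] at hq
    exact hq rfl
  have hsing : ∀ (j : Fin N) (q : Fin N →₀ ℕ),
      ∏ i, p i ^ (Finsupp.single j 1 + q : Fin N →₀ ℕ) i = p j * ∏ i, p i ^ q i := by
    intro j q
    simp only [Finsupp.add_apply, pow_add, Finset.prod_mul_distrib]
    congr 1
    rw [Finset.prod_eq_single j]
    · rw [Finsupp.single_eq_same, pow_one]
    · intro i _ hij
      rw [Finsupp.single_apply, if_neg hij.symm, pow_zero]
    · intro h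
      exact absurd (Finset.mem_univ j) h
  have hekS : ∀ k, Finsupp.single u 1 + bx x y d k ∈ S →
      ek k = p u * (b k * (p x ^ k * p y ^ (d - k))) := by
    intro k hk
    simp only [hek]
    rw [hchi _ hk, hsing, prod_bx hV.xy]
    ring
  have hekn : ∀ k, (b k ≠ 0 → Finsupp.single u 1 + bx x y d k ∉ S) → ek k = 0 := by
    intro k hk
    simp only [hek]
    by_cases h : b k = 0
    · rw [h, zero_mul]
    · have h1 := hk h
      unfold chi
      rw [if_neg h1, mul_zero]
  -- the case in which all terms of `B` are present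
  have hall : (∀ k ≤ d, b k ≠ 0 → Finsupp.single u 1 + bx x y d k ∈ S) →
      ∀ k ∈ Finset.range (d + 1), ek k = p u * (b k * (p x ^ k * p y ^ (d - k))) := by
    intro h k hk
    by_cases hb : b k = 0
    · simp only [hek]
      rw [hb]
      ring
    · exact hekS k (h k (Nat.lt_succ_iff.1 (Finset.mem_range.1 hk)) hb)
  have hallv : (∀ k ≤ d, b k ≠ 0 → Finsupp.single u 1 + bx x y d k ∈ S) →
      ∑ k ∈ Finset.range (d + 1), ek k = p u * bv d b (p x) (p y) ∧
      ∑ k ∈ Finset.range (d + 1), (k : ℂ) * ek k = p u * bs d b (p x) (p y) ∧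
      ∑ k ∈ Finset.range (d + 1), ((d - k : ℕ) : ℂ) * ek k = p u * bt d b (p x) (p y) := by
    intro h
    have h1 := hall h
    unfold bv bs bt
    rw [Finset.mul_sum, Finset.mul_sum, Finset.mul_sum]
    refine ⟨Finset.sum_congr rfl fun k hk => ?_, Finset.sum_congr rfl fun k hk => ?_,
      Finset.sum_congr rfl fun k hk => ?_⟩
    · rw [h1 k hk]
    · rw [h1 k hk]; ring
    · rw [h1 k hk]; ring
  -- the monomials
  set P1 := p x ^ β x * p y ^ β y with hP1
  have hMβ : ∏ j, p j ^ β j = P1 * p w ^ β w := by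
    have h1 : ∏ j, p j ^ β j = ∏ j ∈ ({x, y, w} : Finset (Fin N)), p j ^ β j := by
      symm
      apply Finset.prod_subset (Finset.subset_univ _)
      intro j _ hj
      simp only [Finset.mem_insert, Finset.mem_singleton, not_or] at hj
      rw [hV.bo j hj.1 hj.2.1 hj.2.2, pow_zero]
    rw [h1, Finset.prod_insert, Finset.prod_insert, Finset.prod_singleton, hP1]
    · ring
    · simp only [Finset.mem_singleton]
      exact hV.yw
    · simp only [Finset.mem_insert, Finset.mem_singleton, not_or]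
      exact ⟨hV.xy, hV.xw⟩
  have hMγ : ∏ j, p j ^ γ j = p x ^ γ x * p y ^ γ y := by
    have h1 : ∏ j, p j ^ γ j = ∏ j ∈ ({x, y} : Finset (Fin N)), p j ^ γ j := by
      symm
      apply Finset.prod_subset (Finset.subset_univ _)
      intro j _ hj
      simp only [Finset.mem_insert, Finset.mem_singleton, not_or] at hj
      rw [hV.go j hj.1 hj.2, pow_zero]
    rw [h1, Finset.prod_insert, Finset.prod_singleton]
    simp only [Finset.mem_singleton]
    exact hV.xy
  have hMγ0 : p x ^ γ x * p y ^ γ y ≠ 0 :=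
    mul_ne_zero (pow_ne_zero _ (hp x)) (pow_ne_zero _ (hp y))
  have hM : ∀ i ∈ D, c2 i ≠ 0 → c2 i = p (v i) * (P1 * p w ^ β w) ∧
      P1 * p w ^ β w = r i * (p x ^ γ x * p y ^ γ y) := by
    intro i hi h
    have h3 : c3 i ≠ 0 := by rw [h23 i hi]; exact h
    have hb : Finsupp.single (v i) 1 + β ∈ S := hmem _ h
    have hc : Finsupp.single (v i) 1 + γ ∈ S := hmem _ (right_ne_zero_of_mul h3)
    have h4 := h23 i hi
    simp only [hc2, hc3] at h4 ⊢
    rw [hchi _ hb, hchi _ hc, hsing, hsing, hMβ, hMγ] at h4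
    rw [hchi _ hb, hsing, hMβ]
    refine ⟨rfl, ?_⟩
    apply mul_left_cancel₀ (hp (v i))
    rw [← h4]
    ring
  have huniq : ∀ i ∈ D, ∀ k ∈ D, c2 i ≠ 0 → c2 k ≠ 0 → i = k := by
    intro i hi k hk h1 h2
    apply hr i hi k hk
    apply mul_right_cancel₀ hMγ0
    rw [← (hM i hi h1).2, ← (hM k hk h2).2]
  by_cases hc : ∃ i ∈ D, c2 i ≠ 0
  · obtain ⟨i, hi, hci⟩ := hc
    have hσ : ∑ k ∈ D, c2 k = c2 i := by
      rw [Finset.sum_eq_single i]
      · intro k hk hki
        by_contra h'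
        exact hki (huniq k hk i hi h' hci)
      · intro h'
        exact absurd hi h'
    obtain ⟨hci1, hci2⟩ := hM i hi hci
    rw [hσ] at hw hx hy
    have hd1' : d1 ≠ 0 := by
      rw [hw]
      exact mul_ne_zero (by exact_mod_cast hV.bw) hci
    have hd1v : d1 = p u * p w := by
      have h1 := hmem _ hd1'
      rw [hd1, hchi _ h1, hsing]
      congr 1
      rw [Finset.prod_eq_single w]
      · rw [Finsupp.single_eq_same, pow_one]
      · intro j _ hj
        rw [Finsupp.single_apply, if_neg hj.symm, pow_zero]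
      · intro h
        exact absurd (Finset.mem_univ w) h
    rcases hK with hK | ⟨k₀, hk₀, hK⟩
    · obtain ⟨a1, a2, a3⟩ := hallv hK
      rw [a1] at hu
      rw [a2] at hx
      rw [a3] at hy
      have hpw : p w = -bv d b (p x) (p y) := by
        apply mul_left_cancel₀ (hp u)
        linear_combination hu - hd1v
      obtain ⟨e, he⟩ : ∃ e, β w = e + 1 := Nat.exists_eq_succ_of_ne_zero hV.bw
      have hpu : p u = (e + 1) * (p (v i) * (P1 * p w ^ e)) := by
        apply mul_right_cancel₀ (hp w)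
        rw [← hd1v, hw, hci1, he]
        push_cast
        ring
      have hB2 := hB.h2 i hi (p x) (p y) (hp x) (hp y)
      rw [← hpw, he, Nat.add_sub_cancel, ← he, ← hP1] at hB2
      refine hB2 hci2 ?_ ?_
      · rw [← hci2]
        apply mul_left_cancel₀ (hp (v i))
        rw [hci1, hpu] at hx
        rw [he] at hx ⊢
        push_cast
        linear_combination -hx
      · rw [← hci2]
        apply mul_left_cancel₀ (hp (v i))
        rw [hci1, hpu] at hy
        rw [he] at hy ⊢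
        push_cast
        linear_combination -hy
    · have hz0 : ∀ k ∈ Finset.range (d + 1), k ≠ k₀ → ek k = 0 := by
        intro k hk hkk
        apply hekn
        intro hb hS'
        exact hkk (hK k (Nat.lt_succ_iff.1 (Finset.mem_range.1 hk)) hb hS')
      have hk0r : k₀ ∈ Finset.range (d + 1) := by
        by_contra h'
        rw [Finset.sum_eq_zero fun k hk => hz0 k hk (by rintro rfl; exact h' hk), add_zero] at hu
        exact hd1' hu
      have hsum : ∀ q : ℕ → ℂ, ∑ k ∈ Finset.range (d + 1), q k * ek k = q k₀ * ek k₀ := by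
        intro q
        rw [Finset.sum_eq_single k₀]
        · intro k hk hkk
          rw [hz0 k hk hkk, mul_zero]
        · intro h'
          exact absurd hk0r h'
      have hu' : d1 + ek k₀ = 0 := by
        have := hsum (fun _ => 1)
        simp only [one_mul] at this
        rw [← this]
        exact hu
      rw [hsum (fun k => (k : ℂ))] at hx
      rw [hsum (fun k => ((d - k : ℕ) : ℂ))] at hy
      have hek0 : ek k₀ ≠ 0 := by
        intro h'
        rw [h', add_zero] at hu'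
        exact hd1' hu'
      have hbk : b k₀ ≠ 0 := left_ne_zero_of_mul hek0
      have hbS : Finsupp.single u 1 + bx x y d k₀ ∈ S := hmem _ (right_ne_zero_of_mul hek0)
      have hkd : k₀ ≤ d := Nat.lt_succ_iff.1 (Finset.mem_range.1 hk0r)
      have he : ek k₀ = - (β w * c2 i) := by
        rw [← hw]
        linear_combination hu'
      have hgx : γ x = β x + β w * k₀ := by
        have h1 : ((γ x : ℂ) - (β x + β w * k₀)) * c2 i = 0 := by
          rw [he] at hx
          linear_combination hx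
        rw [mul_eq_zero, sub_eq_zero] at h1
        exact_mod_cast h1.resolve_right hci
      have hgy : γ y = β y + β w * (d - k₀) := by
        have h1 : ((γ y : ℂ) - (β y + β w * ((d - k₀ : ℕ) : ℂ))) * c2 i = 0 := by
          rw [he] at hy
          linear_combination hy
        rw [mul_eq_zero, sub_eq_zero] at h1
        exact_mod_cast h1.resolve_right hci
      refine hB.h3 i hi k₀ hkd hbk hk₀ hgx hgy ?_
      have hpw : p w = -b k₀ * (p x ^ k₀ * p y ^ (d - k₀)) := by
        apply mul_left_cancel₀ (hp u)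
        rw [hekS k₀ hbS] at hu'
        linear_combination hu' - hd1v
      apply mul_right_cancel₀ hMγ0
      rw [← hci2, hpw, hgx, hgy, hP1, mul_pow, mul_pow, ← pow_mul, ← pow_mul, pow_add, pow_add,
        mul_comm k₀, mul_comm (d - k₀)]
      ring
  · push Not at hc
    have hσ : ∑ k ∈ D, c2 k = 0 := Finset.sum_eq_zero hc
    rw [hσ, mul_zero] at hw
    rw [hσ, mul_zero, zero_add] at hx hy
    rw [hw, zero_add] at hu
    have hek0 : ∀ k ∈ Finset.range (d + 1), ek k = 0 := by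
      rcases hK with hK | ⟨k₀, hk₀, hK⟩
      · exfalso
        obtain ⟨a1, a2, a3⟩ := hallv hK
        rw [a1] at hu
        rw [a2] at hx
        rw [a3] at hy
        exact hB.h1 (p x) (p y) (hp x) (hp y) ((mul_eq_zero.1 hu).resolve_left (hp u))
          ((mul_eq_zero.1 hx).resolve_left (hp u)) ((mul_eq_zero.1 hy).resolve_left (hp u))
      · have hz0 : ∀ k ∈ Finset.range (d + 1), k ≠ k₀ → ek k = 0 := by
          intro k hk hkk
          apply hekn
          intro hb hS'
          exact hkk (hK k (Nat.lt_succ_iff.1 (Finset.mem_range.1 hk)) hb hS')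
        intro k hk
        by_cases hkk : k = k₀
        · rw [hkk] at hk ⊢
          rw [← hu, Finset.sum_eq_single k₀]
          · intro l hl hlk
            exact hz0 l hl hlk
          · intro h'
            exact absurd hk h'
        · exact hz0 k hk hkk
    -- conclusion
    obtain ⟨q, hq⟩ := hS0
    have hqs := mem_support_iff.1 (hS hq)
    apply hqs
    unfold SF
    rw [FF_empty, EX_eq, coeff_add, coeff_add, coeff_sum, coeff_add, coeff_sub, coeff_sum]
    have t0 : coeff q (monomial (Line.v0 α m D g) (1 : ℂ)) = 0 := by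
      rw [coeff_monomial, if_neg]
      rintro rfl
      exact hchi0 _ hq h00
    have t1 : coeff q (monomial (Finsupp.single u 1 + Finsupp.single w 1) (1 : ℂ)) = 0 := by
      rw [coeff_monomial, if_neg]
      rintro rfl
      exact hchi0 _ hq hw
    have t2 : coeff q (monomial (Finsupp.single u 1 + μ) (1 : ℂ)) = 0 := by
      rw [coeff_monomial, if_neg]
      rintro rfl
      exact hchi0 _ hq hd20
    have t3 : ∑ k ∈ Finset.range (d + 1),
        coeff q (monomial (Finsupp.single u 1 + bx x y d k) (b k)) = 0 := by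
      refine Finset.sum_eq_zero fun k hk => ?_
      rw [coeff_monomial]
      by_cases h : Finsupp.single u 1 + bx x y d k = q
      · rw [if_pos h]
        have h1 := hek0 k hk
        simp only [hek] at h1
        rw [h] at h1
        exact (mul_eq_zero.1 h1).resolve_right (hchi0 _ hq)
      · rw [if_neg h]
    have t4 : ∑ i ∈ D, coeff q (monomial (Finsupp.single (v i) 1 + Finsupp.single (g i) 1) 1 -
        monomial (Finsupp.single (v i) 1 + β) 1 +
          monomial (Finsupp.single (v i) 1 + γ) (r i)) = 0 := by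
      refine Finset.sum_eq_zero fun i hi => ?_
      rw [coeff_add, coeff_sub, coeff_monomial, coeff_monomial, coeff_monomial]
      have s1 : Finsupp.single (v i) 1 + Finsupp.single (g i) 1 ≠ q := by
        rintro rfl
        exact hchi0 _ hq (hz i hi)
      have s2 : Finsupp.single (v i) 1 + β ≠ q := by
        rintro rfl
        exact hchi0 _ hq (hc i hi)
      rw [if_neg s1, if_neg s2]
      by_cases s3 : Finsupp.single (v i) 1 + γ = q
      · rw [if_pos s3]
        have h3 := h23 i hi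
        rw [hc i hi] at h3
        simp only [hc3] at h3
        rw [s3, mul_eq_zero] at h3
        rcases h3 with h3 | h3
        · rw [h3]; ring
        · exact absurd h3 (hchi0 _ hq)
      · rw [if_neg s3]; ring
    rw [t0, t1, t2, t3, t4]
    ring

/-! ### The faces -/

/-- All terms of `u B` are in `A`, or at most one, and this is an extreme one. -/
def KC (x y u : Fin N) (d : ℕ) (b : ℕ → ℂ) (A : Finset (Fin N →₀ ℕ)) : Prop :=
  (∀ k ≤ d, b k ≠ 0 → Finsupp.single u 1 + bx x y d k ∈ A) ∨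
    ∃ k₀, ((∀ l ≤ d, b l ≠ 0 → l ≤ k₀) ∨ (∀ l ≤ d, b l ≠ 0 → k₀ ≤ l)) ∧
      ∀ k ≤ d, b k ≠ 0 → Finsupp.single u 1 + bx x y d k ∈ A → k = k₀

theorem zd_single_add (ω : Fin N → ℤ) (j : Fin N) (q : Fin N →₀ ℕ) :
    MPb07157F.zd ω (Finsupp.single j 1 + q) = ω j + MPb07157F.zd ω q := by
  classical
  unfold MPb07157F.zd
  have h1 : ∀ i, ω i * ((Finsupp.single j 1 + q : Fin N →₀ ℕ) i : ℤ) =
      ω i * ((Finsupp.single j 1 : Fin N →₀ ℕ) i : ℤ) + ω i * (q i : ℤ) := by
    intro i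
    rw [Finsupp.add_apply]
    push_cast
    ring
  rw [Finset.sum_congr rfl fun i _ => h1 i, Finset.sum_add_distrib]
  congr 1
  rw [Finset.sum_eq_single j]
  · rw [Finsupp.single_eq_same]
    simp
  · intro i _ hij
    rw [Finsupp.single_apply, if_neg hij.symm]
    simp
  · intro h
    exact absurd (Finset.mem_univ j) h

theorem zd_bx {x y : Fin N} (hxy : x ≠ y) (ω : Fin N → ℤ) (d k : ℕ) :
    MPb07157F.zd ω (bx x y d k) = ω x * k + ω y * ((d - k : ℕ) : ℤ) := by
  classical
  unfold MPb07157F.zd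
  rw [Finset.sum_eq_add x y hxy]
  · rw [bx_x hxy, bx_y hxy]
  · intro c _ hc
    rw [bx_of_ne hc.1.symm hc.2.symm]
    simp
  · intro h
    exact absurd (Finset.mem_univ x) h
  · intro h
    exact absurd (Finset.mem_univ y) h

theorem KC.face {x y u : Fin N} (hxy : x ≠ y) {d : ℕ} {b : ℕ → ℂ} (hb : ∃ k ≤ d, b k ≠ 0)
    {A : Finset (Fin N →₀ ℕ)} (h : KC x y u d b A) (ω : Fin N → ℤ) :
    KC x y u d b (MPb07157F.fc A ω) := by
  classical
  rcases h with h | ⟨k₀, hk₀, h⟩
  · have hne : ((Finset.range (d + 1)).filter fun k => b k ≠ 0).Nonempty := by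
      obtain ⟨k, hk, hbk⟩ := hb
      exact ⟨k, Finset.mem_filter.2 ⟨Finset.mem_range.2 (Nat.lt_succ_of_le hk), hbk⟩⟩
    obtain ⟨k1, hk1, hmax⟩ := Finset.exists_max_image _ (fun k => k) hne
    obtain ⟨k2, hk2, hmin⟩ := Finset.exists_min_image _ (fun k => k) hne
    rw [Finset.mem_filter, Finset.mem_range, Nat.lt_succ_iff] at hk1 hk2
    have hmax' : ∀ l ≤ d, b l ≠ 0 → l ≤ k1 := fun l hl hbl =>
      hmax l (Finset.mem_filter.2 ⟨Finset.mem_range.2 (Nat.lt_succ_of_le hl), hbl⟩)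
    have hmin' : ∀ l ≤ d, b l ≠ 0 → k2 ≤ l := fun l hl hbl =>
      hmin l (Finset.mem_filter.2 ⟨Finset.mem_range.2 (Nat.lt_succ_of_le hl), hbl⟩)
    have hwt : ∀ k l : ℕ, k ≤ d → l ≤ d → b k ≠ 0 → b l ≠ 0 →
        Finsupp.single u 1 + bx x y d k ∈ MPb07157F.fc A ω → 
        ω x * k + ω y * ((d - k : ℕ) : ℤ) ≤ ω x * l + ω y * ((d - l : ℕ) : ℤ) := by
      intro k l hk hl hbk hbl hmem
      unfold MPb07157F.fc at hmem
      have h1 := (Finset.mem_filter.1 hmem).2 _ (h l hl hbl)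
      rw [zd_single_add, zd_single_add, zd_bx hxy, zd_bx hxy] at h1
      linarith
    rcases lt_trichotomy (ω x) (ω y) with hlt | heq | hgt
    · right
      refine ⟨k1, Or.inl hmax', fun k hk hbk hmem => ?_⟩
      have h1 := hwt k k1 hk hk1.1 hbk hk1.2 hmem
      have h2 := hmax' k hk hbk
      by_contra hne'
      have h3 : k < k1 := lt_of_le_of_ne h2 hne'
      have h4 : ((d - k : ℕ) : ℤ) = (d : ℤ) - k := by omega
      have h5 : ((d - k1 : ℕ) : ℤ) = (d : ℤ) - k1 := by
        have := hk1.1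
        omega
      rw [h4, h5] at h1
      have h6 : (k : ℤ) < k1 := by exact_mod_cast h3
      nlinarith
    · by_cases hex : ∃ k ≤ d, b k ≠ 0 ∧ Finsupp.single u 1 + bx x y d k ∈ MPb07157F.fc A ω
      · obtain ⟨k, hk, hbk, hmem⟩ := hex
        left
        intro l hl hbl
        unfold MPb07157F.fc at hmem ⊢
        rw [Finset.mem_filter] at hmem ⊢
        refine ⟨h l hl hbl, fun q hq => ?_⟩
        have h1 := hmem.2 q hq
        rw [zd_single_add, zd_bx hxy, heq] at h1 ⊢
        have h4 : ((d - k : ℕ) : ℤ) = (d : ℤ) - k := by omega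
        have h5 : ((d - l : ℕ) : ℤ) = (d : ℤ) - l := by omega
        rw [h4] at h1
        rw [h5]
        linarith
      · right
        push Not at hex
        exact ⟨k1, Or.inl hmax', fun k hk hbk hmem => absurd hmem (hex k hk hbk)⟩
    · right
      refine ⟨k2, Or.inr hmin', fun k hk hbk hmem => ?_⟩
      have h1 := hwt k k2 hk hk2.1 hbk hk2.2 hmem
      have h2 := hmin' k hk hbk
      by_contra hne'
      have h3 : k2 < k := lt_of_le_of_ne h2 (Ne.symm hne')
      have h4 : ((d - k : ℕ) : ℤ) = (d : ℤ) - k := by omega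
      have h5 : ((d - k2 : ℕ) : ℤ) = (d : ℤ) - k2 := by
        have := hk2.1
        omega
      rw [h4, h5] at h1
      have h6 : (k2 : ℤ) < k := by exact_mod_cast h3
      nlinarith
  · right
    refine ⟨k₀, hk₀, fun k hk hbk hmem => h k hk hbk ?_⟩
    unfold MPb07157F.fc at hmem
    exact (Finset.mem_filter.1 hmem).1

theorem coeff_SF_bx {x y z w u : Fin N} {μ : Fin N →₀ ℕ} {d : ℕ} {b : ℕ → ℂ}
    {α β γ : Fin N →₀ ℕ} {r : ι → ℂ} {m : ι → ℕ} {D : Finset ι} {g v : ι → Fin N}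
    (hV : Vars x y z w u μ α β γ D g v) {k : ℕ} (hk : k ≤ d) :
    coeff (Finsupp.single u 1 + bx x y d k) (SF x y w u μ d b α β γ r m ∅ D g v) = b k := by
  classical
  have key : ∀ (q : Fin N →₀ ℕ) (c : ℂ) (j : Fin N),
      q j ≠ (Finsupp.single u 1 + bx x y d k : Fin N →₀ ℕ) j →
      coeff (Finsupp.single u 1 + bx x y d k) (monomial q c) = 0 := by
    intro q c j hj
    rw [coeff_monomial, if_neg]
    rintro rfl
    exact hj rfl
  have hu : (Finsupp.single u 1 + bx x y d k : Fin N →₀ ℕ) u = 1 := by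
    rw [Finsupp.add_apply, Finsupp.single_eq_same, bx_of_ne hV.xu hV.yu]
  have hw : (Finsupp.single u 1 + bx x y d k : Fin N →₀ ℕ) w = 0 := by
    rw [Finsupp.add_apply, Finsupp.single_apply, if_neg hV.wu.symm, bx_of_ne hV.xw hV.yw]
  have hz : (Finsupp.single u 1 + bx x y d k : Fin N →₀ ℕ) z = 0 := by
    rw [Finsupp.add_apply, Finsupp.single_apply, if_neg hV.zu.symm, bx_of_ne hV.xz hV.yz]
  have hx : ∀ l, (Finsupp.single u 1 + bx x y d l : Fin N →₀ ℕ) x = l := by
    intro l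
    rw [Finsupp.add_apply, Finsupp.single_apply, if_neg hV.xu.symm, bx_x hV.xy, zero_add]
  unfold SF
  rw [FF_empty, EX_eq, coeff_add, coeff_add, coeff_sum, coeff_add, coeff_sub, coeff_sum]
  have t0 : coeff (Finsupp.single u 1 + bx x y d k) (monomial (Line.v0 α m D g) (1 : ℂ)) = 0 := by
    apply key _ _ u
    rw [hu, v0_of_ne α m D (fun i hi => (hV.ug i hi).symm), hV.au]
    exact zero_ne_one
  have t1 : coeff (Finsupp.single u 1 + bx x y d k)
      (monomial (Finsupp.single u 1 + Finsupp.single w 1) (1 : ℂ)) = 0 := by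
    apply key _ _ w
    rw [hw, Finsupp.add_apply, Finsupp.single_eq_same]
    omega
  have t2 : coeff (Finsupp.single u 1 + bx x y d k)
      (monomial (Finsupp.single u 1 + μ) (1 : ℂ)) = 0 := by
    apply key _ _ z
    rw [hz, Finsupp.add_apply]
    have := hV.muz
    omega
  have t3 : ∑ l ∈ Finset.range (d + 1), coeff (Finsupp.single u 1 + bx x y d k)
      (monomial (Finsupp.single u 1 + bx x y d l) (b l)) = b k := by
    rw [Finset.sum_eq_single k]
    · rw [coeff_monomial, if_pos rfl]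
    · intro l _ hlk
      apply key _ _ x
      rw [hx, hx]
      exact hlk
    · intro h
      exact absurd (Finset.mem_range.2 (Nat.lt_succ_of_le hk)) h
  have t4 : ∑ i ∈ D, coeff (Finsupp.single u 1 + bx x y d k)
      (monomial (Finsupp.single (v i) 1 + Finsupp.single (g i) 1) 1 -
        monomial (Finsupp.single (v i) 1 + β) 1 +
          monomial (Finsupp.single (v i) 1 + γ) (r i)) = 0 := by
    refine Finset.sum_eq_zero fun i hi => ?_
    have h1 : ∀ (q : Fin N →₀ ℕ) (c : ℂ), q u = 0 → coeff (Finsupp.single u 1 + bx x y d k)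
        (monomial (Finsupp.single (v i) 1 + q) c) = 0 := by
      intro q c hq
      apply key _ _ u
      rw [hu, Finsupp.add_apply, Finsupp.single_apply, if_neg (hV.uv i hi).symm, hq]
      exact zero_ne_one
    rw [coeff_add, coeff_sub, h1 _ _ hV.bu, h1 _ _ hV.gu, h1 _ _
      (by rw [Finsupp.single_apply, if_neg (hV.ug i hi).symm])]
    ring
  rw [t0, t1, t2, t3, t4]
  ring

theorem initialPart_eq_fc (F : MvPolynomial (Fin N) ℂ) (om : Fin N → ℕ) :
    initialPart F om = inForm F (MPb07157F.fc F.support (fun j => (om j : ℤ))) := by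
  unfold initialPart inForm
  refine Finset.sum_congr ?_ fun _ _ => rfl
  have key : ∀ q : Fin N →₀ ℕ, ∑ j, (om j : ℤ) * (q j : ℤ) = ((∑ j, om j * q j : ℕ) : ℤ) := by
    intro q
    push_cast
    rfl
  ext q
  unfold MPb07157F.fc MPb07157F.zd
  simp only [Finset.mem_filter, key, Nat.cast_le]

/-- **Non-degeneracy on all faces.** -/
theorem nondeg_SF {x y z w u : Fin N} {μ : Fin N →₀ ℕ} {d : ℕ} {b : ℕ → ℂ}
    {α β γ : Fin N →₀ ℕ} {r : ι → ℂ} {m : ι → ℕ} {D : Finset ι} {g v : ι → Fin N}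
    (hV : Vars x y z w u μ α β γ D g v) (hr : ∀ i ∈ D, ∀ j ∈ D, r i = r j → i = j)
    (hB : BCond d b r D (β x) (β y) (β w) (γ x) (γ y)) :
    SF x y w u μ d b α β γ r m ∅ D g v ≠ 0 ∧
    (∀ om : Fin N → ℕ, IsNondeg (initialPart (SF x y w u μ d b α β γ r m ∅ D g v) om)) ∧
    ∀ (om : Fin N → ℕ) (ω : Fin N → ℤ),
      IsNondeg (initialPartZ (initialPart (SF x y w u μ d b α β γ r m ∅ D g v) om) ω) := by
  classical
  set F := SF x y w u μ d b α β γ r m ∅ D g v with hF
  obtain ⟨k, hk, hbk⟩ := hB.ne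
  have hF0 : F ≠ 0 := by
    intro h
    apply hbk
    rw [← coeff_SF_bx (b := b) (r := r) (m := m) hV hk, ← hF, h, coeff_zero]
  have hKC : KC x y u d b F.support := by
    left
    intro l hl hbl
    rw [mem_support_iff, hF, coeff_SF_bx hV hl]
    exact hbl
  have hne : ∀ (A : Finset (Fin N →₀ ℕ)) (ω : Fin N → ℤ), A.Nonempty →
      (MPb07157F.fc A ω).Nonempty := by
    intro A ω hA
    obtain ⟨v, hv, hmin⟩ := A.exists_min_image (fun v => MPb07157F.zd ω v) hA
    refine ⟨v, ?_⟩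
    unfold MPb07157F.fc
    rw [Finset.mem_filter]
    exact ⟨hv, hmin⟩
  have hsub : ∀ (A : Finset (Fin N →₀ ℕ)) (ω : Fin N → ℤ), MPb07157F.fc A ω ⊆ A :=
    fun A ω => Finset.filter_subset _ _
  have hin : ∀ om : Fin N → ℕ, initialPart F om =
      inForm F (MPb07157F.fc F.support (fun j => (om j : ℤ))) := initialPart_eq_fc F
  have hbe : ∃ k ≤ d, b k ≠ 0 := ⟨k, hk, hbk⟩
  refine ⟨hF0, fun om => ?_, fun om ω => ?_⟩
  · rw [hin]
    exact nondeg_inForm hV hr hB (hsub _ _) (hne _ _ (support_nonempty.2 hF0))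
      (hKC.face hV.xy hbe _)
  · rw [hin, initialPartZ_inForm (hsub _ _)]
    exact nondeg_inForm hV hr hB ((hsub _ _).trans (hsub _ _))
      (hne _ _ (hne _ _ (support_nonempty.2 hF0))) ((hKC.face hV.xy hbe _).face hV.xy hbe _)

theorem stableLoc_SF {x y z w u : Fin N} {μ : Fin N →₀ ℕ} {d : ℕ} {b : ℕ → ℂ}
    {α β γ : Fin N →₀ ℕ} {r : ι → ℂ} {m : ι → ℕ} {D : Finset ι} {g v : ι → Fin N}
    (hV : Vars x y z w u μ α β γ D g v) (hr : ∀ i ∈ D, ∀ j ∈ D, r i = r j → i = j)
    (hB : BCond d b r D (β x) (β y) (β w) (γ x) (γ y)) :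
    StableLoc N (SF x y w u μ d b α β γ r m ∅ D g v) :=
  StableLoc.nondeg _ fun om _ => (nondeg_SF hV hr hB).2.1 om

theorem stableGlob_SF {x y z w u : Fin N} {μ : Fin N →₀ ℕ} {d : ℕ} {b : ℕ → ℂ}
    {α β γ : Fin N →₀ ℕ} {r : ι → ℂ} {m : ι → ℕ} {D : Finset ι} {g v : ι → Fin N}
    (hV : Vars x y z w u μ α β γ D g v) (hr : ∀ i ∈ D, ∀ j ∈ D, r i = r j → i = j)
    (hB : BCond d b r D (β x) (β y) (β w) (γ x) (γ y))
    (h0 : coeff 0 (SF x y w u μ d b α β γ r m ∅ D g v) = 0) :
    StableGlob N (SF x y w u μ d b α β γ r m ∅ D g v) :=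
  StableGlob.nondeg _ h0 (nondeg_SF hV hr hB).2.1 fun om ω _ => (nondeg_SF hV hr hB).2.2 om ω

end SH

end MPb07157
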