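import Pool.Agent.Lib.MP_b07157_agSH.Dat
import Pool.Agent.Lib.MP_b07157_agSH.ND
import Pool.Agent.Lib.MP_b07157_agS.SGraph

/-!
# Shear-symmetric forms: the linear change `z ↦ z + α x`
-/

noncomputable section

namespace MPb07157.SH

open MvPolynomial

theorem notMem_vars_CX (α : ℂ) : (0 : Fin 3) ∉ (C α * X 1 : MvPolynomial (Fin 3) ℂ).vars := by
  classical
  intro h
  have h1 := vars_mul _ _ h
  rw [Finset.mem_union, vars_C, vars_X] at h1
  simp at h1

/-- The linear change `z ↦ z + α x`. -/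
def sh (α : ℂ) : MvPolynomial (Fin 3) ℂ ≃ₐ[ℂ] MvPolynomial (Fin 3) ℂ :=
  Graph.elem 0 (C α * X 1) (notMem_vars_CX α)

theorem sh_X0 (α : ℂ) : sh α (X 0) = X 0 + C α * X 1 := Graph.elem_X_self _ _ _

theorem sh_X1 (α : ℂ) : sh α (X 1) = X 1 :=
  Graph.elem_of_notMem _ _ _ (by rw [vars_X, Finset.mem_singleton]; decide)

theorem sh_X2 (α : ℂ) : sh α (X 2) = X 2 :=
  Graph.elem_of_notMem _ _ _ (by rw [vars_X, Finset.mem_singleton]; decide)

theorem sh_symm_X0 (α : ℂ) : (sh α).symm (X 0) = X 0 - C α * X 1 := by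
  rw [AlgEquiv.symm_apply_eq, map_sub, map_mul, sh_X0, sh_X1, ← algebraMap_eq, AlgEquiv.commutes]
  ring

theorem sh_symm_X1 (α : ℂ) : (sh α).symm (X 1) = X 1 := by
  rw [AlgEquiv.symm_apply_eq, sh_X1]

theorem sh_symm_X2 (α : ℂ) : (sh α).symm (X 2) = X 2 := by
  rw [AlgEquiv.symm_apply_eq, sh_X2]

theorem sh_C (α c : ℂ) : sh α (C c) = C c := by
  rw [← algebraMap_eq, AlgEquiv.commutes]

theorem sh_Bh (α : ℂ) (b : Polynomial ℂ) (N : ℕ) : sh α (SHR.Bh b N) = SHR.Bh b N := by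
  unfold SHR.Bh
  rw [map_sum]
  refine Finset.sum_congr rfl fun i _ => ?_
  rw [map_mul, map_mul, map_pow, map_pow, sh_C, sh_X1, sh_X2]

theorem Bh_sub (u v : ℕ) (B : Polynomial ℂ) (α : ℂ) :
    SHR.Bh (B - Polynomial.C α * Polynomial.X ^ v) (u + v + 1) =
      SHR.Bh B (u + v + 1) - C α * X 1 ^ (u + 1) * X 2 ^ v := by
  unfold SHR.Bh
  have h : ∀ i ∈ Finset.range (u + v + 1 + 1),
      C ((B - Polynomial.C α * Polynomial.X ^ v).coeff i) * X 1 ^ (u + v + 1 - i) * X 2 ^ i =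
        (C (B.coeff i) * X 1 ^ (u + v + 1 - i) * X 2 ^ i : MvPolynomial (Fin 3) ℂ) -
          if i = v then C α * X 1 ^ (u + 1) * X 2 ^ v else 0 := by
    intro i _
    rw [Polynomial.coeff_sub, Polynomial.coeff_C_mul, Polynomial.coeff_X_pow]
    split_ifs with hi
    · subst hi
      rw [mul_one, map_sub, show u + i + 1 - i = u + 1 by omega]
      ring
    · rw [mul_zero, sub_zero, sub_zero]
  rw [Finset.sum_congr rfl h, Finset.sum_sub_distrib, Finset.sum_ite_eq', if_pos]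
  rw [Finset.mem_range]
  omega

theorem sh_wS (u v : ℕ) (B : Polynomial ℂ) (α : ℂ) :
    sh α (SHR.wS u v B) = SHR.wS u v (B - Polynomial.C α * Polynomial.X ^ v) := by
  unfold SHR.wS
  rw [map_sub, map_mul, map_mul, map_pow, map_pow, sh_X0, sh_X1, sh_X2, sh_Bh, Bh_sub]
  ring

theorem sh_F (D : SHR.Dat) (B : Polynomial ℂ) (α : ℂ) :
    sh α (D.F B) = D.F (B - Polynomial.C α * Polynomial.X ^ D.v) := by
  unfold SHR.Dat.F SHR.Dat.g
  simp only [map_mul, map_prod, map_pow, map_sub, sh_wS, sh_X1, sh_X2, sh_C]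

/-- The linear change `z ↦ z + α x`. -/
theorem stable_shift (D : SHR.Dat) (B : Polynomial ℂ) (α : ℂ)
    (h : StableLoc 3 (D.F (B - Polynomial.C α * Polynomial.X ^ D.v))) : StableLoc 3 (D.F B) := by
  refine StableLoc.equiv _ _ 1 one_pos ?_ h
  have h1 : D.F B = (sh α).symm (D.F (B - Polynomial.C α * Polynomial.X ^ D.v)) := by
    rw [← sh_F, AlgEquiv.symm_apply_apply]
  rw [h1]
  refine Cub.formEquivPow_of_polyEquiv (sh α).symm (fun i => ?_) (fun i => ?_) _
  · fin_cases i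
    · show constantCoeff ((sh α).symm (X 0)) = 0
      rw [sh_symm_X0, map_sub, map_mul, constantCoeff_X, constantCoeff_X, mul_zero, sub_zero]
    · show constantCoeff ((sh α).symm (X 1)) = 0
      rw [sh_symm_X1, constantCoeff_X]
    · show constantCoeff ((sh α).symm (X 2)) = 0
      rw [sh_symm_X2, constantCoeff_X]
  · rw [AlgEquiv.symm_symm]
    fin_cases i
    · show constantCoeff (sh α (X 0)) = 0
      rw [sh_X0, map_add, map_mul, constantCoeff_X, constantCoeff_X, mul_zero, add_zero]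
    · show constantCoeff (sh α (X 1)) = 0
      rw [sh_X1, constantCoeff_X]
    · show constantCoeff (sh α (X 2)) = 0
      rw [sh_X2, constantCoeff_X]

/-- The conditions depend only on the coefficients `b_0, …, b_d`. -/
theorem BCond.congr {ι : Type} [DecidableEq ι] {d : ℕ} {b b' : ℕ → ℂ} {r : ι → ℂ} {D : Finset ι}
    {β1 β2 e γ1 γ2 : ℕ} (h : BCond d b r D β1 β2 e γ1 γ2) (hb : ∀ k ≤ d, b k = b' k) :
    BCond d b' r D β1 β2 e γ1 γ2 := by
  have h1 : bv d b' = bv d b := by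
    funext s t
    unfold bv
    refine Finset.sum_congr rfl fun k hk => ?_
    rw [hb k (by have := Finset.mem_range.1 hk; omega)]
  have h2 : bs d b' = bs d b := by
    funext s t
    unfold bs
    refine Finset.sum_congr rfl fun k hk => ?_
    rw [hb k (by have := Finset.mem_range.1 hk; omega)]
  have h3 : bt d b' = bt d b := by
    funext s t
    unfold bt
    refine Finset.sum_congr rfl fun k hk => ?_
    rw [hb k (by have := Finset.mem_range.1 hk; omega)]
  refine ⟨?_, ?_, ?_, ?_⟩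
  · obtain ⟨k, hk, hk'⟩ := h.ne
    exact ⟨k, hk, by rwa [← hb k hk]⟩
  · rw [h1, h2, h3]
    exact h.h1
  · rw [h1, h2, h3]
    exact h.h2
  · intro i hi k hk hbk hext
    rw [← hb k hk] at hbk ⊢
    refine h.h3 i hi k hk hbk ?_
    rcases hext with hext | hext
    · exact Or.inl fun l hl hbl => hext l hl (by rwa [← hb l hl])
    · exact Or.inr fun l hl hbl => hext l hl (by rwa [← hb l hl])

end MPb07157.SH
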