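import Pool.Agent.Lib.MP_b07157_agSH.A1
import Pool.Agent.Lib.MP_b07157_agSH.A2
import Pool.Agent.Lib.MP_b07157_agSH.A3
import Pool.Agent.Lib.MP_b07157_agSH.A4
import Pool.Agent.Lib.MP_b07157_agSH.A5
import Pool.Agent.Lib.MP_b07157_agSH.Shift
import Pool.Agent.Lib.MP_b07157_agSH.Emb
import Pool.Agent.Lib.MP_b07157_agSH.Gen

/-!
# Shear-symmetric forms are stably non-degenerate
-/

noncomputable section

namespace MPb07157.SH

open MvPolynomial TL

/-- The normal form of a shear-symmetric form. -/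
theorem exists_normal {ι : Type} [Fintype ι] [DecidableEq ι] [Nonempty ι]
    {f : MvPolynomial (Fin 3) ℂ} {d : ℕ} (hf : f.IsHomogeneous d) {c : ι → L0} {m : ι → ℕ}
    {a : ℕ} {c0 : ℂ} {lam : ℚ} (hF : Fac f tau c m (HahnSeries.single (a : ℚ) c0))
    (hM : ∀ s ∈ f.support, s 0 ≤ ∑ i, m i)
    (hlam : ∀ i j, ∃ z : ℂ, c i - c j = HahnSeries.single lam z) :
    ∃ (D : SHR.Dat) (B : Polynomial ℂ), B.natDegree ≤ D.u + D.v + 1 ∧ f = D.F B ∧
      D.m0 + D.e * ∑ z ∈ D.T, D.m z = ∑ i, m i ∧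
      ∀ i, i ≠ D.v → B.coeff i ≠ 0 → D.k2y + D.e * i ≠ D.k3y := by
  have hc0 : c0 ≠ 0 := by
    rintro rfl
    exact hF.ne (HahnSeries.single_eq_zero)
  obtain ⟨u, v, B, γ, hC⟩ := exists_center hF hlam
  obtain ⟨s, hE⟩ := exists_ex hf hF hM hC
  have hN := nn_of_ex hf hM hC hc0 hE
  obtain ⟨D, rfl, rfl, h1, h2, h3⟩ := exists_Dat (eq_Ps hf hM hC.deg hE hN) hE hN hC hc0
  exact ⟨D, B, hC.deg, h1, h2, h3⟩

/-- **Shear-symmetric forms.** The roots `c_i` of `f(X, 1, t)` satisfy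
`c_i - c_j = γ_ij t^lam`, and the leading coefficient is a monomial in `t`. -/
theorem stable_shear {ι : Type} [Fintype ι] [DecidableEq ι]
    {f : MvPolynomial (Fin 3) ℂ} {d : ℕ} (hf : f.IsHomogeneous d) {c : ι → L0} {m : ι → ℕ}
    {a : ℕ} {c0 : ℂ} {lam : ℚ} (hF : Fac f tau c m (HahnSeries.single (a : ℚ) c0))
    (hM : ∀ s ∈ f.support, s 0 ≤ ∑ i, m i) (h2 : 2 ≤ ∑ i, m i)
    (hlam : ∀ i j, ∃ z : ℂ, c i - c j = HahnSeries.single lam z) : StableLoc 3 f := by
  classical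
  have hne : Nonempty ι := by
    by_contra hcon
    rw [not_nonempty_iff] at hcon
    rw [Finset.univ_eq_empty, Finset.sum_empty] at h2
    omega
  obtain ⟨D, B, hB, h1, h3, h4⟩ := exists_normal hf hF hM hlam
  obtain ⟨S, hS, hS'⟩ := exists_generic (d := D.u + D.v + 1)
    (b := fun k => B.coeff (D.u + D.v + 1 - k)) (r := fun z : ℂ => z) (D := D.T) (k0 := D.u + 1)
    D.he (by omega) D.hdeg (fun i hi h0 => D.hT (by rw [← h0]; exact hi)) (by
      intro k hk hk0 hbk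
      have := h4 (D.u + D.v + 1 - k) (by omega) hbk
      omega)
  obtain ⟨α, hα⟩ := hS.exists_notMem
  rw [h1]
  refine stable_shift D B α (stable_Dat D ?_ (by rw [h3]; exact h2)
    ((hS' α hα).congr fun k hk => ?_))
  · refine (Polynomial.natDegree_sub_le _ _).trans (max_le hB ?_)
    refine (Polynomial.natDegree_C_mul_X_pow_le _ _).trans ?_
    omega
  · rw [Polynomial.coeff_sub, Polynomial.coeff_C_mul, Polynomial.coeff_X_pow]
    by_cases hk' : k = D.u + 1
    · subst hk'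
      rw [Function.update_self, if_pos (by omega), mul_one]
    · rw [Function.update_of_ne hk', if_neg (by omega), mul_zero, sub_zero]

end MPb07157.SH
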