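import Pool.Agent.Lib.MP_b07157_agSH.Defs

/-!
# Shear-symmetric forms: the center
-/

noncomputable section

namespace MPb07157.SH

open TL

namespace A1aux

/-- The map `t ↦ τ`. -/
abbrev evt : Polynomial ℂ →ₐ[ℂ] L0 := Polynomial.aeval tau

theorem tau_pow (n : ℕ) : (tau : L0) ^ n = HahnSeries.single (n : ℚ) (1 : ℂ) := by
  unfold tau
  rw [HahnSeries.single_pow, one_pow, nsmul_eq_mul, mul_one]

theorem tau_ne : (tau : L0) ≠ 0 := by
  unfold tau
  exact HahnSeries.single_ne_zero one_ne_zero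

theorem single_sum {ι : Type} (s : Finset ι) (q : ℚ) (g : ι → ℂ) :
    (HahnSeries.single q (∑ j ∈ s, g j) : L0) = ∑ j ∈ s, HahnSeries.single q (g j) :=
  map_sum (HahnSeries.single.addMonoidHom q) g s

theorem PL_lifts (f : MvPolynomial (Fin 3) ℂ) :
    PL f (tau : L0) ∈ Polynomial.lifts (evt : Polynomial ℂ →+* L0) := by
  unfold PL
  induction f using MvPolynomial.induction_on with
  | C a =>
    rw [MvPolynomial.aeval_C]
    have h1 : algebraMap ℂ (Polynomial L0) a =
        Polynomial.C ((evt : Polynomial ℂ →+* L0) (Polynomial.C a)) := by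
      rw [RingHom.coe_coe, Polynomial.aeval_C]
      rfl
    rw [h1]
    exact Polynomial.C_mem_lifts _ _
  | add p q hp hq =>
    rw [map_add]
    exact add_mem hp hq
  | mul_X p i hp =>
    rw [map_mul, MvPolynomial.aeval_X]
    refine mul_mem hp ?_
    fin_cases i
    · exact Polynomial.X_mem_lifts _
    · exact one_mem _
    · show Polynomial.C tau ∈ _
      have h1 : (tau : L0) = (evt : Polynomial ℂ →+* L0) Polynomial.X := by
        rw [RingHom.coe_coe, Polynomial.aeval_X]
      rw [h1]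
      exact Polynomial.C_mem_lifts _ _

theorem exists_coeff (f : MvPolynomial (Fin 3) ℂ) (j : ℕ) :
    ∃ q : Polynomial ℂ, evt q = (PL f (tau : L0)).coeff j := by
  have h1 := (Polynomial.lifts_iff_coeff_lifts _).1 (PL_lifts f) j
  exact h1

theorem exists_fac (a : ℕ) (Q : Polynomial ℂ) : ∃ o, o ≤ a ∧ ∃ B : Polynomial ℂ,
    Q = Polynomial.X ^ o * B ∧ (o = a ∨ B.coeff 0 ≠ 0) := by
  induction a generalizing Q with
  | zero => exact ⟨0, le_rfl, Q, by rw [pow_zero, one_mul], Or.inl rfl⟩
  | succ a ih =>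
    by_cases h : Q.coeff 0 = 0
    · obtain ⟨Q', rfl⟩ := Polynomial.X_dvd_iff.2 h
      obtain ⟨o, ho, B, hB, h2⟩ := ih Q'
      refine ⟨o + 1, by omega, B, ?_, ?_⟩
      · rw [hB]
        ring
      · rcases h2 with h2 | h2
        · exact Or.inl (by omega)
        · exact Or.inr h2
    · exact ⟨0, Nat.zero_le _, Q, by rw [pow_zero, one_mul], Or.inr h⟩

end A1aux

open A1aux in
theorem exists_center {ι : Type} [Fintype ι] [DecidableEq ι] [Nonempty ι]
    {f : MvPolynomial (Fin 3) ℂ} {c : ι → L0} {m : ι → ℕ} {a : ℕ} {c0 : ℂ} {lam : ℚ}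
    (hF : Fac f tau c m (HahnSeries.single (a : ℚ) c0))
    (hlam : ∀ i j, ∃ z : ℂ, c i - c j = HahnSeries.single lam z) :
    ∃ (u v : ℕ) (B : Polynomial ℂ) (γ : ι → ℂ), Cen c lam u v B γ := by
  have hc0 : c0 ≠ 0 := by
    intro h
    exact hF.ne (by rw [h, HahnSeries.single_eq_zero])
  -- the sum of the roots
  set M : ℕ := ∑ i, m i with hM
  have hMpos : 0 < M := by
    obtain ⟨i⟩ := ‹Nonempty ι›
    exact lt_of_lt_of_le (hF.pos i)
      (Finset.single_le_sum (f := m) (fun _ _ => Nat.zero_le _) (Finset.mem_univ i))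
  have hMC : (M : ℂ) ≠ 0 := by exact_mod_cast hMpos.ne'
  set S : L0 := ∑ i, (m i : L0) * c i with hS
  have hmon : ∀ i ∈ (Finset.univ : Finset ι),
      ((Polynomial.X - Polynomial.C (c i)) ^ m i).Monic := fun i _ =>
    (Polynomial.monic_X_sub_C (c i)).pow _
  have hnext : (∏ i, (Polynomial.X - Polynomial.C (c i)) ^ m i).nextCoeff = -S := by
    rw [Polynomial.Monic.nextCoeff_prod _ _ hmon, hS, ← Finset.sum_neg_distrib]
    refine Finset.sum_congr rfl fun i _ => ?_
    rw [(Polynomial.monic_X_sub_C (c i)).nextCoeff_pow, Polynomial.nextCoeff_X_sub_C,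
      nsmul_eq_mul]
    ring
  have hdeg : (∏ i, (Polynomial.X - Polynomial.C (c i)) ^ m i).natDegree = M := by
    rw [Polynomial.natDegree_prod_of_monic _ _ hmon, hM]
    refine Finset.sum_congr rfl fun i _ => ?_
    rw [Polynomial.natDegree_pow, Polynomial.natDegree_X_sub_C, mul_one]
  obtain ⟨Q1, hQ1⟩ := exists_coeff f (M - 1)
  rw [hF.eq, Polynomial.coeff_C_mul, ← hdeg,
    ← Polynomial.nextCoeff_of_natDegree_pos (by rw [hdeg]; exact hMpos), hnext] at hQ1
  have hsing : (HahnSeries.single (a : ℚ) c0 : L0) = HahnSeries.C c0 * tau ^ a := by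
    rw [tau_pow]
    show HahnSeries.single (a : ℚ) c0 = HahnSeries.single 0 c0 * HahnSeries.single (a : ℚ) 1
    rw [HahnSeries.single_mul_single, zero_add, mul_one]
  set Q : Polynomial ℂ := Polynomial.C (-(M * c0)⁻¹ : ℂ) * Q1 with hQ
  -- the roots
  choose z hz using hlam
  set γ : ι → ℂ := fun i => (M : ℂ)⁻¹ * ∑ j, (m j : ℂ) * z i j with hγ
  have hnat : ∀ n : ℕ, (n : L0) = HahnSeries.C (n : ℂ) := fun n => by rw [map_natCast]
  have hci : ∀ i, (M : L0) * c i = S + HahnSeries.single lam (∑ j, (m j : ℂ) * z i j) := by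
    intro i
    have h1 : (M : L0) * c i = S + ∑ j, (m j : L0) * (c i - c j) := by
      rw [hS, hM, Nat.cast_sum, Finset.sum_mul, ← Finset.sum_add_distrib]
      exact Finset.sum_congr rfl fun j _ => by ring
    rw [h1]
    congr 1
    rw [single_sum]
    refine Finset.sum_congr rfl fun j _ => ?_
    rw [hz, hnat]
    show HahnSeries.single 0 _ * _ = _
    rw [HahnSeries.single_mul_single, zero_add]
  have hroot : ∀ i, tau ^ a * c i = evt Q + HahnSeries.single (lam + a) (γ i) := by
    intro i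
    have hML : (M : L0) ≠ 0 := by
      rw [hnat]
      exact (map_ne_zero HahnSeries.C).2 hMC
    apply mul_left_cancel₀ hML
    have h1 : evt Q = HahnSeries.C (-(M * c0)⁻¹ : ℂ) * (HahnSeries.C c0 * tau ^ a * -S) := by
      rw [hQ, map_mul, Polynomial.aeval_C, hQ1, hsing]
      rfl
    have h2 : (M : L0) * HahnSeries.single (lam + a) (γ i) =
        tau ^ a * HahnSeries.single lam (∑ j, (m j : ℂ) * z i j) := by
      rw [hnat, tau_pow]
      show HahnSeries.single 0 _ * _ = _
      rw [HahnSeries.single_mul_single, HahnSeries.single_mul_single, zero_add, one_mul,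
        add_comm lam]
      congr 1
      rw [hγ]
      field_simp
    have h3 : (M : L0) * HahnSeries.C (-(M * c0)⁻¹ : ℂ) * HahnSeries.C c0 = -1 := by
      rw [hnat, ← map_mul, ← map_mul]
      have h4 : (M : ℂ) * -(M * c0)⁻¹ * c0 = -1 := by
        field_simp
      rw [h4, map_neg, map_one]
    calc (M : L0) * (tau ^ a * c i) = tau ^ a * ((M : L0) * c i) := by ring
      _ = tau ^ a * S + tau ^ a * HahnSeries.single lam (∑ j, (m j : ℂ) * z i j) := by
        rw [hci, mul_add]
      _ = tau ^ a * S + (M : L0) * HahnSeries.single (lam + a) (γ i) := by rw [h2]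
      _ = ((M : L0) * HahnSeries.C (-(M * c0)⁻¹ : ℂ) * HahnSeries.C c0) * (tau ^ a * -S) +
          (M : L0) * HahnSeries.single (lam + a) (γ i) := by rw [h3]; ring
      _ = (M : L0) * (evt Q + HahnSeries.single (lam + a) (γ i)) := by rw [h1]; ring
  clear_value Q γ
  -- normalization
  obtain ⟨Q', γ', hroot', hnorm⟩ : ∃ (Q' : Polynomial ℂ) (γ' : ι → ℂ),
      (∀ i, tau ^ a * c i = evt Q' + HahnSeries.single (lam + a) (γ' i)) ∧
      (lam ≠ 0 → ∀ j : ℕ, (j : ℚ) = lam + a → Q'.coeff j = 0) := by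
    by_cases hj : ∃ j : ℕ, (j : ℚ) = lam + a
    · obtain ⟨j, hj⟩ := hj
      refine ⟨Q - Polynomial.C (Q.coeff j) * Polynomial.X ^ j, fun i => γ i + Q.coeff j,
        fun i => ?_, fun _ j' hj' => ?_⟩
      · rw [hroot i, map_sub, map_mul, map_pow, Polynomial.aeval_X, Polynomial.aeval_C, tau_pow,
          algebraMap_L0, ← hj]
        have h1 : (HahnSeries.C (Q.coeff j) : L0) * HahnSeries.single (j : ℚ) 1 =
            HahnSeries.single (j : ℚ) (Q.coeff j) := by
          show HahnSeries.single 0 _ * _ = _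
          rw [HahnSeries.single_mul_single, zero_add, mul_one]
        have h2 : (HahnSeries.single (j : ℚ) (γ i + Q.coeff j) : L0) =
            HahnSeries.single (j : ℚ) (γ i) + HahnSeries.single (j : ℚ) (Q.coeff j) :=
          map_add (HahnSeries.single.addMonoidHom (j : ℚ)) _ _
        rw [h1, h2]
        ring
      · have h1 : j' = j := by exact_mod_cast hj'.trans hj.symm
        rw [h1, Polynomial.coeff_sub, Polynomial.coeff_C_mul_X_pow, if_pos rfl, sub_self]
    · exact ⟨Q, γ, hroot, fun _ j hj' => absurd ⟨j, hj'⟩ hj⟩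
  obtain ⟨o, ho, B, hB, hB0⟩ := exists_fac a Q'
  obtain ⟨v, rfl⟩ := Nat.exists_eq_add_of_le ho
  refine ⟨B.natDegree - (v + 1), v, B, γ', ?_, ?_, ?_, ?_, ?_⟩
  · omega
  · rcases hB0 with h | h
    · exact Or.inl (by omega)
    · exact Or.inr h
  · by_cases h : B.natDegree - (v + 1) = 0
    · exact Or.inl h
    · right
      have h1 : B.natDegree - (v + 1) + v + 1 = B.natDegree := by omega
      rw [h1]
      have h2 : B ≠ 0 := by
        rintro rfl
        simp at h
      exact Polynomial.leadingCoeff_ne_zero.2 h2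
  · intro hl j hj
    have h1 := hnorm hl (j + o) (by rw [Nat.cast_add, Nat.cast_add, hj]; ring)
    rw [hB, Polynomial.coeff_X_pow_mul] at h1
    exact h1
  · intro i
    have h1 : (tau : L0) ^ o ≠ 0 := pow_ne_zero _ tau_ne
    apply mul_left_cancel₀ h1
    have h2 : (tau : L0) ^ o * HahnSeries.single (lam + v) (γ' i) =
        HahnSeries.single (lam + ((o + v : ℕ) : ℚ)) (γ' i) := by
      rw [tau_pow, HahnSeries.single_mul_single, one_mul]
      congr 1
      push_cast
      ring
    rw [mul_add, h2, ← mul_assoc, ← pow_add, hroot' i, hB, map_mul, map_pow,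
      Polynomial.aeval_X]

end MPb07157.SH
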