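import Pool.Agent.Lib.MP_b07157_agQ.LineC
import Pool.Agent.Lib.MP_b07157_agL3.Defs2

/-!
# Shear-symmetric forms in three variables: definitions

The variables are `z = X 0`, `x = X 1`, `y = X 2`.
-/

noncomputable section

namespace MPb07157.SHR

open MvPolynomial

/-- The binary form `∑ b_i x^(N - i) y^i`. -/
def Bh (b : Polynomial ℂ) (N : ℕ) : MvPolynomial (Fin 3) ℂ :=
  ∑ i ∈ Finset.range (N + 1), C (b.coeff i) * X 1 ^ (N - i) * X 2 ^ i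

/-- The polynomial `x^u y^v z - B(x, y)`, `B = Bh b (u + v + 1)`. -/
def wS (u v : ℕ) (b : Polynomial ℂ) : MvPolynomial (Fin 3) ℂ :=
  X 1 ^ u * X 2 ^ v * X 0 - Bh b (u + v + 1)

/-- Discrete data of a shear-symmetric form. -/
structure Dat where
  c : ℂ
  a1 : ℕ
  a2 : ℕ
  m0 : ℕ
  u : ℕ
  v : ℕ
  e : ℕ
  k2x : ℕ
  k2y : ℕ
  k3x : ℕ
  k3y : ℕ
  T : Finset ℂ
  m : ℂ → ℕ
  hc : c ≠ 0
  he : 0 < e
  hT : (0 : ℂ) ∉ T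
  hm : ∀ γ ∈ T, 0 < m γ
  /-- both sides of `x^(k2x) y^(k2y) w^e - γ x^(k3x) y^(k3y)` have the same degree -/
  hdeg : k2x + k2y + e * (u + v + 1) = k3x + k3y

/-- `x^(k2x) y^(k2y) w^e - γ x^(k3x) y^(k3y)`. -/
def Dat.g (D : Dat) (b : Polynomial ℂ) (γ : ℂ) : MvPolynomial (Fin 3) ℂ :=
  X 1 ^ D.k2x * X 2 ^ D.k2y * wS D.u D.v b ^ D.e - C γ * (X 1 ^ D.k3x * X 2 ^ D.k3y)

/-- The form `c x^(a1) y^(a2) w^(m0) ∏ (x^(k2x) y^(k2y) w^e - γ x^(k3x) y^(k3y))^(m_γ)`. -/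
def Dat.F (D : Dat) (b : Polynomial ℂ) : MvPolynomial (Fin 3) ℂ :=
  C D.c * (X 1 ^ D.a1 * X 2 ^ D.a2) * wS D.u D.v b ^ D.m0 * ∏ γ ∈ D.T, D.g b γ ^ D.m γ

/-- The conditions under which the graph embedding is non-degenerate. -/
structure Dat.Good (D : Dat) (b : Polynomial ℂ) : Prop where
  deg : b.natDegree ≤ D.u + D.v + 1
  simple : ∀ t : ℂ, t ≠ 0 → b.eval t = 0 → b.derivative.eval t ≠ 0
  crit : ∀ γ ∈ D.T, ∀ t : ℂ, t ≠ 0 → t ^ D.k2y * (-b.eval t) ^ D.e = γ * t ^ D.k3y →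
    (D.e : ℂ) * t * b.derivative.eval t ≠ ((D.k3y : ℂ) - D.k2y) * b.eval t
  ext : ∀ γ ∈ D.T, ∀ i : ℕ, b.coeff i ≠ 0 → D.k2y + D.e * i = D.k3y → (-b.coeff i) ^ D.e ≠ γ

/-- At least two different branches. -/
def Dat.Two (D : Dat) : Prop := 2 ≤ D.T.card ∨ (D.T.card = 1 ∧ (0 < D.m0 ∨ 2 ≤ D.e))

end MPb07157.SHR
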