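import Pool.Agent.Lib.MP_b07157_agSH.Dat

/-!
# Shear-symmetric forms: the normal form, definitions

The variables of forms are `z = X 0`, `x = X 1`, `y = X 2`.
-/

noncomputable section

namespace MPb07157.SH

open MvPolynomial

/-- The polynomial `t^(v M) f((X + B) / t^v, 1, t)`, where `M` is the degree of `f` in `z`. -/
def PB (f : MvPolynomial (Fin 3) ℂ) (v M : ℕ) (B : Polynomial ℂ) :
    Polynomial (Polynomial ℂ) :=
  ∑ s ∈ f.support, Polynomial.C (Polynomial.C (coeff s f) *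
    Polynomial.X ^ (s 2 + v * (M - s 0))) * (Polynomial.X + Polynomial.C B) ^ s 0

/-- The data of a center: the roots are `c_i = B(t) / t^v + γ_i t^lam`. -/
structure Cen {ι : Type} [Fintype ι] (c : ι → TL.L0) (lam : ℚ) (u v : ℕ) (B : Polynomial ℂ)
    (γ : ι → ℂ) : Prop where
  deg : B.natDegree ≤ u + v + 1
  low : v = 0 ∨ B.coeff 0 ≠ 0
  high : u = 0 ∨ B.coeff (u + v + 1) ≠ 0
  norm : lam ≠ 0 → ∀ j : ℕ, (j : ℚ) = lam + v → B.coeff j = 0
  eq : ∀ i, TL.tau ^ v * c i =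
    Polynomial.aeval TL.tau B + HahnSeries.single (lam + v) (γ i)

/-- The polynomial `∏ (X - γ_i)^(m_i)`. -/
def gg {ι : Type} [Fintype ι] (γ : ι → ℂ) (m : ι → ℕ) : Polynomial ℂ :=
  ∏ i, (Polynomial.X - Polynomial.C (γ i)) ^ m i

/-- The polynomial `P = ∑_j c_0 g_j t^(s_j) X^j` and its exponents. -/
structure Ex (P : Polynomial (Polynomial ℂ)) (c0 : ℂ) (a M v : ℕ) (lam : ℚ) (g : Polynomial ℂ)
    (s : ℕ → ℕ) : Prop where
  mon : g.Monic
  deg : g.natDegree = M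
  exp : ∀ j ∈ g.support, (s j : ℚ) = a + ((M : ℚ) - j) * (lam + v)
  eq : P = ∑ j ∈ g.support, Polynomial.C (Polynomial.C (c0 * g.coeff j) *
    Polynomial.X ^ s j) * Polynomial.X ^ j

/-- The exponents are not negative. -/
structure Nn (d M u v : ℕ) (g : Polynomial ℂ) (s : ℕ → ℕ) : Prop where
  y : ∀ j ∈ g.support, v * M ≤ s j
  x : ∀ j ∈ g.support, s j + (u + v + 1) * j ≤ d + v * M

/-- The polynomial `∑_j c_0 g_j w^j x^(d + v M - s_j - n j) y^(s_j - v M)`, the variables are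
`w = X 0`, `x = X 1`, `y = X 2`. -/
def Ps (c0 : ℂ) (d M u v : ℕ) (g : Polynomial ℂ) (s : ℕ → ℕ) : MvPolynomial (Fin 3) ℂ :=
  ∑ j ∈ g.support, C (c0 * g.coeff j) * X 0 ^ j * X 1 ^ (d + v * M - s j - (u + v + 1) * j) *
    X 2 ^ (s j - v * M)

end MPb07157.SH
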