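import Pool.Agent.Lib.MP_b07157_agSH.ND

/-!
# The induction over the factors
-/

noncomputable section

namespace MPb07157

open MvPolynomial

namespace SH

open Line

variable {N : ℕ} {ι : Type} [DecidableEq ι]

theorem castAdd_ne {i j : Fin N} (h : i ≠ j) : Fin.castAdd 2 i ≠ Fin.castAdd 2 j :=
  fun h1 => h (Fin.castAdd_injective N 2 h1)

theorem eE_single (j : Fin N) (k : ℕ) :
    eE (Finsupp.single j k) = Finsupp.single (Fin.castAdd 2 j) k := by
  unfold eE
  rw [Finsupp.mapDomain_single]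

theorem eE_bx (x y : Fin N) (d k : ℕ) :
    eE (bx x y d k) = bx (Fin.castAdd 2 x) (Fin.castAdd 2 y) d k := by
  unfold bx
  rw [← eE_single, ← eE_single]
  unfold eE
  rw [Finsupp.mapDomain_add]

theorem em_add (p q : MvPolynomial (Fin N) ℂ) : Cub.em (p + q) = Cub.em p + Cub.em q := by
  unfold Cub.em; rw [map_add]

theorem em_EX (x y w u : Fin N) (μ : Fin N →₀ ℕ) (d : ℕ) (b : ℕ → ℂ) :
    Cub.em (EX x y w u μ d b) =
      EX (Fin.castAdd 2 x) (Fin.castAdd 2 y) (Fin.castAdd 2 w) (Fin.castAdd 2 u) (eE μ) d b := by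
  unfold EX BB
  rw [em_mul, em_add, em_sub, em_X, em_X, em_monomial, em_sum]
  congr 2
  refine Finset.sum_congr rfl fun k _ => ?_
  rw [em_monomial, eE_bx]

theorem constantCoeff_EX (x y w u : Fin N) (μ : Fin N →₀ ℕ) (d : ℕ) (b : ℕ → ℂ) :
    constantCoeff (EX x y w u μ d b) = 0 := by
  unfold EX
  rw [map_mul, constantCoeff_X, zero_mul]

theorem Vars.ext {x y z w u : Fin N} {μ α β γ : Fin N →₀ ℕ} {D : Finset ι} {g v : ι → Fin N}
    (h : Vars x y z w u μ α β γ D g v) {i : ι} (hi : i ∉ D) :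
    Vars (Fin.castAdd 2 x) (Fin.castAdd 2 y) (Fin.castAdd 2 z) (Fin.castAdd 2 w)
      (Fin.castAdd 2 u) (eE μ) (eE α) (eE β) (eE γ) (insert i D) (Line.ext g i 0)
      (Line.ext v i 1) := by
  have key : ∀ (g : ι → Fin N) (k : Fin 2) (δ : Fin N →₀ ℕ), (∀ j ∈ D, δ (g j) = 0) →
      ∀ j ∈ insert i D, eE δ (Line.ext g i k j) = 0 := by
    intro g k δ hδ j hj
    by_cases hji : j = i
    · rw [hji, ext_self, eE_natAdd]
    · rw [ext_of_ne g k hji, eE_castAdd]
      exact hδ j ((Finset.mem_insert.1 hj).resolve_left hji)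
  have key2 : ∀ (g : ι → Fin N) (k : Fin 2) (x : Fin N), (∀ j ∈ D, x ≠ g j) →
      ∀ j ∈ insert i D, Fin.castAdd 2 x ≠ Line.ext g i k j := by
    intro g k x hx j hj
    by_cases hji : j = i
    · rw [hji, ext_self]
      exact castAdd_ne_natAdd _ _
    · rw [ext_of_ne g k hji]
      exact castAdd_ne (hx j ((Finset.mem_insert.1 hj).resolve_left hji))
  constructor
  case good => exact h.good.ext hi
  case mg => exact key g 0 μ h.mg
  case mv => exact key v 1 μ h.mv
  case xg => exact key2 g 0 x h.xg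
  case xv => exact key2 v 1 x h.xv
  case yg => exact key2 g 0 y h.yg
  case yv => exact key2 v 1 y h.yv
  case wg => exact key2 g 0 w h.wg
  case wv => exact key2 v 1 w h.wv
  case ug => exact key2 g 0 u h.ug
  case uv => exact key2 v 1 u h.uv
  case zg => exact key2 g 0 z h.zg
  case zv => exact key2 v 1 z h.zv
  case xy => exact castAdd_ne h.xy
  case xz => exact castAdd_ne h.xz
  case xw => exact castAdd_ne h.xw
  case xu => exact castAdd_ne h.xu
  case yz => exact castAdd_ne h.yz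
  case yw => exact castAdd_ne h.yw
  case yu => exact castAdd_ne h.yu
  case zw => exact castAdd_ne h.zw
  case zu => exact castAdd_ne h.zu
  case wu => exact castAdd_ne h.wu
  case muz => rw [eE_castAdd]; exact h.muz
  case muw => rw [eE_castAdd]; exact h.muw
  case muu => rw [eE_castAdd]; exact h.muu
  case az => rw [eE_castAdd]; exact h.az
  case au => rw [eE_castAdd]; exact h.au
  case bz => rw [eE_castAdd]; exact h.bz
  case bu => rw [eE_castAdd]; exact h.bu
  case bw => rw [eE_castAdd]; exact h.bw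
  case gz => rw [eE_castAdd]; exact h.gz
  case gu => rw [eE_castAdd]; exact h.gu
  case gw => rw [eE_castAdd]; exact h.gw
  case bo =>
    intro j
    refine Fin.addCases (fun j => ?_) (fun k => ?_) j
    · intro h1 h2 h3
      rw [eE_castAdd]
      exact h.bo j (fun e => h1 (by rw [e])) (fun e => h2 (by rw [e])) (fun e => h3 (by rw [e]))
    · intro _ _ _
      rw [eE_natAdd]
  case go =>
    intro j
    refine Fin.addCases (fun j => ?_) (fun k => ?_) j
    · intro h1 h2
      rw [eE_castAdd]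
      exact h.go j (fun e => h1 (by rw [e])) (fun e => h2 (by rw [e]))
    · intro _ _
      rw [eE_natAdd]

omit [DecidableEq ι] in
theorem BCond.mono {d : ℕ} {b : ℕ → ℂ} {r : ι → ℂ} {D D' : Finset ι} {β1 β2 e γ1 γ2 : ℕ}
    (h : BCond d b r D β1 β2 e γ1 γ2) (hD : D' ⊆ D) : BCond d b r D' β1 β2 e γ1 γ2 :=
  ⟨h.ne, h.h1, fun i hi => h.h2 i (hD hi), fun i hi => h.h3 i (hD hi)⟩

theorem SF_insert (x y w u : Fin N) (μ : Fin N →₀ ℕ) (d : ℕ) (b : ℕ → ℂ) (α β γ : Fin N →₀ ℕ)
    (r : ι → ℂ) (m : ι → ℕ) {T D : Finset ι} (g v : ι → Fin N) {i : ι} (hi : i ∉ T) :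
    SF x y w u μ d b α β γ r m (insert i T) D g v =
      PP α β γ r m T D g * bin β γ (r i) ^ m i + (Line.SS β γ r D g v + EX x y w u μ d b) := by
  unfold SF
  rw [FF_insert α β γ r m g v hi]
  ring

theorem exq_SF (x y w u : Fin N) (μ : Fin N →₀ ℕ) (d : ℕ) (b : ℕ → ℂ) (α β γ : Fin N →₀ ℕ)
    (r : ι → ℂ) (m : ι → ℕ) {T D : Finset ι} (g v : ι → Fin N) {i : ι} (hi : i ∉ D) :
    exq (PP α β γ r m T D g) (bin β γ (r i)) (Line.SS β γ r D g v + EX x y w u μ d b) (m i) =
      SF (Fin.castAdd 2 x) (Fin.castAdd 2 y) (Fin.castAdd 2 w) (Fin.castAdd 2 u) (eE μ) d b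
        (eE α) (eE β) (eE γ) r m T (insert i D) (Line.ext g i 0) (Line.ext v i 1) := by
  unfold SF
  rw [← exq_PP α β γ r m g v hi, ← em_EX]
  unfold exq
  rw [em_add]
  ring

theorem stable_SF {r : ι → ℂ} {m : ι → ℕ} {d : ℕ} {b : ℕ → ℂ} (hm : ∀ i, 0 < m i) (k : ℕ) :
    ∀ (N : ℕ) (x y z w u : Fin N) (μ α β γ : Fin N →₀ ℕ) (T D : Finset ι) (g v : ι → Fin N),
      T.card = k → Vars x y z w u μ α β γ D g v → Disjoint T D →
      (∀ i ∈ T ∪ D, ∀ j ∈ T ∪ D, r i = r j → i = j) →
      BCond d b r (T ∪ D) (β x) (β y) (β w) (γ x) (γ y) → γ ≠ 0 →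
      (α ≠ 0 ∨ D.Nonempty ∨ 2 ≤ T.card) →
      StableLoc N (SF x y w u μ d b α β γ r m T D g v) ∧
        StableGlob N (SF x y w u μ d b α β γ r m T D g v) := by
  induction k with
  | zero =>
    intro N x y z w u μ α β γ T D g v hT hV _ hr hB hγ h
    have hT0 : T = ∅ := Finset.card_eq_zero.1 hT
    subst hT0
    rw [Finset.empty_union] at hr hB
    refine ⟨stableLoc_SF hV hr hB, stableGlob_SF hV hr hB ?_⟩
    have hβ : β ≠ 0 := by
      rintro rfl
      exact hV.bw rfl
    unfold SF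
    rw [← constantCoeff_eq, FF_eq_PP, map_add, map_add, constantCoeff_SS, constantCoeff_EX,
      add_zero, add_zero]
    apply constantCoeff_PP hm hβ hγ
    rcases h with h | h | h
    · exact Or.inl h
    · exact Or.inr (Or.inl h)
    · rw [Finset.card_empty] at h
      omega
  | succ k ih =>
    intro N x y z w u μ α β γ T D g v hT hV hTD hr hB hγ h
    have hβ : β ≠ 0 := by
      rintro rfl
      exact hV.bw rfl
    obtain ⟨i, hiT⟩ : T.Nonempty := by
      rw [← Finset.card_pos]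
      omega
    obtain ⟨T', hiT', rfl⟩ : ∃ T', i ∉ T' ∧ T = insert i T' :=
      ⟨T.erase i, Finset.notMem_erase i T, (Finset.insert_erase hiT).symm⟩
    rw [Finset.card_insert_of_notMem hiT'] at hT h
    have hiD : i ∉ D := Finset.disjoint_left.1 hTD (Finset.mem_insert_self i T')
    have hP : constantCoeff (PP α β γ r m T' D g) = 0 := by
      apply constantCoeff_PP hm hβ hγ
      rcases h with h | h | h
      · exact Or.inl h
      · exact Or.inr (Or.inl h)
      · refine Or.inr (Or.inr ?_)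
        rw [← Finset.card_pos]
        omega
    have hun : T' ∪ insert i D = insert i T' ∪ D := by
      ext x
      simp only [Finset.mem_union, Finset.mem_insert]
      tauto
    have hdis : Disjoint T' (insert i D) := by
      rw [Finset.disjoint_insert_right]
      exact ⟨hiT', Finset.disjoint_of_subset_left (Finset.subset_insert i T') hTD⟩
    obtain ⟨h1, h2⟩ := ih (N + 2) (Fin.castAdd 2 x) (Fin.castAdd 2 y) (Fin.castAdd 2 z)
      (Fin.castAdd 2 w) (Fin.castAdd 2 u) (eE μ) (eE α) (eE β) (eE γ) T' (insert i D)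
      (Line.ext g i 0) (Line.ext v i 1) (by omega) (hV.ext hiD) hdis (by rw [hun]; exact hr)
      (by rw [hun, eE_castAdd, eE_castAdd, eE_castAdd, eE_castAdd, eE_castAdd]; exact hB)
      (eE_ne_zero hγ) (Or.inr (Or.inl ⟨i, Finset.mem_insert_self i D⟩))
    rw [← exq_SF x y w u μ d b α β γ r m g v hiD] at h1 h2
    rw [SF_insert x y w u μ d b α β γ r m g v hiT']
    refine ⟨stableLoc_of_exq h1 (constantCoeff_bin hβ hγ _) hP, stableGlob_of_exq h2 ?_⟩
    rw [← constantCoeff_eq, map_add, map_add, constantCoeff_SS, constantCoeff_EX, map_mul, hP,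
      zero_mul, add_zero, add_zero]

end SH

end MPb07157
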